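import Pool.Agent.Lib.MP_233400_co.AT.Stm

set_option autoImplicit false

/-!
# Piece CNT: the waiting times
-/

namespace Pool.Agent.Lib.MP_233400_co.AT

open Finset

theorem CNT_Hd_append {X : Type} [DecidableEq X] (f : ℕ → X → X) (u : X) (W σ : List ℕ)
    (h : Hd f u W) : Hd f u (W ++ σ) := by
  obtain ⟨c, W', rfl, hc⟩ := h
  exact ⟨c, W' ++ σ, rfl, hc⟩

theorem CNT_perm (W W' R σ : List ℕ) (h : W'.Perm W) :
    (R ++ (W' ++ σ)).Perm (W ++ (R ++ σ)) := by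
  have h1 : (R ++ (W' ++ σ)).Perm (R ++ (W ++ σ)) := (h.append_right σ).append_left R
  refine h1.trans ?_
  rw [← List.append_assoc, ← List.append_assoc]
  exact List.perm_append_comm.append_right σ

/-- the triples inject -/
theorem CNT_inj (hWDS : S_WDS) (hEXL : S_EXL) (hDET : S_DET) (hLOC : S_LOC) (hWAIT : S_WAIT)
    (hMEM : S_MEM) (X : Type) [DecidableEq X] (f : ℕ → X → X) (S : Finset X) (hS : Sy S f)
    (p : ℕ → ℕ) (hp : Par p) (k h : ℕ) (C : Finset ℕ) (hk : 1 ≤ k)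
    (A : Finset (X × List ℕ)) (hA : ∀ x ∈ A, x.1 ∈ S ∧ x.2 ∈ wds h C ∧ Hd f x.1 x.2 ∧
      run f (sch p k 0) (fun _ => x.1) x.2 = none) :
    A.card * h ≤ (k - 1) * (S.card * (wds h C).card) := by
  obtain ⟨hW1, -, -, -⟩ := hWDS
  obtain ⟨-, -, -, -, -, hE6⟩ := hEXL X f
  obtain ⟨-, hM2⟩ := hMEM X f S hS
  have hz : ∀ J, p (J + 1) ≤ J := fun J => Nat.lt_succ_iff.1 (hp.lt (J + 1) (by omega))
  -- the data of a waiting time
  have hdata : ∀ x : (X × List ℕ) × ℕ, ∃ (J : ℕ) (φ : ℕ → X) (W R σ : List ℕ),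
      x ∈ A ×ˢ Icc 1 h → 1 ≤ J ∧ J < k ∧ x.1.2 = W ++ (R ++ σ) ∧
        W.length + R.length = x.2 ∧ φ 0 = x.1.1 ∧ (∀ i, J < i → φ i = x.1.1) ∧
        ER f φ p J 0 W ∧ ∀ b ∈ R, f b (φ (p (J + 1))) = φ (p (J + 1)) := by
    intro x
    by_cases hx : x ∈ A ×ˢ Icc 1 h
    · rw [mem_product, mem_Icc] at hx
      obtain ⟨hxA, ht1, ht2⟩ := hx
      obtain ⟨-, hw, hHd, hrun⟩ := hA x.1 hxA
      have hlen : x.1.2.length = h := ((hW1 h C x.1.2).1 hw).2.1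
      obtain ⟨J, φ, W, R, σ, hh⟩ := hWAIT X f p hp k x.1.1 x.1.2 hk hHd hrun x.2 ht1
        (by rw [hlen]; exact ht2)
      exact ⟨J, φ, W, R, σ, fun _ => hh⟩
    · exact ⟨0, fun _ => x.1.1, [], [], [], fun h' => absurd h' hx⟩
  choose J φ W R σ hd using hdata
  have hpsi : ∀ (φ : ℕ → X) (J : ℕ), ∃ Ψ : List ℕ → List ℕ, 1 ≤ J →
      (∀ W, ER f φ p J 0 W → ER f φ p J (p (J + 1)) (Ψ W) ∧ (Ψ W).Perm W) ∧
        ∀ W W', ER f φ p J 0 W → ER f φ p J 0 W' → Ψ W = Ψ W' → W = W' := by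
    intro φ J
    by_cases hJ : 1 ≤ J
    · obtain ⟨Ψ, hΨ⟩ := hLOC X f p hp hS.invol φ J hJ (p (J + 1)) (hz J)
      exact ⟨Ψ, fun _ => hΨ⟩
    · exact ⟨id, fun h' => absurd h' hJ⟩
  choose Ψ hΨ using hpsi
  have key := Finset.card_le_card_of_injOn (s := A ×ˢ Icc 1 h)
    (t := Icc 1 (k - 1) ×ˢ (S ×ˢ wds h C))
    (fun x => (J x, (φ x (p (J x + 1)), R x ++ (Ψ (φ x) (J x) (W x) ++ σ x)))) ?_ ?_
  · rw [card_product, card_product, card_product, Nat.card_Icc, Nat.card_Icc] at key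
    have e1 : h + 1 - 1 = h := by omega
    have e2 : k - 1 + 1 - 1 = k - 1 := by omega
    rwa [e1, e2] at key
  · intro x hx
    have hx' : x ∈ A ×ˢ Icc 1 h := hx
    obtain ⟨hJ1, hJk, hπ, -, h0, -, hER, -⟩ := hd x hx'
    obtain ⟨hΨ1, -⟩ := hΨ (φ x) (J x) hJ1
    obtain ⟨-, hperm⟩ := hΨ1 (W x) hER
    obtain ⟨hxS, hxw, -, -⟩ := hA x.1 (mem_product.1 hx').1
    have hin : (J x, (φ x (p (J x + 1)), R x ++ (Ψ (φ x) (J x) (W x) ++ σ x))) ∈
        Icc 1 (k - 1) ×ˢ (S ×ˢ wds h C) := by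
      rw [mem_product, mem_product, mem_Icc]
      refine ⟨⟨hJ1, ?_⟩, ?_, ?_⟩
      · change J x ≤ k - 1
        omega
      · exact hM2 p hp (J x) 0 (Nat.zero_le _) (φ x) (W x) (by rw [h0]; exact hxS) hER.1
          _ (hz _)
      · change R x ++ (Ψ (φ x) (J x) (W x) ++ σ x) ∈ wds h C
        rw [hW1] at hxw ⊢
        rw [hπ] at hxw
        have hp2 := CNT_perm (W x) (Ψ (φ x) (J x) (W x)) (R x) (σ x) hperm
        exact ⟨hp2.nodup_iff.2 hxw.1, hp2.length_eq.trans hxw.2.1,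
          fun a ha => hxw.2.2 a (hp2.mem_iff.1 ha)⟩
    exact hin
  · intro x hx y hy hxy
    have hx' : x ∈ A ×ˢ Icc 1 h := hx
    have hy' : y ∈ A ×ˢ Icc 1 h := hy
    obtain ⟨hJ1, hJk, hπ, hlen, h0, hout, hER, hR⟩ := hd x hx'
    obtain ⟨hJ1', hJk', hπ', hlen', h0', hout', hER', hR'⟩ := hd y hy'
    have e1 : J x = J y := congrArg Prod.fst hxy
    have e2 : φ x (p (J x + 1)) = φ y (p (J y + 1)) := congrArg (fun q => q.2.1) hxy
    have e3 : R x ++ (Ψ (φ x) (J x) (W x) ++ σ x) = R y ++ (Ψ (φ y) (J y) (W y) ++ σ y) :=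
      congrArg (fun q => q.2.2) hxy
    rw [← e1] at e2 e3 hER' hR' hout'
    obtain ⟨hΨ1, hΨ2⟩ := hΨ (φ x) (J x) hJ1
    obtain ⟨hΨ1', -⟩ := hΨ (φ y) (J x) hJ1
    obtain ⟨hE1, -⟩ := hΨ1 (W x) hER
    obtain ⟨hE1', -⟩ := hΨ1' (W y) hER'
    obtain ⟨e4, e5⟩ := hE6 (φ x (p (J x + 1))) (R x) (R y) _ _ hR
      (by rw [e2]; exact hR') (CNT_Hd_append f _ _ _ hE1.2)
      (by rw [e2]; exact CNT_Hd_append f _ _ _ hE1'.2) e3
    obtain ⟨e6, e7, e8⟩ := hDET X f p hp (J x) (p (J x + 1)) (hz _) (φ x) (φ y) _ _ _ _ e2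
      hE1.1 hE1'.1 e5
    have e9 : φ x = φ y := by
      funext i
      rcases Nat.lt_or_ge (J x) i with hi | hi
      · rw [hout i hi, hout' i hi, ← h0, ← h0']
        exact e8 0 (Nat.zero_le _)
      · exact e8 i hi
    rw [← e9] at e6 hER'
    have e10 : W x = W y := hΨ2 (W x) (W y) hER hER' e6
    have e11 : x.1.1 = y.1.1 := by rw [← h0, ← h0', e9]
    have e12 : x.1.2 = y.1.2 := by rw [hπ, hπ', e10, e4, e7]
    have e13 : x.2 = y.2 := by rw [← hlen, ← hlen', e10, e4]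
    exact Prod.ext (Prod.ext e11 e12) e13

theorem P_CNT : S_WDS → S_EXL → S_DET → S_LOC → S_WAIT → S_MEM → S_CNT := by
  intro hWDS hEXL hDET hLOC hWAIT hMEM X _ f S hS p hp k h C hk
  classical
  obtain ⟨A, hA⟩ : ∃ A : Finset (X × List ℕ), A = (S ×ˢ wds h C).filter
      (fun x => Hd f x.1 x.2 ∧ run f (sch p k 0) (fun _ => x.1) x.2 = none) := ⟨_, rfl⟩
  have h1 : num S h C (fun u π => Hd f u π) ≤
      num S h C (fun u π => ∃ φ, Fi f p k 0 u π φ) + A.card := by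
    unfold num
    refine le_trans (card_le_card ?_) (card_union_le _ _)
    intro x hx
    rw [mem_filter] at hx
    rw [mem_union, mem_filter, hA, mem_filter]
    cases hr : run f (sch p k 0) (fun _ => x.1) x.2 with
    | none => exact Or.inr ⟨hx.1, hx.2, rfl⟩
    | some φ => exact Or.inl ⟨hx.1, φ, hx.2, hr⟩
  have h2 : A.card * h ≤ (k - 1) * (S.card * (wds h C).card) := by
    refine CNT_inj hWDS hEXL hDET hLOC hWAIT hMEM X f S hS p hp k h C hk A fun x hx => ?_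
    rw [hA, mem_filter, mem_product] at hx
    exact ⟨hx.1.1, hx.1.2, hx.2.1, hx.2.2⟩
  calc h * num S h C (fun u π => Hd f u π)
      ≤ h * (num S h C (fun u π => ∃ φ, Fi f p k 0 u π φ) + A.card) := Nat.mul_le_mul_left _ h1
    _ = h * num S h C (fun u π => ∃ φ, Fi f p k 0 u π φ) + A.card * h := by ring
    _ ≤ _ := Nat.add_le_add_left h2 _

end Pool.Agent.Lib.MP_233400_co.AT
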