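import Pool.Agent.Lib.MP_233400_co.AT.Stm

set_option autoImplicit false

/-!
# AT DET: the word and the image of the root determine the map
-/

namespace Pool.Agent.Lib.MP_233400_co.AT

open Finset

/-- [AT DET] the word and the image of the root determine the map. -/
theorem P_DET : S_SCH → S_EXL → S_DET := by
  intro hS hE X _ f p hp J y hy φ ψ W W' σ σ' hφ h1 h2 hW
  obtain ⟨hLin, hsec, _⟩ := hS p hp J y hy
  have hK : ∀ i ∈ ({y} : Finset ℕ), φ i = ψ i := by
    intro i hi
    rw [Finset.mem_singleton] at hi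
    rw [hi, hφ]
  obtain ⟨a, b, c⟩ := (hE X f).2.2.2.1 φ ψ (sch p J y) {y} W W' σ σ' hLin hK h1 h2 hW
  refine ⟨a, b, fun i hi => ?_⟩
  by_cases hiy : i = y
  · rw [hiy, hφ]
  · obtain ⟨e, he, hei⟩ := hsec i hi hiy
    rw [← hei]
    exact c e he

end Pool.Agent.Lib.MP_233400_co.AT
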