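import Pool.Agent.Lib.MP_233400_co.AT.Stm

/-!
# Piece EXL: the relation `Ex`
-/

set_option autoImplicit false

namespace Pool.Agent.Lib.MP_233400_co.AT

section

variable {X : Type} [DecidableEq X] {f : ℕ → X → X} {φ ψ : ℕ → X}

omit [DecidableEq X] in
theorem EXL_nil {W : List ℕ} : Ex f φ [] W ↔ W = [] := by
  cases W with
  | nil => simp [Ex]
  | cons b W => simp [Ex]

omit [DecidableEq X] in
theorem EXL_cons_nil {e : ℕ × ℕ} {O : List (ℕ × ℕ)} : ¬ Ex f φ (e :: O) [] := by
  simp [Ex]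

omit [DecidableEq X] in
theorem EXL_cc {e : ℕ × ℕ} {O : List (ℕ × ℕ)} {b : ℕ} {W : List ℕ} :
    Ex f φ (e :: O) (b :: W) ↔ (f b (φ e.1) = φ e.1 ∧ Ex f φ (e :: O) W) ∨
      (f b (φ e.1) ≠ φ e.1 ∧ f b (φ e.1) = φ e.2 ∧ Ex f φ O W) := by
  rw [Ex]

omit [DecidableEq X] in
theorem EXL_append (O' : List (ℕ × ℕ)) (W : List ℕ) : ∀ O : List (ℕ × ℕ), Ex f φ (O ++ O') W ↔
    ∃ W₁ W₂, W = W₁ ++ W₂ ∧ Ex f φ O W₁ ∧ Ex f φ O' W₂ := by
  induction W with
  | nil =>
    intro O
    cases O with
    | nil =>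
      simp only [List.nil_append, EXL_nil]
      constructor
      · intro h
        exact ⟨[], [], rfl, rfl, h⟩
      · rintro ⟨W₁, W₂, h, rfl, h2⟩
        rw [h]
        exact h2
    | cons e O =>
      constructor
      · intro h
        exact absurd h EXL_cons_nil
      · rintro ⟨W₁, W₂, h, h1, h2⟩
        have h3 : W₁ = [] := by
          cases W₁ with
          | nil => rfl
          | cons a l => simp at h
        rw [h3] at h1
        exact absurd h1 EXL_cons_nil
  | cons b W ih =>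
    intro O
    cases O with
    | nil =>
      simp only [List.nil_append, EXL_nil]
      constructor
      · intro h
        exact ⟨[], b :: W, rfl, rfl, h⟩
      · rintro ⟨W₁, W₂, h, rfl, h2⟩
        rw [h]
        exact h2
    | cons e O =>
      have i1 := ih (e :: O)
      have i2 := ih O
      rw [List.cons_append] at i1 ⊢
      rw [EXL_cc, i1, i2]
      constructor
      · rintro (⟨h1, W₁, W₂, rfl, h2, h3⟩ | ⟨h1, h4, W₁, W₂, rfl, h2, h3⟩)
        · exact ⟨b :: W₁, W₂, rfl, EXL_cc.mpr (Or.inl ⟨h1, h2⟩), h3⟩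
        · exact ⟨b :: W₁, W₂, rfl, EXL_cc.mpr (Or.inr ⟨h1, h4, h2⟩), h3⟩
      · rintro ⟨W₁, W₂, h, h1, h2⟩
        cases W₁ with
        | nil => exact absurd h1 EXL_cons_nil
        | cons a W₁ =>
          rw [List.cons_append, List.cons.injEq] at h
          obtain ⟨rfl, rfl⟩ := h
          rcases EXL_cc.mp h1 with ⟨h3, h4⟩ | ⟨h3, h4, h5⟩
          · exact Or.inl ⟨h3, W₁, W₂, rfl, h4, h2⟩
          · exact Or.inr ⟨h3, h4, W₁, W₂, rfl, h5, h2⟩

omit [DecidableEq X] in
theorem EXL_one (e : ℕ × ℕ) (W : List ℕ) : Ex f φ [e] W ↔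
    ∃ (R : List ℕ) (a : ℕ), W = R ++ [a] ∧ (∀ b ∈ R, f b (φ e.1) = φ e.1) ∧
      f a (φ e.1) ≠ φ e.1 ∧ f a (φ e.1) = φ e.2 := by
  induction W with
  | nil =>
    constructor
    · intro h
      exact absurd h EXL_cons_nil
    · rintro ⟨R, a, h, -⟩
      simp at h
  | cons b W ih =>
    rw [EXL_cc, ih, EXL_nil]
    constructor
    · rintro (⟨h1, R, a, rfl, h2, h3⟩ | ⟨h1, h2, rfl⟩)
      · refine ⟨b :: R, a, rfl, ?_, h3⟩
        intro x hx
        rcases List.mem_cons.mp hx with rfl | hx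
        · exact h1
        · exact h2 x hx
      · exact ⟨[], b, rfl, fun x hx => absurd hx List.not_mem_nil, h1, h2⟩
    · rintro ⟨R, a, h, h2, h3, h4⟩
      cases R with
      | nil =>
        rw [List.nil_append, List.cons.injEq] at h
        obtain ⟨rfl, rfl⟩ := h
        exact Or.inr ⟨h3, h4, rfl⟩
      | cons c R =>
        rw [List.cons_append, List.cons.injEq] at h
        obtain ⟨rfl, rfl⟩ := h
        exact Or.inl ⟨h2 b List.mem_cons_self, R, a, rfl,
          fun x hx => h2 x (List.mem_cons_of_mem _ hx), h3, h4⟩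

omit [DecidableEq X] in
theorem EXL_congr (W : List ℕ) : ∀ O : List (ℕ × ℕ), (∀ e ∈ O, φ e.1 = ψ e.1 ∧ φ e.2 = ψ e.2) →
    Ex f φ O W → Ex f ψ O W := by
  induction W with
  | nil =>
    intro O _ h
    cases O with
    | nil => exact EXL_nil.mpr rfl
    | cons e O => exact absurd h EXL_cons_nil
  | cons b W ih =>
    intro O hO h
    cases O with
    | nil =>
      rw [EXL_nil] at h ⊢
      exact h
    | cons e O =>
      obtain ⟨e1, e2⟩ := hO e List.mem_cons_self
      rw [EXL_cc] at h ⊢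
      rw [e1, e2] at h
      rcases h with ⟨h1, h2⟩ | ⟨h1, h2, h3⟩
      · exact Or.inl ⟨h1, ih (e :: O) hO h2⟩
      · exact Or.inr ⟨h1, h2, ih O (fun x hx => hO x (List.mem_cons_of_mem _ hx)) h3⟩

omit [DecidableEq X] in
theorem EXL_uniq (W : List ℕ) : ∀ (O : List (ℕ × ℕ)) (K : Finset ℕ) (W' σ σ' : List ℕ), Lin O K →
    (∀ i ∈ K, φ i = ψ i) → Ex f φ O W → Ex f ψ O W' → W ++ σ = W' ++ σ' →
    W = W' ∧ σ = σ' ∧ ∀ e ∈ O, φ e.2 = ψ e.2 := by
  induction W with
  | nil =>
    intro O K W' σ σ' _ _ h h' hW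
    cases O with
    | nil =>
      have e := EXL_nil.mp h'
      subst e
      exact ⟨rfl, hW, fun e he => absurd he List.not_mem_nil⟩
    | cons e O => exact absurd h EXL_cons_nil
  | cons b W ih =>
    intro O K W' σ σ' hL hK h h' hW
    cases O with
    | nil =>
      have e := EXL_nil.mp h
      exact absurd e (List.cons_ne_nil _ _)
    | cons e O =>
      cases W' with
      | nil => exact absurd h' EXL_cons_nil
      | cons b' W' =>
        rw [List.cons_append, List.cons_append, List.cons.injEq] at hW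
        obtain ⟨rfl, hW⟩ := hW
        obtain ⟨l1, l2, l3⟩ := hL
        have e1 : φ e.1 = ψ e.1 := hK _ l1
        rw [EXL_cc] at h h'
        rw [← e1] at h'
        rcases h with ⟨h1, h2⟩ | ⟨h1, h2, h3⟩
        · rcases h' with ⟨-, h2'⟩ | ⟨h1', -, -⟩
          · obtain ⟨r1, r2, r3⟩ := ih (e :: O) K W' σ σ' ⟨l1, l2, l3⟩ hK h2 h2' hW
            exact ⟨by rw [r1], r2, r3⟩
          · exact absurd h1 h1'
        · rcases h' with ⟨h1', -⟩ | ⟨-, h2', h3'⟩
          · exact absurd h1' h1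
          · have e2 : φ e.2 = ψ e.2 := h2.symm.trans h2'
            have hK' : ∀ i ∈ insert e.2 K, φ i = ψ i := by
              intro i hi
              rcases Finset.mem_insert.mp hi with rfl | hi
              · exact e2
              · exact hK i hi
            obtain ⟨r1, r2, r3⟩ := ih O (insert e.2 K) W' σ σ' l3 hK' h3 h3' hW
            refine ⟨by rw [r1], r2, fun x hx => ?_⟩
            rcases List.mem_cons.mp hx with rfl | hx
            · exact e2
            · exact r3 x hx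

omit [DecidableEq X] in
theorem EXL_skip (e : ℕ × ℕ) (O : List (ℕ × ℕ)) (W : List ℕ) (R : List ℕ)
    (hR : ∀ b ∈ R, f b (φ e.1) = φ e.1) :
    Ex f φ (e :: O) (R ++ W) ↔ Ex f φ (e :: O) W := by
  induction R with
  | nil => rfl
  | cons b R ih =>
    rw [List.cons_append, EXL_cc, ih fun x hx => hR x (List.mem_cons_of_mem _ hx)]
    have hb := hR b List.mem_cons_self
    constructor
    · rintro (⟨-, h⟩ | ⟨h, -, -⟩)
      · exact h
      · exact absurd hb h
    · intro h
      exact Or.inl ⟨hb, h⟩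

omit [DecidableEq X] in
theorem EXL_head (u : X) (W W' : List ℕ) (hW : Hd f u W) (hW' : Hd f u W') (R : List ℕ) :
    ∀ R' : List ℕ, (∀ b ∈ R, f b u = u) → (∀ b ∈ R', f b u = u) → R ++ W = R' ++ W' →
      R = R' ∧ W = W' := by
  induction R with
  | nil =>
    intro R' _ hR' h
    cases R' with
    | nil => exact ⟨rfl, h⟩
    | cons b R' =>
      obtain ⟨c, V, rfl, hc⟩ := hW
      rw [List.nil_append, List.cons_append, List.cons.injEq] at h
      obtain ⟨rfl, -⟩ := h
      exact absurd (hR' c List.mem_cons_self) hc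
  | cons a R ih =>
    intro R' hR hR' h
    cases R' with
    | nil =>
      obtain ⟨c, V, rfl, hc⟩ := hW'
      rw [List.nil_append, List.cons_append, List.cons.injEq] at h
      obtain ⟨rfl, -⟩ := h
      exact absurd (hR a List.mem_cons_self) hc
    | cons b R' =>
      rw [List.cons_append, List.cons_append, List.cons.injEq] at h
      obtain ⟨rfl, h⟩ := h
      obtain ⟨h1, h2⟩ := ih R' (fun x hx => hR x (List.mem_cons_of_mem _ hx))
        (fun x hx => hR' x (List.mem_cons_of_mem _ hx)) h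
      exact ⟨by rw [h1], h2⟩

end

theorem P_EXL : S_EXL := by
  intro X _ f
  refine ⟨fun φ O O' W => EXL_append O' W O, fun φ e W => EXL_one e W,
    fun φ ψ O W h1 h2 => EXL_congr W O h1 h2,
    fun φ ψ O K W W' σ σ' h1 h2 h3 h4 h5 => EXL_uniq W O K W' σ σ' h1 h2 h3 h4 h5,
    fun φ e O R W h => EXL_skip e O W R h,
    fun u R R' W W' h1 h2 h3 h4 h5 => EXL_head u W W' h3 h4 R R' h1 h2 h5⟩

end Pool.Agent.Lib.MP_233400_co.AT
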