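import Pool.Agent.Lib.MP_233400_co.AT.Stm

set_option autoImplicit false

/-! # MP_233400_co, project AT, piece HOM -/

namespace Pool.Agent.Lib.MP_233400_co.AT

open Finset

theorem HOM_lin : ∀ (O : List (ℕ × ℕ)) (K : Finset ℕ), Lin O K → ∀ e ∈ O, e.2 ∉ K := by
  intro O
  induction O with
  | nil =>
    intro K _ e he
    simp at he
  | cons a O ih =>
    intro K h e he
    obtain ⟨_, h2, h3⟩ := h
    rcases List.mem_cons.1 he with rfl | he
    · exact h2
    · intro hK
      exact ih _ h3 e he (Finset.mem_insert_of_mem hK)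

theorem HOM_run {X : Type} [DecidableEq X] (f : ℕ → X → X) :
    ∀ (π : List ℕ) (O : List (ℕ × ℕ)) (K : Finset ℕ) (φ φ' : ℕ → X), Lin O K → π.Nodup →
      run f O φ π = some φ' →
      (∀ i, (∀ e ∈ O, e.2 ≠ i) → φ' i = φ i) ∧
      ∃ col : ℕ → ℕ, (∀ e ∈ O, col e.2 ∈ π ∧ f (col e.2) (φ' e.1) = φ' e.2 ∧ φ' e.2 ≠ φ' e.1) ∧
        Set.InjOn col {i | ∃ e ∈ O, e.2 = i} := by
  intro π
  induction π with
  | nil =>
    intro O K φ φ' hL _ hr
    cases O with
    | nil =>
      simp only [run, Option.some.injEq] at hr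
      subst hr
      refine ⟨fun i _ => rfl, fun _ => 0, ?_, ?_⟩
      · intro e he
        simp at he
      · rintro i ⟨e, he, -⟩
        simp at he
    | cons e O =>
      simp [run] at hr
  | cons a π ih =>
    intro O K φ φ' hL hn hr
    cases O with
    | nil =>
      simp only [run, Option.some.injEq] at hr
      subst hr
      refine ⟨fun i _ => rfl, fun _ => 0, ?_, ?_⟩
      · intro e he
        simp at he
      · rintro i ⟨e, he, -⟩
        simp at he
    | cons e O =>
      rw [List.nodup_cons] at hn
      by_cases h : f a (φ e.1) = φ e.1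
      · have hr' : run f (e :: O) φ π = some φ' := by
          simpa [run, h] using hr
        obtain ⟨h1, col, h2, h3⟩ := ih (e :: O) K φ φ' hL hn.2 hr'
        exact ⟨h1, col, fun e' he' => ⟨List.mem_cons_of_mem _ (h2 e' he').1, (h2 e' he').2⟩, h3⟩
      · have hr' : run f O (Function.update φ e.2 (f a (φ e.1))) π = some φ' := by
          simpa [run, h] using hr
        have hL' := hL
        obtain ⟨k1, k2, k3⟩ := hL
        obtain ⟨h1, col, h2, h3⟩ := ih O (insert e.2 K) _ φ' k3 hn.2 hr'
        have hO : ∀ e' ∈ O, e'.2 ∉ insert e.2 K := HOM_lin O _ k3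
        have hne : ∀ e' ∈ O, e'.2 ≠ e.2 := by
          intro e' he' h0
          exact hO e' he' (by rw [h0]; exact Finset.mem_insert_self _ _)
        have he1 : φ' e.1 = φ e.1 := by
          rw [h1 e.1 (fun e' he' h0 => hO e' he' (by rw [h0]; exact Finset.mem_insert_of_mem k1))]
          rw [Function.update_of_ne]
          rintro h0
          exact k2 (h0 ▸ k1)
        have he2 : φ' e.2 = f a (φ e.1) := by
          rw [h1 e.2 hne, Function.update_self]
        refine ⟨?_, Function.update col e.2 a, ?_, ?_⟩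
        · intro i hi
          rw [h1 i (fun e' he' => hi e' (List.mem_cons_of_mem _ he')), Function.update_of_ne]
          rintro rfl
          exact hi e List.mem_cons_self rfl
        · intro e' he'
          rcases List.mem_cons.1 he' with rfl | he'
          · rw [Function.update_self, he1, he2]
            exact ⟨List.mem_cons_self, rfl, h⟩
          · rw [Function.update_of_ne (hne e' he')]
            exact ⟨List.mem_cons_of_mem _ (h2 e' he').1, (h2 e' he').2⟩
        · rintro i ⟨e', he', rfl⟩ j ⟨e'', he'', rfl⟩ hij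
          rcases List.mem_cons.1 he' with h4 | h4
          · rcases List.mem_cons.1 he'' with h5 | h5
            · rw [h4, h5]
            · exfalso
              rw [h4, Function.update_self, Function.update_of_ne (hne e'' h5)] at hij
              exact hn.1 (hij ▸ (h2 e'' h5).1)
          · rcases List.mem_cons.1 he'' with h5 | h5
            · exfalso
              rw [h5, Function.update_self, Function.update_of_ne (hne e' h4)] at hij
              exact hn.1 (hij ▸ (h2 e' h4).1)
            · rw [Function.update_of_ne (hne e' h4), Function.update_of_ne (hne e'' h5)] at hij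
              exact h3 ⟨e', h4, rfl⟩ ⟨e'', h5, rfl⟩ hij

theorem P_HOM : S_SCH → S_HOM := by
  intro hSCH X _ f p hp k u π φ hn hFi
  obtain ⟨-, hr⟩ := hFi
  obtain ⟨s1, s2, s3, -⟩ := hSCH p hp k 0 (Nat.zero_le k)
  obtain ⟨h1, col, h2, h3⟩ := HOM_run f π (sch p k 0) {0} _ φ s1 hn hr
  have hp0 : ∀ i : ℕ, p^[i] 0 = 0 := by
    intro i
    exact Function.iterate_fixed hp.zero i
  have hedge : ∀ v, 1 ≤ v → v ≤ k → ∃ e ∈ sch p k 0, e.2 = v ∧ e.1 = p v := by
    intro v hv hvk
    obtain ⟨e, he, rfl⟩ := s2 v hvk (by omega)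
    refine ⟨e, he, rfl, ?_⟩
    rcases (s3 e he).2.2 with h | ⟨h, -, i, hi⟩
    · exact h.2
    · rw [hp0] at hi
      omega
  refine ⟨?_, col, ?_, ?_⟩
  · refine h1 0 fun e he h0 => ?_
    exact HOM_lin _ _ s1 e he (by rw [h0]; exact Finset.mem_singleton_self 0)
  · intro v hv hvk
    obtain ⟨e, he, he2, he1⟩ := hedge v hv hvk
    have := h2 e he
    rw [he2, he1] at this
    exact this
  · refine h3.mono ?_
    rintro v ⟨hv, hvk⟩
    obtain ⟨e, he, he2, -⟩ := hedge v hv hvk
    exact ⟨e, he, he2⟩

end Pool.Agent.Lib.MP_233400_co.AT
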