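import Pool.Agent.Lib.MP_233400_co.AT.Stm
import Pool.Agent.Lib.MP_233400_co.Rooted

set_option autoImplicit false

/-!
# [AT LAB] the labels of a tree
-/

namespace Pool.Agent.Lib.MP_233400_co.AT

open Finset

theorem P_LAB : S_LAB := by
  classical
  intro W hW T k hT hk
  have : Fintype W := Fintype.ofFinite W
  have : Nonempty W := hT.connected.nonempty
  obtain ⟨r⟩ := ‹Nonempty W›
  obtain ⟨par, hpar1, hpar2⟩ := exists_parent hT r
  have hcard : Fintype.card W = k + 1 := by
    have : Fintype T.edgeSet := Fintype.ofFinite _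
    have h1 := hT.card_edgeFinset
    have h2 : T.edgeFinset.card = k := by
      rw [← hk, ← SimpleGraph.coe_edgeFinset, Set.ncard_coe_finset]
    omega
  let e : W ≃ Fin (Fintype.card W) := Fintype.equivFin W
  let key : W → ℕ := fun v => T.dist r v * Fintype.card W + (e v : ℕ)
  have hkey_inj : Function.Injective key := by
    intro a b hab
    have hab' : T.dist r a * Fintype.card W + (e a : ℕ) = T.dist r b * Fintype.card W + (e b : ℕ) :=
      hab
    have ha := (e a).isLt
    have hb := (e b).isLt
    have h1 : (e a : ℕ) = (e b : ℕ) := by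
      have h2 : (T.dist r a * Fintype.card W + (e a : ℕ)) % Fintype.card W = (e a : ℕ) := by
        rw [add_comm, Nat.add_mul_mod_self_right, Nat.mod_eq_of_lt ha]
      have h3 : (T.dist r b * Fintype.card W + (e b : ℕ)) % Fintype.card W = (e b : ℕ) := by
        rw [add_comm, Nat.add_mul_mod_self_right, Nat.mod_eq_of_lt hb]
      rw [← h2, ← h3, hab']
    exact e.injective (Fin.ext h1)
  have hkey_lt : ∀ a b : W, T.dist r a < T.dist r b → key a < key b := by
    intro a b hab
    show T.dist r a * Fintype.card W + (e a : ℕ) < T.dist r b * Fintype.card W + (e b : ℕ)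
    have ha := (e a).isLt
    have h1 : (T.dist r a + 1) * Fintype.card W ≤ T.dist r b * Fintype.card W :=
      Nat.mul_le_mul_right _ hab
    have h2 : (T.dist r a + 1) * Fintype.card W = T.dist r a * Fintype.card W + Fintype.card W := by
      ring
    omega
  let lab : W → ℕ := fun v => (Finset.univ.filter (fun u => key u < key v)).card
  have hlab_lt : ∀ a b : W, key a < key b → lab a < lab b := by
    intro a b hab
    apply Finset.card_lt_card
    rw [Finset.ssubset_iff_of_subset]
    · refine ⟨a, ?_, ?_⟩
      · rw [Finset.mem_filter]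
        exact ⟨Finset.mem_univ _, hab⟩
      · rw [Finset.mem_filter]
        exact fun h => lt_irrefl _ h.2
    · intro u hu
      rw [Finset.mem_filter] at hu ⊢
      exact ⟨hu.1, hu.2.trans hab⟩
  have hlab_inj : Function.Injective lab := by
    intro a b hab
    rcases lt_trichotomy (key a) (key b) with h | h | h
    · exact absurd hab (hlab_lt a b h).ne
    · exact hkey_inj h
    · exact absurd hab (hlab_lt b a h).ne'
  have hlab_le : ∀ v, lab v ≤ k := by
    intro v
    have h1 : (Finset.univ.filter (fun u => key u < key v)) ⊆ Finset.univ.erase v := by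
      intro u hu
      rw [Finset.mem_filter] at hu
      rw [Finset.mem_erase]
      refine ⟨?_, Finset.mem_univ _⟩
      rintro rfl
      exact lt_irrefl _ hu.2
    have h2 := Finset.card_le_card h1
    rw [Finset.card_erase_of_mem (Finset.mem_univ _), Finset.card_univ, hcard] at h2
    exact h2
  have hparlt : ∀ v, v ≠ r → lab (par v) < lab v := by
    intro v hv
    apply hlab_lt
    apply hkey_lt
    have := (hpar1 v hv).2
    omega
  let p : ℕ → ℕ := fun j => if h : ∃ v, v ≠ r ∧ lab v = j then lab (par h.choose) else 0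
  have hp : ∀ v, v ≠ r → p (lab v) = lab (par v) := by
    intro v hv
    have h : ∃ w, w ≠ r ∧ lab w = lab v := ⟨v, hv, rfl⟩
    show (if h : ∃ w, w ≠ r ∧ lab w = lab v then lab (par h.choose) else 0) = _
    rw [dif_pos h]
    have h1 := h.choose_spec
    rw [hlab_inj h1.2]
  refine ⟨p, lab, ⟨?_, ?_⟩, hlab_inj, hlab_le, ?_⟩
  · show (if h : ∃ w, w ≠ r ∧ lab w = 0 then lab (par h.choose) else 0) = 0
    rw [dif_neg]
    rintro ⟨v, hv, h0⟩
    have := hparlt v hv
    omega
  · intro j hj
    by_cases h : ∃ v, v ≠ r ∧ lab v = j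
    · obtain ⟨v, hv, rfl⟩ := h
      rw [hp v hv]
      exact hparlt v hv
    · show (if h : ∃ w, w ≠ r ∧ lab w = j then lab (par h.choose) else 0) < j
      rw [dif_neg h]
      omega
  · intro a b hab
    rcases hpar2 a b hab with ⟨h1, h2⟩ | ⟨h1, h2⟩
    · left
      have h3 := hparlt b h1
      refine ⟨by omega, ?_⟩
      rw [hp b h1, h2]
    · right
      have h3 := hparlt a h1
      refine ⟨by omega, ?_⟩
      rw [hp a h1, h2]

end Pool.Agent.Lib.MP_233400_co.AT
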