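import Pool.Agent.Lib.MP_233400_co.AT.Stm

set_option autoImplicit false

/-!
# MP_233400_co, project AT, piece LOC: change of the root for a fixed final map
-/

namespace Pool.Agent.Lib.MP_233400_co.AT

open Finset

private lemma LOC_base {X : Type} [DecidableEq X] (f : ℕ → X → X) (p : ℕ → ℕ) (hp : Par p)
    (hinv : ∀ a u, f a (f a u) = u) (φ : ℕ → X)
    (hE2 : ∀ (φ : ℕ → X) (e : ℕ × ℕ) (W : List ℕ), Ex f φ [e] W ↔
      ∃ (R : List ℕ) (a : ℕ), W = R ++ [a] ∧ (∀ b ∈ R, f b (φ e.1) = φ e.1) ∧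
        f a (φ e.1) ≠ φ e.1 ∧ f a (φ e.1) = φ e.2) (y : ℕ) (hy : y ≤ 1) :
    ∃ Ψ : List ℕ → List ℕ, (∀ W, ER f φ p 1 0 W → ER f φ p 1 y (Ψ W) ∧ (Ψ W).Perm W) ∧
      ∀ W W', ER f φ p 1 0 W → ER f φ p 1 0 W' → Ψ W = Ψ W' → W = W' := by
  refine ⟨id, ?_, fun W W' _ _ h => h⟩
  intro W hW
  refine ⟨?_, List.Perm.refl _⟩
  rcases Nat.lt_or_ge y 1 with h | h
  · have : y = 0 := by omega
    subst this
    exact hW
  · have : y = 1 := by omega
    subst this
    have hp1 : p 1 = 0 := by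
      have := hp.lt 1 le_rfl
      omega
    have s0 : sch p 1 0 = [(0, 1)] := by
      simp [sch, hp1]
    have s1 : sch p 1 1 = [(1, 0)] := by
      simp [sch, hp1]
    obtain ⟨h1, c, W', hc, hcf⟩ := hW
    rw [s0, hE2] at h1
    obtain ⟨R, a, hWR, hR, ha1, ha2⟩ := h1
    have hR0 : R = [] := by
      cases R with
      | nil => rfl
      | cons b R' =>
        exfalso
        rw [hc] at hWR
        have hb : c = b := by
          simpa using (List.cons.inj hWR).1
        have := hR b (by simp)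
        rw [← hb] at this
        exact hcf this
    subst hR0
    have ha3 : f a (φ 1) = φ 0 := by
      have := hinv a (φ 0)
      rw [show f a (φ 0) = φ 1 from ha2] at this
      exact this
    have ha4 : f a (φ 1) ≠ φ 1 := by
      rw [ha3]
      intro h0
      apply ha1
      change f a (φ 0) = φ 0
      rw [show f a (φ 0) = φ 1 from ha2, ← h0]
    have hWa : W = [a] := by simpa using hWR
    refine ⟨?_, a, [], ?_, ha4⟩
    · rw [s1, hE2]
      exact ⟨[], a, by simpa using hWa, by simp, ha4, ha3⟩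
    · simpa using hWa

theorem P_LOC : S_SCH → S_EXL → S_DET → S_LOC := by
  intro hS hE hD X _ f p hp hinv φ J hJ
  obtain ⟨hE1, hE2, _, _, hE5, hE6⟩ := hE X f
  induction J, hJ using Nat.le_induction with
  | base => exact fun y hy => LOC_base f p hp hinv φ hE2 y hy
  | succ J hJ ih =>
    have hz : p (J + 1) ≤ J := by
      have := hp.lt (J + 1) (by omega)
      omega
    set z := p (J + 1) with hzdef
    obtain ⟨v0, O0, hs0⟩ := (hS p hp J 0 (Nat.zero_le _)).2.2.2.1 hJ
    have hdec : ∀ W, ER f φ p (J + 1) 0 W → ∃ (W₁ R : List ℕ) (a : ℕ), W = W₁ ++ (R ++ [a]) ∧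
        ER f φ p J 0 W₁ ∧ (∀ b ∈ R, f b (φ z) = φ z) ∧ f a (φ z) ≠ φ z ∧
        f a (φ z) = φ (J + 1) := by
      intro W hW
      obtain ⟨h1, c, W', hc, hcf⟩ := hW
      rw [(hS p hp J 0 (Nat.zero_le _)).2.2.2.2.2.1, hE1] at h1
      obtain ⟨W₁, W₂, hWW, h2, h3⟩ := h1
      rw [hE2] at h3
      obtain ⟨R, a, hW2, hR, ha1, ha2⟩ := h3
      refine ⟨W₁, R, a, by rw [hWW, hW2], ⟨h2, ?_⟩, hR, ha1, ha2⟩
      cases W₁ with
      | nil =>
        rw [hs0] at h2
        exact absurd h2 (by simp [Ex])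
      | cons b W₁' =>
        refine ⟨b, W₁', rfl, ?_⟩
        rw [hc] at hWW
        have hb : c = b := by
          simpa using (List.cons.inj hWW).1
        rw [← hb]
        exact hcf
    choose! w1 r a hw using hdec
    intro y hy
    rcases Nat.lt_or_ge J y with hlt | hge
    · -- the root is the last label
      have hyJ : y = J + 1 := by omega
      subst hyJ
      obtain ⟨Ψ, hΨ1, hΨ2⟩ := ih z hz
      obtain ⟨v1, O1, hs1⟩ := (hS p hp J z hz).2.2.2.1 hJ
      have hsc : sch p (J + 1) (J + 1) = (J + 1, z) :: sch p J z := by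
        rw [sch, if_neg (by omega)]
      refine ⟨fun W => a W :: (r W ++ Ψ (w1 W)), ?_, ?_⟩
      · intro W hW
        obtain ⟨e1, e2, e3, e4, e5⟩ := hw W hW
        obtain ⟨g1, g2⟩ := hΨ1 (w1 W) e2
        have ha3 : f (a W) (φ (J + 1)) = φ z := by
          have := hinv (a W) (φ z)
          rw [e5] at this
          exact this
        have ha4 : f (a W) (φ (J + 1)) ≠ φ (J + 1) := by
          rw [ha3]
          intro h0
          apply e4
          rw [e5, ← h0]
        refine ⟨⟨?_, a W, _, rfl, ha4⟩, ?_⟩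
        · rw [hsc]
          refine Or.inr ⟨ha4, ha3, ?_⟩
          rw [hs1]
          rw [hE5 φ (z, v1) O1 (r W) (Ψ (w1 W)) e3]
          rw [← hs1]
          exact g1.1
        · have p1 : (a W :: (r W ++ Ψ (w1 W))).Perm (a W :: (w1 W ++ r W)) :=
            List.Perm.cons _ ((List.Perm.append_left _ g2).trans List.perm_append_comm)
          have p2 : (a W :: (w1 W ++ r W)).Perm ((w1 W ++ r W) ++ [a W]) :=
            (List.perm_append_singleton _ _).symm
          have p3 : (w1 W ++ r W) ++ [a W] = W := by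
            conv_rhs => rw [e1]
            rw [List.append_assoc]
          exact (p1.trans p2).trans (by rw [p3])
      · intro W W' hW hW' h
        obtain ⟨e1, e2, e3, e4, e5⟩ := hw W hW
        obtain ⟨e1', e2', e3', e4', e5'⟩ := hw W' hW'
        obtain ⟨g1, g2⟩ := List.cons.inj h
        obtain ⟨g3, g4⟩ := hE6 (φ z) (r W) (r W') (Ψ (w1 W)) (Ψ (w1 W')) e3 e3'
          (hΨ1 _ e2).1.2 (hΨ1 _ e2').1.2 g2
        have g5 := hΨ2 _ _ e2 e2' g4
        rw [e1, e1', g1, g3, g5]
    · obtain ⟨Ψ, hΨ1, hΨ2⟩ := ih y hge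
      refine ⟨fun W => Ψ (w1 W) ++ (r W ++ [a W]), ?_, ?_⟩
      · intro W hW
        obtain ⟨e1, e2, e3, e4, e5⟩ := hw W hW
        obtain ⟨g1, g2⟩ := hΨ1 (w1 W) e2
        refine ⟨⟨?_, ?_⟩, ?_⟩
        · rw [(hS p hp J y hge).2.2.2.2.2.1, hE1]
          refine ⟨_, _, rfl, g1.1, ?_⟩
          rw [hE2]
          exact ⟨_, _, rfl, e3, e4, e5⟩
        · obtain ⟨c, W', hc, hcf⟩ := g1.2
          refine ⟨c, W' ++ (r W ++ [a W]), ?_, hcf⟩
          change Ψ (w1 W) ++ (r W ++ [a W]) = c :: (W' ++ (r W ++ [a W]))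
          rw [hc]
          rfl
        · have h := List.Perm.append_right (r W ++ [a W]) g2
          exact h.trans (by rw [← e1])
      · intro W W' hW hW' h
        obtain ⟨e1, e2, e3, e4, e5⟩ := hw W hW
        obtain ⟨e1', e2', e3', e4', e5'⟩ := hw W' hW'
        obtain ⟨g1, g2, _⟩ := hD X f p hp J y hge φ φ _ _ _ _ rfl (hΨ1 _ e2).1.1
          (hΨ1 _ e2').1.1 h
        have g5 := hΨ2 _ _ e2 e2' g1
        rw [e1, e1', g5, g2]

end Pool.Agent.Lib.MP_233400_co.AT
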