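import Pool.Agent.Lib.MP_233400_co.AT.Stm

set_option autoImplicit false

/-!
# [AT MEM] all images are in `S` (helper98)
-/

namespace Pool.Agent.Lib.MP_233400_co.AT

open Finset

theorem P_MEM : S_SCH → S_MEM := by
  intro hSCH X _ f S hS
  have h1 : ∀ (W : List ℕ) (φ : ℕ → X) (O : List (ℕ × ℕ)) (K : Finset ℕ), Lin O K →
      (∀ i ∈ K, φ i ∈ S) → Ex f φ O W → ∀ e ∈ O, φ e.2 ∈ S := by
    intro W
    induction W with
    | nil =>
      intro φ O K _ _ hE e he
      cases O with
      | nil => exact absurd he List.not_mem_nil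
      | cons e' O => exact absurd hE (by simp [Ex])
    | cons b W ih =>
      intro φ O K hL hK hE e he
      cases O with
      | nil => exact absurd he List.not_mem_nil
      | cons e' O =>
        rw [Ex] at hE
        rcases hE with ⟨_, hE⟩ | ⟨_, h2, hE⟩
        · exact ih φ (e' :: O) K hL hK hE e he
        · rw [Lin] at hL
          have h3 : φ e'.2 ∈ S := by
            rw [← h2]
            exact hS.mem b _ (hK _ hL.1)
          rcases List.mem_cons.mp he with rfl | he'
          · exact h3
          · refine ih φ O (insert e'.2 K) hL.2.2 ?_ hE e he'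
            intro i hi
            rcases Finset.mem_insert.mp hi with rfl | hi'
            · exact h3
            · exact hK i hi'
  refine ⟨fun φ O K W => h1 W φ O K, ?_⟩
  intro p hp J y hy φ W hφ hE i hi
  obtain ⟨a1, a2, _⟩ := hSCH p hp J y hy
  by_cases hiy : i = y
  · rw [hiy]
    exact hφ
  · obtain ⟨e, he, he2⟩ := a2 i hi hiy
    rw [← he2]
    refine h1 W φ _ {y} a1 ?_ hE e he
    intro j hj
    rw [Finset.mem_singleton.mp hj]
    exact hφ

end Pool.Agent.Lib.MP_233400_co.AT
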