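import Pool.Agent.Lib.MP_233400_co.AT.Stm

set_option autoImplicit false

namespace Pool.Agent.Lib.MP_233400_co.AT

/-- the labels that are already embedded are not second ends of the schedule -/
theorem RUN_lin : ∀ (O : List (ℕ × ℕ)) (K : Finset ℕ), Lin O K → ∀ i ∈ K, ∀ e ∈ O, e.2 ≠ i
  | [], _, _, _, _, _, he => absurd he List.not_mem_nil
  | e' :: O, K, h, i, hi, e, he => by
    obtain ⟨-, h2, h3⟩ := h
    rcases List.mem_cons.1 he with rfl | he
    · exact fun h => h2 (h ▸ hi)
    · exact RUN_lin O (insert e'.2 K) h3 i (Finset.mem_insert_of_mem hi) e he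

/-- from the run to the relation -/
theorem RUN_one {X : Type} [DecidableEq X] (f : ℕ → X → X) : ∀ (π : List ℕ) (O : List (ℕ × ℕ))
    (K : Finset ℕ) (φ φ' : ℕ → X), Lin O K → run f O φ π = some φ' →
    (∀ i, (∀ e ∈ O, e.2 ≠ i) → φ' i = φ i) ∧ ∃ W σ, π = W ++ σ ∧ Ex f φ' O W := by
  intro π
  induction π with
  | nil =>
    intro O K φ φ' _ h
    cases O with
    | nil =>
      have h1 : some φ = some φ' := h
      obtain rfl := Option.some.inj h1
      exact ⟨fun _ _ => rfl, [], [], rfl, trivial⟩
    | cons e O =>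
      have h1 : (none : Option (ℕ → X)) = some φ' := h
      exact absurd h1 (by simp)
  | cons a π ih =>
    intro O K φ φ' hL h
    cases O with
    | nil =>
      have h1 : some φ = some φ' := h
      obtain rfl := Option.some.inj h1
      exact ⟨fun _ _ => rfl, [], a :: π, rfl, trivial⟩
    | cons e O =>
      have h1 : (if f a (φ e.1) = φ e.1 then run f (e :: O) φ π
        else run f O (Function.update φ e.2 (f a (φ e.1))) π) = some φ' := h
      have hLin := RUN_lin _ _ hL
      obtain ⟨hK1, hK2, hL'⟩ := hL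
      by_cases hs : f a (φ e.1) = φ e.1
      · rw [if_pos hs] at h1
        obtain ⟨h2, W, σ, h3, h4⟩ := ih (e :: O) K φ φ' ⟨hK1, hK2, hL'⟩ h1
        have h5 : φ' e.1 = φ e.1 := h2 _ (hLin e.1 hK1)
        refine ⟨h2, a :: W, σ, by rw [h3, List.cons_append], Or.inl ⟨?_, h4⟩⟩
        rw [h5]
        exact hs
      · rw [if_neg hs] at h1
        obtain ⟨h2, W, σ, h3, h4⟩ := ih O (insert e.2 K) _ φ' hL' h1
        have hLin' := RUN_lin _ _ hL'
        have hne : e.1 ≠ e.2 := fun h => hK2 (h ▸ hK1)
        have h5 : φ' e.1 = φ e.1 := by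
          rw [h2 _ (hLin' e.1 (Finset.mem_insert_of_mem hK1)), Function.update_of_ne hne]
        have h6 : φ' e.2 = f a (φ e.1) := by
          rw [h2 _ (hLin' e.2 (Finset.mem_insert_self _ _)), Function.update_self]
        refine ⟨fun i hi => ?_, a :: W, σ, by rw [h3, List.cons_append], Or.inr ⟨?_, ?_, h4⟩⟩
        · rw [h2 i fun e' he' => hi e' (List.mem_cons_of_mem _ he'),
            Function.update_of_ne (hi e List.mem_cons_self).symm]
        · rw [h5]
          exact hs
        · rw [h5, h6]

/-- from the relation to the run -/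
theorem RUN_two {X : Type} [DecidableEq X] (f : ℕ → X → X) (ψ : ℕ → X) (σ : List ℕ) :
    ∀ (W : List ℕ) (O : List (ℕ × ℕ)) (K : Finset ℕ) (φ : ℕ → X), Lin O K →
    (∀ i ∈ K, ψ i = φ i) → Ex f ψ O W →
    ∃ φ', run f O φ (W ++ σ) = some φ' ∧ (∀ i, (∀ e ∈ O, e.2 ≠ i) → φ' i = φ i) ∧
      ∀ e ∈ O, φ' e.2 = ψ e.2 := by
  intro W
  induction W with
  | nil =>
    intro O K φ _ _ hE
    cases O with
    | nil =>
      refine ⟨φ, ?_, fun _ _ => rfl, fun e he => absurd he List.not_mem_nil⟩
      cases σ <;> rfl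
    | cons e O =>
      have h1 : False := hE
      exact h1.elim
  | cons b W ih =>
    intro O K φ hL hK hE
    cases O with
    | nil =>
      have h1 : False := hE
      exact h1.elim
    | cons e O =>
      have hrun : run f (e :: O) φ ((b :: W) ++ σ) = if f b (φ e.1) = φ e.1 then
        run f (e :: O) φ (W ++ σ) else run f O (Function.update φ e.2 (f b (φ e.1))) (W ++ σ) :=
        rfl
      obtain ⟨hK1, hK2, hL'⟩ := hL
      have h0 : ψ e.1 = φ e.1 := hK _ hK1
      rcases hE with ⟨hs, hE⟩ | ⟨hs, ha, hE⟩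
      · obtain ⟨φ', h1, h2, h3⟩ := ih (e :: O) K φ ⟨hK1, hK2, hL'⟩ hK hE
        refine ⟨φ', ?_, h2, h3⟩
        rw [h0] at hs
        rw [hrun, if_pos hs, h1]
      · rw [h0] at hs ha
        obtain ⟨φ', h1, h2, h3⟩ := ih O (insert e.2 K) (Function.update φ e.2 (f b (φ e.1))) hL'
          (fun i hi => by
            rcases Finset.mem_insert.1 hi with rfl | hi
            · rw [Function.update_self, ha]
            · have hne : i ≠ e.2 := fun h => hK2 (h ▸ hi)
              rw [Function.update_of_ne hne, hK i hi]) hE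
        have hLin' := RUN_lin _ _ hL'
        refine ⟨φ', ?_, fun i hi => ?_, fun e' he' => ?_⟩
        · rw [hrun, if_neg hs, h1]
        · rw [h2 i fun e' he' => hi e' (List.mem_cons_of_mem _ he'),
            Function.update_of_ne (hi e List.mem_cons_self).symm]
        · rcases List.mem_cons.1 he' with rfl | he'
          · rw [h2 _ (hLin' _ (Finset.mem_insert_self _ _)), Function.update_self, ha]
          · exact h3 e' he'

/-- [AT RUN] the function `run` and the relation `Ex` -/
theorem P_RUN : S_RUN := by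
  intro X _ f O K φ hL
  exact ⟨fun π φ' h => RUN_one f π O K φ φ' hL h,
    fun ψ W σ hK hE => RUN_two f ψ σ W O K φ hL hK hE⟩

end Pool.Agent.Lib.MP_233400_co.AT
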