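import Pool.Agent.Lib.MP_233400_co.AT.Stm

set_option autoImplicit false

namespace Pool.Agent.Lib.MP_233400_co.AT

open Finset

theorem SCH_lin_append (O : List (ℕ × ℕ)) : ∀ (K : Finset ℕ) (e : ℕ × ℕ), Lin O K →
    (e.1 ∈ K ∨ ∃ d ∈ O, d.2 = e.1) → e.2 ∉ K → (∀ d ∈ O, d.2 ≠ e.2) → Lin (O ++ [e]) K := by
  induction O with
  | nil =>
    intro K e _ h1 h2 _
    rcases h1 with h1 | ⟨d, hd, _⟩
    · exact ⟨h1, h2, trivial⟩
    · simp at hd
  | cons a O ih =>
    intro K e hL h1 h2 h3
    obtain ⟨ha1, ha2, hL'⟩ := hL
    refine ⟨ha1, ha2, ih (insert a.2 K) e hL' ?_ ?_ ?_⟩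
    · rcases h1 with h1 | ⟨d, hd, hde⟩
      · exact Or.inl (Finset.mem_insert_of_mem h1)
      · rcases List.mem_cons.1 hd with rfl | hd
        · exact Or.inl (by rw [← hde]; exact Finset.mem_insert_self _ _)
        · exact Or.inr ⟨d, hd, hde⟩
    · intro h
      rcases Finset.mem_insert.1 h with h | h
      · exact h3 a (List.mem_cons_self) h.symm
      · exact h2 h
    · intro d hd
      exact h3 d (List.mem_cons_of_mem _ hd)

theorem SCH_lin_insert (O : List (ℕ × ℕ)) : ∀ (K : Finset ℕ) (a : ℕ), Lin O K →
    (∀ d ∈ O, d.2 ≠ a) → Lin O (insert a K) := by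
  induction O with
  | nil =>
    intro K a _ _
    trivial
  | cons e O ih =>
    intro K a hL h
    obtain ⟨h1, h2, hL'⟩ := hL
    refine ⟨Finset.mem_insert_of_mem h1, ?_, ?_⟩
    · intro hm
      rcases Finset.mem_insert.1 hm with hm | hm
      · exact h e (List.mem_cons_self) hm
      · exact h2 hm
    · rw [Finset.insert_comm]
      exact ih (insert e.2 K) a hL' (fun d hd => h d (List.mem_cons_of_mem _ hd))

theorem SCH_of_le (p : ℕ → ℕ) (J y : ℕ) (h : y ≤ J) :
    sch p (J + 1) y = sch p J y ++ [(p (J + 1), J + 1)] := by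
  simp [sch, h]

theorem SCH_top (p : ℕ → ℕ) (J : ℕ) :
    sch p (J + 1) (J + 1) = (J + 1, p (J + 1)) :: sch p J (p (J + 1)) := by
  simp [sch]

theorem P_SCH : S_SCH := by
  intro p hp J
  induction J with
  | zero =>
    intro y hy
    obtain rfl : y = 0 := by omega
    refine ⟨trivial, ?_, ?_, ?_, rfl, SCH_of_le p 0 0 le_rfl, ?_⟩
    · intro i hi hi'
      omega
    · intro e he
      simp [sch] at he
    · intro h
      omega
    · intro h
      omega
  | succ J ih =>
    intro y hy
    by_cases hyJ : y ≤ J
    · obtain ⟨h1, h2, h3, h4, h5, h6, h7⟩ := ih y hyJ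
      have hlt : p (J + 1) < J + 1 := hp.lt (J + 1) (by omega)
      refine ⟨?_, ?_, ?_, ?_, ?_, SCH_of_le p (J + 1) y (by omega), ?_⟩
      · rw [h6]
        refine SCH_lin_append _ _ _ h1 ?_ ?_ ?_
        · by_cases hpy : p (J + 1) = y
          · exact Or.inl (by simp [hpy])
          · exact Or.inr (h2 (p (J + 1)) (by omega) hpy)
        · simp only [Finset.mem_singleton]
          omega
        · intro d hd
          have := (h3 d hd).2.1
          simp only
          omega
      · intro i hi hiy
        rw [h6]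
        by_cases hiJ : i ≤ J
        · obtain ⟨e, he, hei⟩ := h2 i hiJ hiy
          exact ⟨e, List.mem_append_left _ he, hei⟩
        · exact ⟨(p (J + 1), J + 1), List.mem_append_right _ (by simp), by simp only; omega⟩
      · intro e he
        rw [h6] at he
        rcases List.mem_append.1 he with he | he
        · obtain ⟨a, b, c⟩ := h3 e he
          exact ⟨by omega, by omega, c⟩
        · rw [List.mem_singleton.1 he]
          exact ⟨by simp only; omega, le_rfl, Or.inl ⟨by simp, rfl⟩⟩
      · intro _
        rw [h6]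
        by_cases hJ : 1 ≤ J
        · obtain ⟨v, O, hv⟩ := h4 hJ
          exact ⟨v, O ++ [(p (J + 1), J + 1)], by rw [hv]; rfl⟩
        · obtain rfl : J = 0 := by omega
          obtain rfl : y = 0 := by omega
          refine ⟨1, [], ?_⟩
          have h0 : p 1 = 0 := by
            have := hp.lt 1 le_rfl
            omega
          simp [sch, h0]
      · rw [h6, List.length_append, h5]
        rfl
      · intro hy1
        obtain ⟨O, hO⟩ := h7 hy1
        exact ⟨O ++ [(p (J + 1), J + 1)], by rw [h6, hO]; rfl⟩
    · obtain rfl : y = J + 1 := by omega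
      have hlt : p (J + 1) < J + 1 := hp.lt (J + 1) (by omega)
      obtain ⟨h1, h2, h3, h4, h5, h6, h7⟩ := ih (p (J + 1)) (by omega)
      refine ⟨?_, ?_, ?_, ?_, ?_, SCH_of_le p (J + 1) (J + 1) le_rfl, ?_⟩
      · rw [SCH_top]
        refine ⟨by simp, ?_, ?_⟩
        · simp only [Finset.mem_singleton]
          omega
        · have hs : insert (p (J + 1)) ({J + 1} : Finset ℕ) = insert (J + 1) {p (J + 1)} := by
            ext x
            simp only [Finset.mem_insert, Finset.mem_singleton]
            tauto
          show Lin (sch p J (p (J + 1))) (insert (p (J + 1)) {J + 1})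
          rw [hs]
          refine SCH_lin_insert _ _ _ h1 ?_
          intro d hd
          have := (h3 d hd).2.1
          omega
      · intro i hi hiy
        rw [SCH_top]
        by_cases hip : i = p (J + 1)
        · exact ⟨(J + 1, p (J + 1)), List.mem_cons_self, hip.symm⟩
        · obtain ⟨e, he, hei⟩ := h2 i (by omega) hip
          exact ⟨e, List.mem_cons_of_mem _ he, hei⟩
      · intro e he
        rw [SCH_top] at he
        rcases List.mem_cons.1 he with he | he
        · rw [he]
          exact ⟨le_rfl, by simp only; omega, Or.inr ⟨by simp, rfl, 0, rfl⟩⟩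
        · obtain ⟨a, b, c⟩ := h3 e he
          refine ⟨by omega, by omega, ?_⟩
          rcases c with c | ⟨c1, c2, i, hi⟩
          · exact Or.inl c
          · exact Or.inr ⟨c1, c2, i + 1, by rw [Function.iterate_succ_apply]; exact hi⟩
      · intro _
        exact ⟨_, _, SCH_top p J⟩
      · rw [SCH_top, List.length_cons, h5]
      · intro _
        exact ⟨_, SCH_top p J⟩

end Pool.Agent.Lib.MP_233400_co.AT
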