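import Pool.Agent.Lib.MP_233400_co.AT.Stm

set_option autoImplicit false

/-!
# [AT SYG] the system of a properly coloured graph
-/

namespace Pool.Agent.Lib.MP_233400_co.AT

open Finset

theorem SYG_gen (V : Type) [DecidableEq V] (H : SimpleGraph V) (c : Sym2 V → ℕ) (S : Finset V)
    (hc : ProperColouring H c) : ∃ (f : ℕ → V → V) (C : Finset ℕ), Sy S f ∧
    (∀ a u, f a u ≠ u → u ∈ S ∧ H.Adj u (f a u) ∧ c s(u, f a u) = a ∧ a ∈ C) ∧
    ∀ u ∈ S, (act f u C).card = (nb H S u).card := by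
  let R : ℕ → V → V → Prop := fun a u v => u ∈ S ∧ v ∈ S ∧ H.Adj u v ∧ c s(u, v) = a
  have huniq : ∀ a u v w, R a u v → R a u w → v = w := by
    intro a u v w h1 h2
    by_contra hne
    exact hc u v w h1.2.2.1 h2.2.2.1 hne (h1.2.2.2.trans h2.2.2.2.symm)
  have hsymm : ∀ a u v, R a u v → R a v u := by
    intro a u v h
    refine ⟨h.2.1, h.1, h.2.2.1.symm, ?_⟩
    rw [Sym2.eq_swap]
    exact h.2.2.2
  have hex : ∃ f : ℕ → V → V, (∀ a u v, R a u v → f a u = v) ∧
      (∀ a u, (¬ ∃ v, R a u v) → f a u = u) := by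
    classical
    refine ⟨fun a u => if h : ∃ v, R a u v then h.choose else u, ?_, ?_⟩
    · intro a u v h
      have hex : ∃ v, R a u v := ⟨v, h⟩
      have h1 : (if h : ∃ v, R a u v then h.choose else u) = hex.choose := dif_pos hex
      show (if h : ∃ v, R a u v then h.choose else u) = v
      rw [h1]
      exact huniq a u _ _ hex.choose_spec h
    · intro a u h
      exact dif_neg h
  obtain ⟨f, hf1, hf2⟩ := hex
  have hf3 : ∀ a u, f a u ≠ u → R a u (f a u) := by
    intro a u h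
    by_cases hex : ∃ v, R a u v
    · obtain ⟨v, hv⟩ := hex
      rw [hf1 a u v hv]
      exact hv
    · exact absurd (hf2 a u hex) h
  have hf4 : ∀ a u v, R a u v → f a u ≠ u := by
    intro a u v h
    rw [hf1 a u v h]
    exact h.2.2.1.ne'
  refine ⟨f, (S ×ˢ S).image (fun p => c s(p.1, p.2)), ⟨?_, ?_⟩, ?_, ?_⟩
  · intro a u hu
    by_cases h : f a u = u
    · rw [h]; exact hu
    · exact (hf3 a u h).2.1
  · intro a u
    by_cases h : f a u = u
    · rw [h, h]
    · exact hf1 a (f a u) u (hsymm a u _ (hf3 a u h))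
  · intro a u h
    have hR := hf3 a u h
    refine ⟨hR.1, hR.2.2.1, hR.2.2.2, ?_⟩
    exact Finset.mem_image.2 ⟨(u, f a u), Finset.mem_product.2 ⟨hR.1, hR.2.1⟩, hR.2.2.2⟩
  · intro u hu
    refine Finset.card_bij (fun a _ => f a u) ?_ ?_ ?_
    · intro a ha
      have h : f a u ≠ u := (Finset.mem_filter.1 ha).2
      have hR := hf3 a u h
      exact mem_nb.2 ⟨hR.2.1, hR.2.2.1⟩
    · intro a ha b hb he
      have h : f a u ≠ u := (Finset.mem_filter.1 ha).2
      have h2 : f b u ≠ u := (Finset.mem_filter.1 hb).2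
      have h1 := (hf3 a u h).2.2.2
      have h3 := (hf3 b u h2).2.2.2
      have he' : f a u = f b u := he
      rw [← he', h1] at h3
      exact h3
    · intro v hv
      rw [mem_nb] at hv
      have hR : R (c s(u, v)) u v := ⟨hu, hv.1, hv.2, rfl⟩
      refine ⟨c s(u, v), ?_, hf1 _ _ _ hR⟩
      refine Finset.mem_filter.2 ⟨?_, hf4 _ _ _ hR⟩
      exact Finset.mem_image.2 ⟨(u, v), Finset.mem_product.2 ⟨hu, hv.1⟩, rfl⟩

theorem P_SYG : S_SYG := by
  refine ⟨fun V _ H c S hc => SYG_gen V H c S hc, ?_⟩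
  intro n H c S hHQ hc
  obtain ⟨f, C, hS, h1, h2⟩ := SYG_gen (Fin n → Bool) H c S hc
  refine ⟨f, C, ⟨hS, ?_, ?_⟩, h1, h2⟩
  · intro a u h
    have hQ : (Q n).Adj u (f a u) := hHQ (h1 a u h).2.1
    obtain ⟨i, hi, hi'⟩ := hQ
    unfold hammingDist
    rw [Finset.card_eq_one]
    refine ⟨i, ?_⟩
    ext j
    rw [Finset.mem_filter, Finset.mem_singleton]
    constructor
    · rintro ⟨-, hj⟩
      exact hi' j hj
    · rintro rfl
      exact ⟨Finset.mem_univ _, hi⟩
  · intro a b u h he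
    have h3 := (h1 a u h).2.2.1
    have h4 : f b u ≠ u := by rw [← he]; exact h
    have h5 := (h1 b u h4).2.2.1
    rw [← he, h3] at h5
    exact h5

end Pool.Agent.Lib.MP_233400_co.AT
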