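import Pool.Agent.Lib.MP_233400_co.AT.Stm

set_option autoImplicit false

/-!
# MP_233400_co, project AT, piece THF (helper9): Theorem A for graphs
-/

namespace Pool.Agent.Lib.MP_233400_co.AT

open Finset

/-- Theorem A: a properly coloured graph of average degree more than `k - 1` has a rainbow
homomorphic image of every tree with `k` edges. -/
theorem P_THF : S_SYG → S_LAB → S_THA → S_HOM → S_THF := by
  intro hSYG hLAB hTHA hHOM V W _ _ H c T k hc hT hk h1 hlt
  classical
  have := Fintype.ofFinite V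
  obtain ⟨f, C, hS, hf, hcard⟩ := hSYG.1 V H c Finset.univ hc
  obtain ⟨p, lab, hp, hinj, hle, hadj⟩ := hLAB W T k hT hk
  have hsum : (k - 1) * (Finset.univ : Finset V).card <
      ∑ u ∈ (Finset.univ : Finset V), (act f u C).card := by
    rw [Finset.sum_congr rfl (fun u hu => hcard u hu), sum_nb_univ, Finset.card_univ,
      ← Nat.card_eq_fintype_card]
    exact hlt
  obtain ⟨u, _, π, φ, hnd, hFi⟩ := hTHA V f univ hS p hp k C h1 hsum
  obtain ⟨h0, col, hcol, hci⟩ := hHOM V f p hp k u π φ hnd hFi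
  -- an edge directed away from the label 0
  have key : ∀ a b, 1 ≤ lab b → p (lab b) = lab a →
      H.Adj (φ (lab a)) (φ (lab b)) ∧ c s(φ (lab a), φ (lab b)) = col (lab b) := by
    intro a b hb hpb
    obtain ⟨-, h2, h3⟩ := hcol (lab b) hb (hle b)
    rw [hpb] at h2 h3
    have h4 : f (col (lab b)) (φ (lab a)) ≠ φ (lab a) := by rw [h2]; exact h3
    obtain ⟨-, h5, h6, -⟩ := hf _ _ h4
    rw [h2] at h5 h6
    exact ⟨h5, h6⟩
  refine ⟨fun a => φ (lab a), ?_, ?_⟩
  · intro a b hab
    rcases hadj a b hab with h | h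
    · exact (key a b h.1 h.2).1
    · exact (key b a h.1 h.2).1.symm
  · have hedge : ∀ e ∈ T.edgeSet, ∃ a b, e = s(a, b) ∧ 1 ≤ lab b ∧ p (lab b) = lab a := by
      intro e he
      induction e using Sym2.ind with
      | _ a b =>
        have hab : T.Adj a b := he
        rcases hadj a b hab with h | h
        · exact ⟨a, b, rfl, h⟩
        · exact ⟨b, a, Sym2.eq_swap, h⟩
    intro e he e' he' hee
    obtain ⟨a, b, rfl, hb, hpb⟩ := hedge e he
    obtain ⟨a', b', rfl, hb', hpb'⟩ := hedge e' he'
    simp only [Sym2.map_mk] at hee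
    have h2 : col (lab b) = col (lab b') := by
      rw [← (key a b hb hpb).2, ← (key a' b' hb' hpb').2]
      exact hee
    have h3 : lab b = lab b' := hci ⟨hb, hle b⟩ ⟨hb', hle b'⟩ h2
    have h4 : b = b' := hinj h3
    have h5 : a = a' := hinj (by rw [← hpb, ← hpb', h3])
    rw [h4, h5]

end Pool.Agent.Lib.MP_233400_co.AT
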