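import Pool.Agent.Lib.MP_233400_co.AT.Stm

set_option autoImplicit false

namespace Pool.Agent.Lib.MP_233400_co.AT

/-- when the whole tree is embedded the run ends -/
theorem WAIT_end (hS : S_SCH) (hR : S_RUN) {X : Type} [DecidableEq X] (f : ℕ → X → X) (p : ℕ → ℕ)
    (hp : Par p) (k : ℕ) (u : X) (φ : ℕ → X) (W σ : List ℕ) (h0 : φ 0 = u)
    (hex : Ex f φ (sch p k 0) W) (hn : run f (sch p k 0) (fun _ => u) (W ++ σ) = none) : False := by
  obtain ⟨φ', h1, -⟩ := (hR X f (sch p k 0) {0} (fun _ => u) (hS p hp k 0 (Nat.zero_le k)).1).2 φ W σ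
    (fun i hi => by rw [Finset.mem_singleton] at hi; rw [hi, h0]) hex
  rw [hn] at h1
  cases h1

/-- **WAIT.** -/
theorem P_WAIT (hS : S_SCH) (hE : S_EXL) (hR : S_RUN) : S_WAIT := by
  intro X _ f p hp k u π hk hHd hn t ht
  induction t, ht using Nat.le_induction with
  | base =>
    intro _
    obtain ⟨c, π', rfl, hc⟩ := hHd
    have hp1 : p 1 = 0 := by
      have := hp.lt 1 le_rfl
      omega
    have hsch : sch p 1 0 = [(0, 1)] := by
      simp [sch, hp1]
    have e0 : Function.update (fun _ : ℕ => u) 1 (f c u) 0 = u := by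
      rw [Function.update_of_ne (by norm_num)]
    have e1 : Function.update (fun _ : ℕ => u) 1 (f c u) 1 = f c u := Function.update_self _ _ _
    have hex : Ex f (Function.update (fun _ : ℕ => u) 1 (f c u)) (sch p 1 0) [c] := by
      rw [hsch]
      refine Or.inr ⟨?_, ?_, trivial⟩
      · show f c (Function.update (fun _ : ℕ => u) 1 (f c u) 0) ≠ _
        rw [e0]
        exact hc
      · show f c (Function.update (fun _ : ℕ => u) 1 (f c u) 0) =
          Function.update (fun _ : ℕ => u) 1 (f c u) 1
        rw [e0, e1]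
    refine ⟨1, Function.update (fun _ : ℕ => u) 1 (f c u), [c], [], π', le_rfl, ?_, rfl, rfl, e0,
      ?_, ⟨hex, c, [], rfl, ?_⟩, ?_⟩
    · by_contra hlt
      have hk1 : k = 1 := by omega
      subst hk1
      exact WAIT_end hS hR f p hp 1 u _ [c] π' e0 hex hn
    · intro i hi
      rw [Function.update_of_ne (by omega)]
    · show f c (Function.update (fun _ : ℕ => u) 1 (f c u) 0) ≠ _
      rw [e0]
      exact hc
    · intro b hb
      cases hb
  | succ t ht ih =>
    intro hlen
    obtain ⟨J, φ, W, R, σ, hJ1, hJk, hπ, hl, h0, hi, ⟨hex, hhd⟩, hskip⟩ := ih (by omega)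
    have hσ : σ ≠ [] := by
      rintro rfl
      rw [hπ] at hlen
      simp only [List.length_append, List.length_nil] at hlen
      omega
    obtain ⟨b, σ', rfl⟩ := List.exists_cons_of_ne_nil hσ
    by_cases hb : f b (φ (p (J + 1))) = φ (p (J + 1))
    · refine ⟨J, φ, W, R ++ [b], σ', hJ1, hJk, ?_, ?_, h0, hi, ⟨hex, hhd⟩, ?_⟩
      · rw [hπ]
        simp
      · rw [List.length_append, List.length_singleton]
        omega
      · intro b' hb'
        rw [List.mem_append, List.mem_singleton] at hb'
        rcases hb' with hb' | rfl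
        · exact hskip b' hb'
        · exact hb
    · have hz : p (J + 1) < J + 1 := hp.lt (J + 1) (by omega)
      have hne : ∀ i, i ≤ J → Function.update φ (J + 1) (f b (φ (p (J + 1)))) i = φ i := fun i hi =>
        Function.update_of_ne (by omega) _ _
      have hself : Function.update φ (J + 1) (f b (φ (p (J + 1)))) (J + 1) =
          f b (φ (p (J + 1))) := Function.update_self _ _ _
      obtain ⟨hE1, hE2, hE3, -⟩ := hE X f
      have hSJ := hS p hp J 0 (Nat.zero_le J)
      have hex' : Ex f (Function.update φ (J + 1) (f b (φ (p (J + 1))))) (sch p (J + 1) 0)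
          (W ++ (R ++ [b])) := by
        rw [hSJ.2.2.2.2.2.1, hE1]
        refine ⟨W, R ++ [b], rfl, ?_, ?_⟩
        · refine hE3 φ _ _ _ (fun e he => ?_) hex
          have h3 := hSJ.2.2.1 e he
          exact ⟨(hne _ h3.1).symm, (hne _ h3.2.1).symm⟩
        · rw [hE2]
          refine ⟨R, b, rfl, ?_, ?_, ?_⟩
          · intro b' hb'
            show f b' (Function.update φ (J + 1) (f b (φ (p (J + 1)))) (p (J + 1))) = _
            rw [hne _ (by omega)]
            exact hskip b' hb'
          · show f b (Function.update φ (J + 1) (f b (φ (p (J + 1)))) (p (J + 1))) ≠ _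
            rw [hne _ (by omega)]
            exact hb
          · show f b (Function.update φ (J + 1) (f b (φ (p (J + 1)))) (p (J + 1))) =
              Function.update φ (J + 1) (f b (φ (p (J + 1)))) (J + 1)
            rw [hne _ (by omega), hself]
      have h0' : Function.update φ (J + 1) (f b (φ (p (J + 1)))) 0 = u := by
        rw [hne 0 (by omega), h0]
      have hπ' : π = (W ++ (R ++ [b])) ++ σ' := by
        rw [hπ]
        simp
      refine ⟨J + 1, Function.update φ (J + 1) (f b (φ (p (J + 1)))), W ++ (R ++ [b]), [], σ',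
        by omega, ?_, ?_, ?_, h0', ?_, ⟨hex', ?_⟩, ?_⟩
      · by_contra hlt
        have hkJ : k = J + 1 := by omega
        rw [hkJ, hπ'] at hn
        exact WAIT_end hS hR f p hp (J + 1) u _ _ σ' h0' hex' hn
      · rw [hπ', List.nil_append]
      · simp only [List.length_append, List.length_singleton, List.length_nil]
        omega
      · intro i hi'
        rw [Function.update_of_ne (by omega)]
        exact hi i (by omega)
      · obtain ⟨c, W', rfl, hc⟩ := hhd
        refine ⟨c, W' ++ (R ++ [b]), rfl, ?_⟩
        rw [hne 0 (by omega)]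
        exact hc
      · intro b' hb'
        cases hb'

end Pool.Agent.Lib.MP_233400_co.AT
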