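import Pool.Agent.Lib.MP_233400_co.AT.P_WDS
import Pool.Agent.Lib.MP_233400_co.AT.P_SCH
import Pool.Agent.Lib.MP_233400_co.AT.P_EXL
import Pool.Agent.Lib.MP_233400_co.AT.P_DET
import Pool.Agent.Lib.MP_233400_co.AT.P_LOC
import Pool.Agent.Lib.MP_233400_co.AT.P_RUN
import Pool.Agent.Lib.MP_233400_co.AT.P_WAIT
import Pool.Agent.Lib.MP_233400_co.AT.P_MEM
import Pool.Agent.Lib.MP_233400_co.AT.P_CNT
import Pool.Agent.Lib.MP_233400_co.AT.P_HOM
import Pool.Agent.Lib.MP_233400_co.AT.P_THA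
import Pool.Agent.Lib.MP_233400_co.AT.P_SYG
import Pool.Agent.Lib.MP_233400_co.AT.P_LAB
import Pool.Agent.Lib.MP_233400_co.AT.P_THF

set_option autoImplicit false

/-!
# MP_233400_co, project AT: assembly (helper78)
-/

namespace Pool.Agent.Lib.MP_233400_co.AT

theorem a_WDS : S_WDS := P_WDS

theorem a_SCH : S_SCH := P_SCH

theorem a_EXL : S_EXL := P_EXL

theorem a_DET : S_DET := P_DET a_SCH a_EXL

theorem a_LOC : S_LOC := P_LOC a_SCH a_EXL a_DET

theorem a_RUN : S_RUN := P_RUN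

theorem a_WAIT : S_WAIT := P_WAIT a_SCH a_EXL a_RUN

theorem a_MEM : S_MEM := P_MEM a_SCH

theorem a_CNT : S_CNT := P_CNT a_WDS a_EXL a_DET a_LOC a_WAIT a_MEM

theorem a_HOM : S_HOM := P_HOM a_SCH

theorem a_THA : S_THA := P_THA a_WDS a_CNT

theorem a_SYG : S_SYG := P_SYG

theorem a_LAB : S_LAB := P_LAB

theorem a_THF : S_THF := P_THF a_SYG a_LAB a_THA a_HOM

end Pool.Agent.Lib.MP_233400_co.AT
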