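import Pool.Agent.Lib.MP_233400_co.AT.Stm

set_option autoImplicit false

/-!
# Piece [AT ANC]: distances in the tree
-/

namespace Pool.Agent.Lib.MP_233400_co.AT

private lemma ANC_app (O₁ O₂ : List (ℕ × ℕ)) (y : ℕ) :
    anc (O₁ ++ O₂) y = ((anc O₁ (anc O₂ y).1).1, (anc O₁ (anc O₂ y).1).2 + (anc O₂ y).2) := by
  induction O₁ with
  | nil => simp [anc]
  | cons e O₁ ih =>
    simp only [List.cons_append, anc, ih]
    by_cases h : (anc O₁ (anc O₂ y).1).1 = e.2
    · simp only [h, if_true]
      ext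
      · rfl
      · simp only
        omega
    · simp only [h, if_false]

private lemma ANC_snoc_ne (O : List (ℕ × ℕ)) (e : ℕ × ℕ) (y : ℕ) (h : y ≠ e.2) :
    anc (O ++ [e]) y = anc O y := by
  rw [ANC_app]
  simp [anc, h]

private lemma ANC_snoc_eq (O : List (ℕ × ℕ)) (e : ℕ × ℕ) :
    anc (O ++ [e]) e.2 = ((anc O e.1).1, (anc O e.1).2 + 1) := by
  rw [ANC_app]
  simp [anc]

private lemma ANC_none (O : List (ℕ × ℕ)) (y : ℕ) (h : ∀ e ∈ O, e.2 ≠ y) : anc O y = (y, 0) := by
  induction O with
  | nil => rfl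
  | cons e O ih =>
    have h1 := ih (fun e' he' => h e' (List.mem_cons_of_mem _ he'))
    have h2 : y ≠ e.2 := fun hc => h e List.mem_cons_self hc.symm
    simp only [anc, h1, h2, if_false]

private lemma ANC_lin (O : List (ℕ × ℕ)) : ∀ (K : Finset ℕ), Lin O K → ∀ e ∈ O, e.2 ∉ K := by
  induction O with
  | nil => intro K _ e he; simp at he
  | cons a O ih =>
    intro K hL e he
    obtain ⟨_, h2, h3⟩ := hL
    rcases List.mem_cons.1 he with rfl | he'
    · exact h2
    · intro hc
      exact ih _ h3 e he' (Finset.mem_insert_of_mem hc)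

private lemma ANC_len (O : List (ℕ × ℕ)) (y : ℕ) : (anc O y).2 ≤ O.length := by
  induction O with
  | nil => simp [anc]
  | cons e O ih =>
    simp only [anc, List.length_cons]
    split_ifs with h
    · simp only
      omega
    · omega

private lemma ANC_top (p : ℕ → ℕ) (J : ℕ) :
    sch p (J + 1) (J + 1) = (J + 1, p (J + 1)) :: sch p J (p (J + 1)) := by
  rw [sch, if_neg (by omega)]

private lemma ANC_low (p : ℕ → ℕ) (J y : ℕ) (h : y ≤ J) :
    sch p (J + 1) y = sch p J y ++ [(p (J + 1), J + 1)] := by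
  rw [sch, if_pos h]

private lemma ANC_par {p : ℕ → ℕ} (hp : Par p) (J : ℕ) : p (J + 1) ≤ J := by
  have := hp.lt (J + 1) (by omega)
  omega

/-- the tail of the schedule does not matter for small labels -/
private lemma ANC_ext (p : ℕ → ℕ) (J y : ℕ) (hy : y ≤ J) (k : ℕ) (hk : J ≤ k) :
    ∃ E : List (ℕ × ℕ), sch p k y = sch p J y ++ E ∧
      ∀ t ≤ J, ∀ O : List (ℕ × ℕ), anc (O ++ E) t = anc O t := by
  induction k, hk using Nat.le_induction with
  | base => exact ⟨[], by simp, by simp⟩
  | succ k hk ih =>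
    obtain ⟨E, hE, hE2⟩ := ih
    refine ⟨E ++ [(p (k + 1), k + 1)], ?_, ?_⟩
    · rw [ANC_low p k y (hy.trans hk), hE, List.append_assoc]
    · intro t ht O
      rw [← List.append_assoc, ANC_snoc_ne _ _ _ (by simp only; omega), hE2 t ht]

private lemma ANC_fst (hS : S_SCH) {p : ℕ → ℕ} (hp : Par p) : ∀ J : ℕ, ∀ z ≤ J, ∀ y ≤ J,
    (anc (sch p J z) y).1 = z := by
  intro J
  induction J with
  | zero =>
    intro z hz y hy
    have h1 : z = 0 := by omega
    have h2 : y = 0 := by omega
    subst h1 h2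
    simp [sch, anc]
  | succ J ih =>
    intro z hz y hy
    by_cases hzJ : z ≤ J
    · rw [ANC_low p J z hzJ]
      by_cases hyJ : y ≤ J
      · rw [ANC_snoc_ne _ _ _ (by simp only; omega)]
        exact ih z hzJ y hyJ
      · have : y = J + 1 := by omega
        subst this
        have h1 := ANC_snoc_eq (sch p J z) (p (J + 1), J + 1)
        simp only at h1
        rw [h1]
        exact ih z hzJ _ (ANC_par hp J)
    · have : z = J + 1 := by omega
      subst this
      rw [ANC_top]
      by_cases hyJ : y ≤ J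
      · have h1 := ih (p (J + 1)) (ANC_par hp J) y hyJ
        simp only [anc, h1, if_true]
      · have : y = J + 1 := by omega
        subst this
        have h1 : anc (sch p J (p (J + 1))) (J + 1) = (J + 1, 0) := by
          apply ANC_none
          intro e he
          have := ((hS p hp J (p (J + 1)) (ANC_par hp J)).2.2.1 e he).2.1
          omega
        have h2 := ANC_par hp J
        have h3 : J + 1 ≠ p (J + 1) := by omega
        simp only [anc, h1, h3, if_false]

theorem P_ANC (hS : S_SCH) : S_ANC := by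
  intro p hp k q y hq hy
  refine ⟨ANC_fst hS hp k q hq y hy, ?_, ?_, ?_, ?_⟩
  · unfold dT
    rw [ANC_none]
    intro e he hc
    have h1 := ANC_lin _ _ (hS p hp k q hq).1 e he
    apply h1
    rw [hc]
    exact Finset.mem_singleton_self q
  · unfold dT
    refine (ANC_len _ _).trans ?_
    rw [(hS p hp k q hq).2.2.2.2.1]
  · intro hyq
    obtain ⟨J, rfl⟩ : ∃ J, q = J + 1 := ⟨q - 1, by omega⟩
    have hyJ : y ≤ J := by omega
    have hz := ANC_par hp J
    obtain ⟨E, hE, hE2⟩ := ANC_ext p (J + 1) (J + 1) le_rfl k hq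
    obtain ⟨E', hE', hE2'⟩ := ANC_ext p J (p (J + 1)) hz k (by omega)
    have h1 : dT p k (p (J + 1)) y = (anc (sch p J (p (J + 1))) y).2 := by
      unfold dT
      rw [hE', hE2' y hyJ]
    have h2 := ANC_fst hS hp J (p (J + 1)) hz y hyJ
    have h3 : sch p k (J + 1) = (J + 1, p (J + 1)) :: (sch p J (p (J + 1)) ++ E) := by
      rw [hE, ANC_top, List.cons_append]
    have h4 : anc (sch p J (p (J + 1)) ++ E) y = (p (J + 1), dT p k (p (J + 1)) y) := by
      rw [hE2 y (by omega), h1]
      exact Prod.ext h2 rfl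
    refine ⟨?_, _, h3, h4⟩
    unfold dT at h4 ⊢
    rw [h3]
    simp only [anc, h4, if_true]
  · intro hqy
    obtain ⟨J, rfl⟩ : ∃ J, y = J + 1 := ⟨y - 1, by omega⟩
    have hqJ : q ≤ J := by omega
    have hz := ANC_par hp J
    obtain ⟨E, hE, hE2⟩ := ANC_ext p (J + 1) q (by omega) k hy
    obtain ⟨E', hE', hE2'⟩ := ANC_ext p J q hqJ k (by omega)
    unfold dT
    have h1 := ANC_snoc_eq (sch p J q) (p (J + 1), J + 1)
    simp only at h1
    have e1 : (anc (sch p k q) (p (J + 1))).2 = (anc (sch p J q) (p (J + 1))).2 := by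
      rw [hE', hE2' _ hz]
    rw [e1, hE, hE2 _ le_rfl, ANC_low p J q hqJ, h1]

end Pool.Agent.Lib.MP_233400_co.AT
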