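import Pool.Agent.Lib.MP_233400_co.AT.Stm

set_option autoImplicit false

/-!
# MP_233400_co, project AT, piece BAD: the images are rarely bad (helper71)
-/

namespace Pool.Agent.Lib.MP_233400_co.AT

open Finset

lemma BAD_Lin_notMem (O : List (ℕ × ℕ)) : ∀ K : Finset ℕ, Lin O K → ∀ e ∈ O, e.2 ∉ K := by
  induction O with
  | nil => intro K _ e he; simp at he
  | cons a O ih =>
    intro K hK e he
    obtain ⟨h1, h2, h3⟩ := hK
    rcases List.mem_cons.1 he with rfl | he
    · exact h2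
    · exact fun hc => ih _ h3 e he (Finset.mem_insert_of_mem hc)

lemma BAD_sdiff (C : Finset ℕ) (c : ℕ) (π : List ℕ) :
    C \ (c :: π).toFinset = (C.erase c) \ π.toFinset := by
  ext a
  simp only [Finset.mem_sdiff, List.mem_toFinset, List.mem_cons, Finset.mem_erase, not_or]
  tauto

lemma BAD_act {X : Type} [DecidableEq X] (f : ℕ → X → X) (u : X) (C : Finset ℕ) (π : List ℕ) :
    act f u (C \ π.toFinset) = act f u C \ π.toFinset := by
  ext a
  simp only [act, Finset.mem_filter, Finset.mem_sdiff]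
  tauto

lemma BAD_Hd {X : Type} (f : ℕ → X → X) (u : X) (c : ℕ) (π : List ℕ) :
    Hd f u (c :: π) ↔ f c u ≠ u := by
  constructor
  · rintro ⟨c', W', h1, h2⟩
    rw [List.cons.injEq] at h1
    rw [h1.1]
    exact h2
  · intro h
    exact ⟨c, π, rfl, h⟩

lemma BAD_Bs_sub {n : ℕ} (S : Finset (Fin n → Bool)) (f : ℕ → (Fin n → Bool) → (Fin n → Bool))
    (C : Finset ℕ) (δ : ℝ) (ρ : Finset ℕ) (s : ℕ) : Bs S f C δ ρ s ⊆ S := by
  classical
  cases s with
  | zero =>
    unfold Bs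
    exact Finset.filter_subset _ _
  | succ s =>
    unfold Bs
    exact Finset.filter_subset _ _

lemma BAD_num {X : Type} [DecidableEq X] (S : Finset X) (h : ℕ) (C : Finset ℕ)
    (P : X → List ℕ → Prop) : (num S h C P : ℝ) =
      ∑ u ∈ S, ∑ π ∈ wds h C, (open Classical in if P u π then (1 : ℝ) else 0) := by
  classical
  unfold num
  rw [Finset.card_filter, Finset.sum_product]
  push_cast
  rfl

lemma BAD_num_mono {X : Type} [DecidableEq X] (S : Finset X) (h : ℕ) (C : Finset ℕ)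
    (P Q : X → List ℕ → Prop) (hPQ : ∀ u ∈ S, ∀ π ∈ wds h C, P u π → Q u π) :
    num S h C P ≤ num S h C Q := by
  classical
  unfold num
  refine Finset.card_le_card fun x hx => ?_
  rw [Finset.mem_filter] at hx ⊢
  have h1 := Finset.mem_product.1 hx.1
  exact ⟨hx.1, hPQ _ h1.1 _ h1.2 hx.2⟩

/-- The indicator of the bad set of level zero. -/
lemma BAD_ind (δ : ℝ) (d m : ℕ) (h : (m : ℝ) < δ * (d : ℝ)) :
    (1 : ℝ) ≤ (2 : ℝ) ^ (δ * (d : ℝ)) * (1 / 2 : ℝ) ^ m := by
  have h1 : (2 : ℝ) ^ (m : ℝ) ≤ (2 : ℝ) ^ (δ * (d : ℝ)) :=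
    Real.rpow_le_rpow_of_exponent_le (by norm_num) h.le
  rw [Real.rpow_natCast] at h1
  calc (1 : ℝ) = 2 ^ m * (1 / 2) ^ m := by
        rw [← mul_pow]
        norm_num
    _ ≤ (2 : ℝ) ^ (δ * (d : ℝ)) * (1 / 2 : ℝ) ^ m :=
        mul_le_mul_of_nonneg_right h1 (by positivity)

theorem P_BAD : S_WDS → S_SCH → S_RUN → S_TRA → S_BSM → S_BWT → S_EXM → S_BAD := by
  intro hWDS hSCH hRUN hTRA hBSM hBWT hEXM n S f hf C p hp k j h R δ hk hj hδ hC
  classical
  -- change of the root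
  have h1 : num S (h + 1) C (fun u π => ∃ φ, Fi f p k 0 u π φ ∧
      φ j ∈ Bs S f C δ (C \ π.toFinset) R) ≤
      num S (h + 1) C (fun u π => Hd f u π ∧ u ∈ Bs S f C δ (C \ π.toFinset) R) := by
    refine le_trans (hTRA _ f S hf.toSy p hp k j (h + 1) C
      (fun φ ρ => φ j ∈ Bs S f C δ ρ R) hk hj ?_) ?_
    · intro φ ψ ρ hφψ hP
      show ψ j ∈ _
      rw [← hφψ j hj]
      exact hP
    · refine BAD_num_mono _ _ _ _ _ ?_
      rintro u hu π hπ ⟨φ, hφ, hb⟩
      have hLin := (hSCH p hp k j hj).1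
      have h2 := ((hRUN _ f (sch p k j) {j} (fun _ => u) hLin).1 π φ hφ.2).1 j ?_
      · refine ⟨hφ.1, ?_⟩
        have h3 : φ j = u := h2
        rw [h3] at hb
        exact hb
      · intro e he hc
        exact BAD_Lin_notMem _ _ hLin e he (by rw [hc]; exact Finset.mem_singleton_self _)
  set F : (Fin n → Bool) → Finset ℕ → ℝ :=
    fun u ρ => if u ∈ Bs S f C δ ρ R then (1 : ℝ) else 0 with hF
  have hF0 : ∀ u ρ, 0 ≤ F u ρ := by
    intro u ρ
    simp only [hF]
    split_ifs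
    · exact zero_le_one
    · exact le_rfl
  -- the number of pairs as a sum
  have h2 : (num S (h + 1) C (fun u π => Hd f u π ∧ u ∈ Bs S f C δ (C \ π.toFinset) R) : ℝ) =
      ∑ u ∈ S, ∑ c ∈ act f u C, ∑ π ∈ wds h (C.erase c), F u ((C.erase c) \ π.toFinset) := by
    rw [BAD_num]
    refine Finset.sum_congr rfl fun u _ => ?_
    rw [hWDS.2.2.1]
    have h3 : act f u C = C.filter (fun a => f a u ≠ u) := rfl
    rw [h3, Finset.sum_filter]
    refine Finset.sum_congr rfl fun c _ => ?_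
    by_cases hc : f c u ≠ u
    · rw [if_pos hc]
      refine Finset.sum_congr rfl fun π _ => ?_
      simp only [hF, BAD_sdiff, BAD_Hd]
      simp [hc]
    · rw [if_neg hc]
      refine Finset.sum_eq_zero fun π _ => ?_
      rw [if_neg]
      rintro ⟨h4, -⟩
      exact hc ((BAD_Hd f u c π).1 h4)
  -- the first letter is like every other letter
  have h3 : ((h : ℝ) + 1) * (num S (h + 1) C
      (fun u π => Hd f u π ∧ u ∈ Bs S f C δ (C \ π.toFinset) R) : ℝ) ≤
      ∑ u ∈ S, ((act f u C).card : ℝ) * ∑ π ∈ wds (h + 1) C, F u (C \ π.toFinset) := by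
    rw [h2, Finset.mul_sum]
    refine Finset.sum_le_sum fun u _ => ?_
    rw [Finset.mul_sum, ← nsmul_eq_mul, ← Finset.sum_const]
    refine Finset.sum_le_sum fun c hc => ?_
    have hcC : c ∈ C := (Finset.mem_filter.1 hc).1
    exact hBSM h C c (F u) hcC (hF0 u)
  -- exchange the sums
  have h4 : ∑ u ∈ S, ((act f u C).card : ℝ) * ∑ π ∈ wds (h + 1) C, F u (C \ π.toFinset) =
      ∑ π ∈ wds (h + 1) C, ∑ u ∈ Bs S f C δ (C \ π.toFinset) R, ((act f u C).card : ℝ) := by
    simp only [Finset.mul_sum]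
    rw [Finset.sum_comm]
    refine Finset.sum_congr rfl fun π _ => ?_
    simp only [hF, mul_ite, mul_one, mul_zero]
    rw [← Finset.sum_filter]
    refine Finset.sum_congr ?_ fun _ _ => rfl
    ext u
    rw [Finset.mem_filter]
    exact ⟨fun hu => hu.2, fun hu => ⟨BAD_Bs_sub _ _ _ _ _ _ hu, hu⟩⟩
  -- the weight of the bad vertices
  have h5 : ∀ π ∈ wds (h + 1) C,
      ∑ u ∈ Bs S f C δ (C \ π.toFinset) R, ((act f u C).card : ℝ) ≤
      (1 + 3 ^ R) * ∑ u ∈ S, ((act f u C).card : ℝ) *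
        ((2 : ℝ) ^ (δ * ((act f u C).card : ℝ)) *
          (1 / 2 : ℝ) ^ (act f u C \ π.toFinset).card) := by
    intro π _
    refine le_trans (hBWT n S f hf C (C \ π.toFinset) δ Finset.sdiff_subset hδ R).2 ?_
    refine mul_le_mul_of_nonneg_left ?_ (by positivity)
    have h6 : Bs S f C δ (C \ π.toFinset) 0 = S.filter
        (fun v => ((act f v (C \ π.toFinset)).card : ℝ) < δ * ((act f v C).card : ℝ)) := by
      unfold Bs
      rfl
    rw [h6, Finset.sum_filter]
    refine Finset.sum_le_sum fun u _ => ?_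
    split_ifs with h7
    · rw [BAD_act] at h7
      have h8 := BAD_ind δ (act f u C).card _ h7
      calc ((act f u C).card : ℝ) = ((act f u C).card : ℝ) * 1 := (mul_one _).symm
        _ ≤ _ := mul_le_mul_of_nonneg_left h8 (Nat.cast_nonneg _)
    · positivity
  -- the exponential moment
  have h6 : ∀ u ∈ S, ∑ π ∈ wds (h + 1) C, (1 / 2 : ℝ) ^ (act f u C \ π.toFinset).card ≤
      ((wds (h + 1) C).card : ℝ) *
        (1 - ((C.card : ℝ) - (h + 1)) / (2 * C.card)) ^ (act f u C).card := by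
    intro u _
    have h7 := hEXM (h + 1) C (act f u C) (Finset.filter_subset _ _) hC
    push_cast at h7
    exact h7
  calc ((h : ℝ) + 1) * (num S (h + 1) C (fun u π => ∃ φ, Fi f p k 0 u π φ ∧
        φ j ∈ Bs S f C δ (C \ π.toFinset) R) : ℝ)
      ≤ ((h : ℝ) + 1) * (num S (h + 1) C
        (fun u π => Hd f u π ∧ u ∈ Bs S f C δ (C \ π.toFinset) R) : ℝ) := by
        refine mul_le_mul_of_nonneg_left ?_ (by positivity)
        exact_mod_cast h1
    _ ≤ ∑ π ∈ wds (h + 1) C, ∑ u ∈ Bs S f C δ (C \ π.toFinset) R, ((act f u C).card : ℝ) := by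
        rw [← h4]
        exact h3
    _ ≤ ∑ π ∈ wds (h + 1) C, (1 + 3 ^ R) * ∑ u ∈ S, ((act f u C).card : ℝ) *
        ((2 : ℝ) ^ (δ * ((act f u C).card : ℝ)) *
          (1 / 2 : ℝ) ^ (act f u C \ π.toFinset).card) := Finset.sum_le_sum h5
    _ = (1 + 3 ^ R) * ∑ u ∈ S, ((act f u C).card : ℝ) *
        ((2 : ℝ) ^ (δ * ((act f u C).card : ℝ)) *
          ∑ π ∈ wds (h + 1) C, (1 / 2 : ℝ) ^ (act f u C \ π.toFinset).card) := by
        rw [← Finset.mul_sum, Finset.sum_comm]
        simp only [Finset.mul_sum]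
    _ ≤ (1 + 3 ^ R) * ∑ u ∈ S, ((act f u C).card : ℝ) *
        ((2 : ℝ) ^ (δ * ((act f u C).card : ℝ)) * (((wds (h + 1) C).card : ℝ) *
        (1 - ((C.card : ℝ) - (h + 1)) / (2 * C.card)) ^ (act f u C).card)) := by
        refine mul_le_mul_of_nonneg_left ?_ (by positivity)
        refine Finset.sum_le_sum fun u hu => ?_
        refine mul_le_mul_of_nonneg_left ?_ (Nat.cast_nonneg _)
        exact mul_le_mul_of_nonneg_left (h6 u hu) (by positivity)
    _ = _ := by
        rw [Finset.mul_sum, Finset.mul_sum]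
        refine Finset.sum_congr rfl fun u _ => ?_
        ring

end Pool.Agent.Lib.MP_233400_co.AT
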