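import Pool.Agent.Lib.MP_233400_co.AT.Stm

set_option autoImplicit false

/-!
# Piece BSM: the first letter of a random word is like every other letter
-/

namespace Pool.Agent.Lib.MP_233400_co.AT

open Finset

private lemma BSM_sd (C : Finset ℕ) (a : ℕ) (π : List ℕ) :
    C \ (a :: π).toFinset = (C.erase a) \ π.toFinset := by
  ext x
  simp only [mem_sdiff, List.mem_toFinset, List.mem_cons, not_or, mem_erase]
  tauto

private lemma BSM_key (h3 : ∀ (h : ℕ) (C : Finset ℕ) (F : List ℕ → ℝ),
    ∑ π ∈ wds (h + 1) C, F π = ∑ c ∈ C, ∑ π ∈ wds h (C.erase c), F (c :: π))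
    (c : ℕ) (F : Finset ℕ → ℝ) : ∀ (h : ℕ) (C : Finset ℕ), c ∈ C →
    ((h : ℝ) + 1) * ∑ π ∈ wds h (C.erase c), F ((C.erase c) \ π.toFinset) =
      ∑ π ∈ wds (h + 1) C, if c ∈ π then F (C \ π.toFinset) else 0 := by
  -- the term of the first letter `c`
  have hself : ∀ (h : ℕ) (C : Finset ℕ),
      ∑ π ∈ wds h (C.erase c), (if c ∈ c :: π then F (C \ (c :: π).toFinset) else 0) =
      ∑ π ∈ wds h (C.erase c), F ((C.erase c) \ π.toFinset) := by
    intro h C
    refine sum_congr rfl fun π _ => ?_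
    rw [if_pos List.mem_cons_self, BSM_sd]
  have hother : ∀ (h : ℕ) (C : Finset ℕ) (a : ℕ), a ≠ c →
      ∑ π ∈ wds h (C.erase a), (if c ∈ a :: π then F (C \ (a :: π).toFinset) else 0) =
      ∑ π ∈ wds h (C.erase a), (if c ∈ π then F ((C.erase a) \ π.toFinset) else 0) := by
    intro h C a ha
    refine sum_congr rfl fun π _ => ?_
    rw [BSM_sd]
    have e : (c ∈ a :: π) ↔ c ∈ π := by
      rw [List.mem_cons]
      constructor
      · rintro (h1 | h1)
        · exact absurd h1.symm ha
        · exact h1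
      · exact Or.inr
    simp only [e]
  intro h
  induction h with
  | zero =>
    intro C hc
    rw [h3, ← add_sum_erase C _ hc, hself]
    have hz : ∑ a ∈ C.erase c, ∑ π ∈ wds 0 (C.erase a),
        (if c ∈ a :: π then F (C \ (a :: π).toFinset) else 0) = 0 := by
      refine sum_eq_zero fun a ha => ?_
      rw [hother 0 C a (ne_of_mem_erase ha)]
      simp [wds]
    rw [hz]
    push_cast
    ring
  | succ h ih =>
    intro C hc
    rw [h3 (h + 1) C (fun π => if c ∈ π then F (C \ π.toFinset) else 0),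
      ← add_sum_erase C _ hc, hself]
    have hs : ∑ a ∈ C.erase c, ∑ π ∈ wds (h + 1) (C.erase a),
        (if c ∈ a :: π then F (C \ (a :: π).toFinset) else 0) =
        ((h : ℝ) + 1) * ∑ π ∈ wds (h + 1) (C.erase c), F ((C.erase c) \ π.toFinset) := by
      rw [h3 h (C.erase c) (fun π => F ((C.erase c) \ π.toFinset)), mul_sum]
      refine sum_congr rfl fun a ha => ?_
      have hac : a ≠ c := ne_of_mem_erase ha
      rw [hother (h + 1) C a hac, ← ih (C.erase a) (mem_erase.mpr ⟨hac.symm, hc⟩)]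
      congr 1
      rw [erase_right_comm]
      refine sum_congr rfl fun π _ => ?_
      rw [BSM_sd]
    rw [hs]
    push_cast
    ring

theorem P_BSM (hW : S_WDS) : S_BSM := by
  intro h C c F hc hF
  obtain ⟨-, -, h3, -⟩ := hW
  rw [BSM_key h3 c F h C hc]
  refine sum_le_sum fun π _ => ?_
  split_ifs
  · exact le_rfl
  · exact hF _

end Pool.Agent.Lib.MP_233400_co.AT
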