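import Pool.Agent.Lib.MP_233400_co.AT.Stm

set_option autoImplicit false

/-!
# MP_233400_co, project AT: [AT BWT], the weight of the bad vertices
-/

namespace Pool.Agent.Lib.MP_233400_co.AT

open Finset

variable {n : ℕ} {S : Finset (Fin n → Bool)} {f : ℕ → (Fin n → Bool) → (Fin n → Bool)}

theorem BWT_sub_S (C ρ : Finset ℕ) (δ : ℝ) (s : ℕ) : Bs S f C δ ρ s ⊆ S := by
  cases s with
  | zero => exact filter_subset _ _
  | succ s => exact filter_subset _ _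

theorem BWT_mono (C ρ : Finset ℕ) (δ : ℝ) (s : ℕ) : Bs S f C δ ρ s ⊆ Bs S f C δ ρ (s + 1) := by
  intro v hv
  exact mem_filter.2 ⟨BWT_sub_S C ρ δ s hv, Or.inl hv⟩

theorem BWT_zero (C ρ : Finset ℕ) (δ : ℝ) (s : ℕ) : Bs S f C δ ρ 0 ⊆ Bs S f C δ ρ s := by
  induction s with
  | zero => exact Subset.refl _
  | succ s ih => exact ih.trans (BWT_mono C ρ δ s)

theorem BWT_count (h : Cu S f) (ρ : Finset ℕ) (B : Finset (Fin n → Bool)) :
    ∑ v ∈ S, ((act f v ρ).filter (fun a => f a v ∈ B)).card ≤ ∑ x ∈ B, (act f x ρ).card := by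
  rw [← card_sigma, ← card_sigma]
  refine card_le_card_of_injOn (fun x => ⟨f x.2 x.1, x.2⟩) ?_ ?_
  · rintro ⟨v, a⟩ hva
    rw [mem_coe, mem_sigma, mem_filter, act, mem_filter] at hva
    obtain ⟨-, ⟨ha, hne⟩, hB⟩ := hva
    rw [mem_coe, mem_sigma, act, mem_filter]
    refine ⟨hB, ha, ?_⟩
    show f a (f a v) ≠ f a v
    rw [h.invol]
    exact fun e => hne e.symm
  · rintro ⟨v, a⟩ - ⟨v', a'⟩ - e
    obtain ⟨e1, e2⟩ := Sigma.mk.inj e
    have e3 : a = a' := eq_of_heq e2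
    subst e3
    have e4 : f a v = f a v' := e1
    have e5 : v = v' := by rw [← h.invol a v, e4, h.invol]
    rw [e5]

theorem BWT_pow (h : Cu S f) (C ρ : Finset ℕ) (δ : ℝ) (s : ℕ) :
    ∑ v ∈ Bs S f C δ ρ s, (act f v ρ).card ≤ 3 ^ s * ∑ v ∈ Bs S f C δ ρ 0, (act f v ρ).card := by
  induction s with
  | zero => simp
  | succ s ih =>
    have h1 := sum_sdiff (BWT_mono (S := S) (f := f) C ρ δ s) (f := fun v => (act f v ρ).card)
    have h2 : ∑ v ∈ Bs S f C δ ρ (s + 1) \ Bs S f C δ ρ s, (act f v ρ).card ≤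
        2 * ∑ x ∈ Bs S f C δ ρ s, (act f x ρ).card := by
      calc ∑ v ∈ Bs S f C δ ρ (s + 1) \ Bs S f C δ ρ s, (act f v ρ).card
          ≤ ∑ v ∈ Bs S f C δ ρ (s + 1) \ Bs S f C δ ρ s,
            2 * ((act f v ρ).filter (fun a => f a v ∈ Bs S f C δ ρ s)).card := by
            refine sum_le_sum fun v hv => ?_
            obtain ⟨hv1, hv2⟩ := mem_sdiff.1 hv
            exact ((mem_filter.1 hv1).2).resolve_left hv2
        _ ≤ ∑ v ∈ S, 2 * ((act f v ρ).filter (fun a => f a v ∈ Bs S f C δ ρ s)).card :=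
            sum_le_sum_of_subset (sdiff_subset.trans (BWT_sub_S C ρ δ (s + 1)))
        _ = 2 * ∑ v ∈ S, ((act f v ρ).filter (fun a => f a v ∈ Bs S f C δ ρ s)).card := by
            rw [mul_sum]
        _ ≤ 2 * ∑ x ∈ Bs S f C δ ρ s, (act f x ρ).card :=
            Nat.mul_le_mul_left 2 (BWT_count h ρ _)
    rw [pow_succ]
    have h3 : 3 ^ s * 3 * ∑ v ∈ Bs S f C δ ρ 0, (act f v ρ).card =
        3 * (3 ^ s * ∑ v ∈ Bs S f C δ ρ 0, (act f v ρ).card) := by ring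
    rw [h3]
    omega

theorem P_BWT : S_BWT := by
  intro n S f h C ρ δ hρ hδ s
  refine ⟨BWT_mono C ρ δ s, ?_⟩
  have h1 := sum_sdiff (BWT_zero (S := S) (f := f) C ρ δ s)
    (f := fun v => ((act f v C).card : ℝ))
  have h2 : δ * ∑ v ∈ Bs S f C δ ρ s \ Bs S f C δ ρ 0, ((act f v C).card : ℝ) ≤
      ∑ v ∈ Bs S f C δ ρ s, ((act f v ρ).card : ℝ) := by
    rw [mul_sum]
    calc ∑ v ∈ Bs S f C δ ρ s \ Bs S f C δ ρ 0, δ * ((act f v C).card : ℝ)
        ≤ ∑ v ∈ Bs S f C δ ρ s \ Bs S f C δ ρ 0, ((act f v ρ).card : ℝ) := by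
          refine sum_le_sum fun v hv => ?_
          obtain ⟨hv1, hv2⟩ := mem_sdiff.1 hv
          by_contra hlt
          exact hv2 (mem_filter.2 ⟨BWT_sub_S C ρ δ s hv1, not_le.1 hlt⟩)
      _ ≤ ∑ v ∈ Bs S f C δ ρ s, ((act f v ρ).card : ℝ) :=
          sum_le_sum_of_subset_of_nonneg sdiff_subset fun v _ _ => Nat.cast_nonneg _
  have h3 : ∑ v ∈ Bs S f C δ ρ s, ((act f v ρ).card : ℝ) ≤
      3 ^ s * ∑ v ∈ Bs S f C δ ρ 0, ((act f v ρ).card : ℝ) := by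
    exact_mod_cast BWT_pow h C ρ δ s
  have h4 : ∑ v ∈ Bs S f C δ ρ 0, ((act f v ρ).card : ℝ) ≤
      δ * ∑ v ∈ Bs S f C δ ρ 0, ((act f v C).card : ℝ) := by
    rw [mul_sum]
    exact sum_le_sum fun v hv => (mem_filter.1 hv).2.le
  have h5 : δ * ∑ v ∈ Bs S f C δ ρ s \ Bs S f C δ ρ 0, ((act f v C).card : ℝ) ≤
      δ * (3 ^ s * ∑ v ∈ Bs S f C δ ρ 0, ((act f v C).card : ℝ)) := by
    calc _ ≤ _ := h2
      _ ≤ _ := h3
      _ ≤ 3 ^ s * (δ * ∑ v ∈ Bs S f C δ ρ 0, ((act f v C).card : ℝ)) :=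
          mul_le_mul_of_nonneg_left h4 (by positivity)
      _ = _ := by ring
  have h6 := le_of_mul_le_mul_left h5 hδ
  rw [← h1]
  linarith

end Pool.Agent.Lib.MP_233400_co.AT
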