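import Pool.Agent.Lib.MP_233400_co.AT.Stm

set_option autoImplicit false

/-!
# MP_233400_co, project AT, piece CBE: the neighbours of the image of `y`
-/

namespace Pool.Agent.Lib.MP_233400_co.AT

open Finset

private theorem CBE_iter {n : ℕ} (p : ℕ → ℕ) (k : ℕ) (φ : ℕ → (Fin n → Bool))
    (h : ∀ v ∈ Eo p k φ, p v ∈ Eo p k φ) (y : ℕ) (hy : y ∈ Eo p k φ) (l : ℕ) :
    p^[l] y ∈ Eo p k φ := by
  induction l with
  | zero => exact hy
  | succ l ih =>
    rw [Function.iterate_succ_apply']
    exact h _ ih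

/-- The piece CBE. -/
theorem P_CBE : S_SCH → S_EOF → S_CBE := by
  intro hS hE n p hp k y φ hy
  obtain ⟨hsub, _, hcl, hinj, _⟩ := hE (Fin n → Bool) p hp k φ
  have hyk : y ≤ k := by
    have := hsub hy
    rw [Finset.mem_range] at this
    omega
  obtain ⟨_, hex, hform, _⟩ := hS p hp k y hyk
  unfold cb
  set L := (sch p k y).filter (fun e => decide (e.1 ≠ y ∧ hammingDist (φ e.2) (φ y) = 1 ∧
    φ e.1 ≠ φ y)) with hL
  have hsubs : nE p (Eo p k φ) φ y ⊆ (L.map Prod.snd).toFinset := by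
    intro i hi
    unfold nE at hi
    rw [Finset.mem_filter] at hi
    obtain ⟨hiE, hd, h1, h2⟩ := hi
    have hiy : i ≠ y := by
      rintro rfl
      rw [hammingDist_self] at hd
      exact absurd hd (by norm_num)
    have hik : i ≤ k := by
      have := hsub hiE
      rw [Finset.mem_range] at this
      omega
    obtain ⟨e, he, rfl⟩ := hex i hik hiy
    have key : e.1 ≠ y ∧ e.1 ∈ Eo p k φ := by
      rcases (hform e he).2.2 with ⟨ha, hb⟩ | ⟨ha, hb, l, hc⟩
      · refine ⟨fun h => h1 ⟨ha, ?_⟩, ?_⟩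
        · rw [← hb, h]
        · rw [hb]
          exact hcl _ hiE
      · refine ⟨fun h => h2 ⟨?_, ?_⟩, ?_⟩
        · rw [← h]
          exact ha
        · rw [← h, hb]
        · rw [hc]
          exact CBE_iter p k φ hcl y hy l
    rw [List.mem_toFinset, List.mem_map]
    refine ⟨e, ?_, rfl⟩
    rw [hL, List.mem_filter]
    refine ⟨he, ?_⟩
    rw [decide_eq_true_eq]
    exact ⟨key.1, hd, fun h => key.1 (hinj key.2 hy h)⟩
  calc (nE p (Eo p k φ) φ y).card ≤ ((L.map Prod.snd).toFinset).card := Finset.card_le_card hsubs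
    _ ≤ (L.map Prod.snd).length := List.toFinset_card_le _
    _ = L.length := List.length_map _

end Pool.Agent.Lib.MP_233400_co.AT
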