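import Pool.Agent.Lib.MP_233400_co.AT.Stm

set_option autoImplicit false

/-!
# MP_233400_co, project AT, piece CLS: few labels are below collisions (helper71)
-/

namespace Pool.Agent.Lib.MP_233400_co.AT

open Finset

/-- `dT a b = 0` only if `a = b` -/
lemma CLS_dT_zero (hANC : S_ANC) (p : ℕ → ℕ) (hp : Par p) (k a b : ℕ) (ha : a ≤ k) (hb : b ≤ k)
    (h0 : dT p k a b = 0) : a = b := by
  obtain ⟨-, -, -, h4, h5⟩ := hANC p hp k a b ha hb
  rcases lt_trichotomy b a with h | h | h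
  · have := (h4 h).1
    omega
  · exact h.symm
  · have := h5 h
    omega

/-- the double counting -/
lemma CLS_count (hEOF : S_EOF) {n : ℕ} (S : Finset (Fin n → Bool))
    (f : ℕ → (Fin n → Bool) → (Fin n → Bool)) (C : Finset ℕ) (p : ℕ → ℕ) (hp : Par p)
    (k h R : ℕ) (g : ℝ) :
    R * num S h C (fun u π => ∃ φ, Fi f p k 0 u π φ ∧ Gd f g k φ (C \ π.toFinset) ∧
      R < (range (k + 1) \ Eo p k φ).card) ≤
    ∑ x ∈ range (k + 1), ∑ i ∈ range (k + 1), ∑ y ∈ range (p^[i] x),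
      num S h C (fun u π => ∃ φ, Fi f p k 0 u π φ ∧ (Gd f g k φ (C \ π.toFinset) ∧
        φ y = φ (p^[i] x))) := by
  classical
  have hnum : ∀ P : (Fin n → Bool) → List ℕ → Prop,
      num S h C P = ∑ x ∈ S ×ˢ wds h C, if P x.1 x.2 then 1 else 0 := by
    intro P
    unfold num
    rw [Finset.card_filter]
  rw [hnum]
  have h2 : ∑ x ∈ range (k + 1), ∑ i ∈ range (k + 1), ∑ y ∈ range (p^[i] x),
      num S h C (fun u π => ∃ φ, Fi f p k 0 u π φ ∧ (Gd f g k φ (C \ π.toFinset) ∧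
        φ y = φ (p^[i] x))) =
      ∑ w ∈ S ×ˢ wds h C, ∑ x ∈ range (k + 1), ∑ i ∈ range (k + 1), ∑ y ∈ range (p^[i] x),
        if (∃ φ, Fi f p k 0 w.1 w.2 φ ∧ (Gd f g k φ (C \ w.2.toFinset) ∧
        φ y = φ (p^[i] x))) then 1 else 0 := by
    symm
    rw [Finset.sum_comm]
    refine Finset.sum_congr rfl fun x _ => ?_
    rw [Finset.sum_comm]
    refine Finset.sum_congr rfl fun i _ => ?_
    rw [Finset.sum_comm]
    refine Finset.sum_congr rfl fun y _ => ?_
    rw [hnum]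
  rw [h2, Finset.mul_sum]
  refine Finset.sum_le_sum fun w _ => ?_
  split_ifs with hw
  · obtain ⟨φ, h1, h3, h4⟩ := hw
    have h5 := (hEOF _ p hp k φ).2.2.2.2
    rw [mul_one]
    refine le_trans (le_of_lt h4) (le_trans h5 ?_)
    refine Finset.sum_le_sum fun x _ => Finset.sum_le_sum fun i _ =>
      Finset.sum_le_sum fun y _ => ?_
    by_cases hy : φ y = φ (p^[i] x)
    · rw [if_pos hy, if_pos ⟨φ, h1, h3, hy⟩]
    · rw [if_neg hy]
      exact Nat.zero_le _
  · rw [mul_zero]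
    exact Nat.zero_le _

/-- vertices at distance two in the tree are not mapped to the same vertex -/
lemma CLS_two (hWDS : S_WDS) (hHOM : S_HOM) (hANC : S_ANC) {n : ℕ} (S : Finset (Fin n → Bool))
    (f : ℕ → (Fin n → Bool) → (Fin n → Bool)) (hf : Cu S f) (C : Finset ℕ) (p : ℕ → ℕ)
    (hp : Par p) (k h q y : ℕ) (hq : q ≤ k) (hy : y < q)
    (h1 : dT p k (p q) y = 1) (Q : (ℕ → (Fin n → Bool)) → Finset ℕ → Prop) :
    num S h C (fun u π => ∃ φ, Fi f p k 0 u π φ ∧ (Q φ (C \ π.toFinset) ∧ φ y = φ q)) = 0 := by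
  classical
  unfold num
  rw [Finset.card_eq_zero, Finset.filter_eq_empty_iff]
  rintro ⟨u, π⟩ hx ⟨φ, hφ, -, hyq⟩
  rw [Finset.mem_product] at hx
  have hnd : π.Nodup := ((hWDS.1 h C π).1 hx.2).1
  obtain ⟨-, col, hcol, hinj⟩ := hHOM _ f p hp k u π φ hnd hφ
  have hq1 : 1 ≤ q := by omega
  have hpq : p q < q := hp.lt q hq1
  have hzk : p q ≤ k := by omega
  have hyk : y ≤ k := by omega
  obtain ⟨-, hq2, hq3⟩ := hcol q hq1 hq
  obtain ⟨-, hzz, -, h4, h5⟩ := hANC p hp k (p q) y hzk hyk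
  rcases lt_trichotomy y (p q) with hlt | heq | hgt
  · -- `y` is the parent of `p q`
    have hz1 : 1 ≤ p q := by omega
    have h6 := (h4 hlt).1
    have h7 : dT p k (p (p q)) y = 0 := by omega
    have hppq : p (p q) < p q := hp.lt _ hz1
    have h8 : p (p q) = y := CLS_dT_zero hANC p hp k _ _ (by omega) hyk h7
    obtain ⟨-, hz2, hz3⟩ := hcol (p q) hz1 hzk
    rw [h8] at hz2 hz3
    have h9 : f (col (p q)) (φ (p q)) = φ y := by
      rw [← hz2]
      exact hf.invol _ _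
    have h10 : col (p q) = col q := by
      refine hf.inj _ _ (φ (p q)) ?_ ?_
      · rw [h9]
        exact fun hc => hz3 hc.symm
      · rw [h9, hq2, hyq]
    have h11 := hinj (Set.mem_Icc.2 ⟨hz1, hzk⟩) (Set.mem_Icc.2 ⟨hq1, hq⟩) h10
    omega
  · rw [heq] at h1
    omega
  · have h6 := h5 hgt
    have h7 : dT p k (p q) (p y) = 0 := by omega
    have hy1 : 1 ≤ y := by omega
    have hpy : p y < y := hp.lt _ hy1
    have h8 : p q = p y := CLS_dT_zero hANC p hp k _ _ hzk (by omega) h7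
    obtain ⟨-, hy2, hy3⟩ := hcol y hy1 hyk
    rw [← h8] at hy2 hy3
    have h10 : col y = col q := by
      refine hf.inj _ _ (φ (p q)) ?_ ?_
      · rw [hy2]
        exact hy3
      · rw [hy2, hq2, hyq]
    have h11 := hinj (Set.mem_Icc.2 ⟨hy1, hyk⟩) (Set.mem_Icc.2 ⟨hq1, hq⟩) h10
    omega

theorem P_CLS : S_WDS → S_TRA → S_HOM → S_ANC → S_COL → S_WBD → S_CSU → S_EOF → S_CLS := by
  intro hWDS hTRA hHOM hANC hCOL hWBD hCSU hEOF n S f hf C p hp k h R g hk hg
  classical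
  have hg0 : (0 : ℝ) < g := by linarith
  set M : ℝ := (num S h C (fun u π => Hd f u π) : ℝ) with hM
  have hM0 : 0 ≤ M := Nat.cast_nonneg _
  set N : ℕ → ℕ → ℕ := fun q y => num S h C (fun u π => ∃ φ, Fi f p k 0 u π φ ∧
    (Gd f g k φ (C \ π.toFinset) ∧ φ y = φ q)) with hN
  obtain ⟨hW0, hW01, hW21, hW31, hW4⟩ := hWBD g hg
  have hexp : 0 < Real.exp (-g / 5) := Real.exp_pos _
  have hβ1 : (0 : ℝ) ≤ 3 / g ^ 2 * M := by positivity
  have hβ2 : (0 : ℝ) ≤ (15 + 200 * k * Real.exp (-g / 5)) / g ^ 3 * M := by positivity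
  have hkey : ∀ q ≤ k, ∀ y < q, (N q y : ℝ) ≤ Wf g (dT p k (p q) y) 1 * M := by
    intro q hq y hy
    have hyk : y ≤ k := by omega
    have h1 := hTRA _ f S hf.toSy p hp k q h C
      (fun φ ρ => Gd f g k φ ρ ∧ φ y = φ q) hk hq ?_
    · have h2 := hCOL n S f hf C p hp k q y h g hk hq hy hg0
      refine le_trans ?_ h2
      exact_mod_cast h1
    · intro φ ψ ρ hφψ hP
      refine ⟨fun i hi => ?_, ?_⟩
      · rw [← hφψ i hi]
        exact hP.1 i hi
      · rw [← hφψ y hyk, ← hφψ q hq]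
        exact hP.2
  have hb1 : ∀ q ≤ k, ∀ y < q, dT p k (p q) y = 3 → (N q y : ℝ) ≤ 3 / g ^ 2 * M := by
    intro q hq y hy h3
    have := hkey q hq y hy
    rw [h3] at this
    exact le_trans this (mul_le_mul_of_nonneg_right hW31 hM0)
  have hb2 : ∀ q ≤ k, ∀ y < q, dT p k (p q) y ≠ 3 →
      (N q y : ℝ) ≤ (15 + 200 * k * Real.exp (-g / 5)) / g ^ 3 * M := by
    intro q hq y hy h3
    have h4 := hkey q hq y hy
    have hq1 : 1 ≤ q := by omega
    have hpq : p q < q := hp.lt q hq1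
    have hsk : dT p k (p q) y ≤ k := (hANC p hp k (p q) y (by omega) (by omega)).2.2.1
    rcases Nat.lt_or_ge (dT p k (p q) y) 4 with hs | hs
    · have h5 : dT p k (p q) y = 0 ∨ dT p k (p q) y = 1 ∨ dT p k (p q) y = 2 := by omega
      rcases h5 with h5 | h5 | h5
      · rw [h5, hW01, zero_mul] at h4
        exact le_trans h4 hβ2
      · have h6 := CLS_two hWDS hHOM hANC S f hf C p hp k h q y hq hy h5
          (fun φ ρ => Gd f g k φ ρ)
        have h7 : N q y = 0 := h6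
        rw [h7, Nat.cast_zero]
        exact hβ2
      · rw [h5, hW21, zero_mul] at h4
        exact le_trans h4 hβ2
    · refine le_trans h4 (mul_le_mul_of_nonneg_right ?_ hM0)
      refine le_trans (hW4 _ hs) ?_
      have h8 : ((dT p k (p q) y : ℕ) : ℝ) ≤ (k : ℝ) := by exact_mod_cast hsk
      gcongr
  have hsum := hCSU p hp k (fun q y => (N q y : ℝ)) (3 / g ^ 2 * M)
    ((15 + 200 * k * Real.exp (-g / 5)) / g ^ 3 * M) hβ1 hβ2 hb1 hb2
  have hcount := CLS_count hEOF S f C p hp k h R g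
  have hcount' : (R : ℝ) * num S h C (fun u π => ∃ φ, Fi f p k 0 u π φ ∧
      Gd f g k φ (C \ π.toFinset) ∧ R < (range (k + 1) \ Eo p k φ).card) ≤
      ∑ x ∈ range (k + 1), ∑ i ∈ range (k + 1), ∑ y ∈ range (p^[i] x),
        (N (p^[i] x) y : ℝ) := by
    exact_mod_cast hcount
  refine le_trans hcount' (le_trans hsum (le_of_eq ?_))
  ring

end Pool.Agent.Lib.MP_233400_co.AT
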