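import Pool.Agent.Lib.MP_233400_co.AT.Stm

set_option autoImplicit false

/-! # MP_233400_co, project AT, piece COD (helper21) -/

namespace Pool.Agent.Lib.MP_233400_co.AT

open Finset

lemma COD_adj {n : ℕ} {x y : Fin n → Bool} (h : hammingDist x y = 1) : (Q n).Adj x y := by
  classical
  unfold hammingDist at h
  obtain ⟨i, hi⟩ := Finset.card_eq_one.mp h
  have hm : ∀ j, x j ≠ y j ↔ j = i := by
    intro j
    have := Finset.ext_iff.mp hi j
    simpa using this
  exact ⟨i, (hm i).mpr rfl, fun j hj => (hm j).mp hj⟩

theorem P_COD : S_COD := by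
  classical
  intro n w Z N t ht hN
  -- double counting
  have hdc := Finset.sum_card_bipartiteAbove_eq_sum_card_bipartiteBelow (s := N) (t := Z.erase w)
    (fun (v z : Fin n → Bool) => hammingDist z v = 1)
  have hupper : ∑ z ∈ Z.erase w, (N.filter (fun v => hammingDist z v = 1)).card ≤ 2 * Z.card := by
    calc ∑ z ∈ Z.erase w, (N.filter (fun v => hammingDist z v = 1)).card
        ≤ ∑ z ∈ Z.erase w, 2 := by
          refine Finset.sum_le_sum fun z hz => ?_
          refine Q_codeg (x := w) (y := z) (Finset.ne_of_mem_erase hz).symm _ ?_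
          intro v hv
          rw [Finset.mem_filter] at hv
          exact ⟨COD_adj (hN v hv.1).1, COD_adj hv.2⟩
      _ = 2 * (Z.erase w).card := by rw [Finset.sum_const, smul_eq_mul, mul_comm]
      _ ≤ 2 * Z.card := by
          have := Finset.card_erase_le (s := Z) (a := w)
          omega
  have hlower : ∀ v ∈ N, t / 2 ≤
      (((Z.erase w).filter (fun z => hammingDist z v = 1)).card : ℝ) := by
    intro v hv
    have h1 := (hN v hv).2
    have h2 : (Z.filter (fun z => hammingDist z v = 1)).card ≤
        ((Z.erase w).filter (fun z => hammingDist z v = 1)).card + 1 := by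
      have hsub : Z.filter (fun z => hammingDist z v = 1) ⊆
          insert w ((Z.erase w).filter (fun z => hammingDist z v = 1)) := by
        intro z hz
        rw [Finset.mem_filter] at hz
        rw [Finset.mem_insert, Finset.mem_filter, Finset.mem_erase]
        by_cases hzw : z = w
        · left; exact hzw
        · right; exact ⟨⟨hzw, hz.1⟩, hz.2⟩
      exact (Finset.card_le_card hsub).trans (Finset.card_insert_le _ _)
    have h3 : ((Z.filter (fun z => hammingDist z v = 1)).card : ℝ) ≤
        (((Z.erase w).filter (fun z => hammingDist z v = 1)).card : ℝ) + 1 := by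
      exact_mod_cast h2
    linarith
  have hsum : (N.card : ℝ) * (t / 2) ≤
      ∑ v ∈ N, (((Z.erase w).filter (fun z => hammingDist z v = 1)).card : ℝ) := by
    calc (N.card : ℝ) * (t / 2) = ∑ v ∈ N, (t / 2) := by rw [Finset.sum_const, nsmul_eq_mul]
      _ ≤ _ := Finset.sum_le_sum hlower
  have heq : ∑ v ∈ N, ((Z.erase w).filter (fun z => hammingDist z v = 1)).card =
      ∑ z ∈ Z.erase w, (N.filter (fun v => hammingDist z v = 1)).card := hdc
  calc (N.card : ℝ) * (t / 2)
      ≤ ∑ v ∈ N, (((Z.erase w).filter (fun z => hammingDist z v = 1)).card : ℝ) := hsum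
    _ = ((∑ z ∈ Z.erase w, (N.filter (fun v => hammingDist z v = 1)).card : ℕ) : ℝ) := by
        rw [← heq]; push_cast; rfl
    _ ≤ 2 * Z.card := by exact_mod_cast hupper

end Pool.Agent.Lib.MP_233400_co.AT
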