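import Pool.Agent.Lib.MP_233400_co.AT.Stm

set_option autoImplicit false

/-!
# MP_233400_co, project AT, piece COL: collisions seen from `q` (helper16)
-/

namespace Pool.Agent.Lib.MP_233400_co.AT

open Finset

lemma COL_Wf_nonneg {g : ℝ} (hg : 0 < g) : ∀ s D : ℕ, 0 ≤ Wf g s D
  | 0, D => by
    unfold Wf
    split_ifs <;> norm_num
  | s + 1, D => by
    unfold Wf
    have h1 := COL_Wf_nonneg hg s (D + 1)
    have h2 : (0 : ℝ) ≤ min 1 ((D : ℝ) / g) := le_min zero_le_one (by positivity)
    have h3 : (0 : ℝ) ≤ max 0 (Wf g s (D - 1) - Wf g s (D + 1)) := le_max_left _ _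
    have h4 := mul_nonneg h2 h3
    linarith

lemma COL_lin : ∀ (T : List (ℕ × ℕ)) (K : Finset ℕ), Lin T K → ∀ L : List (ℕ × ℕ), L <:+ T →
    ∃ K' : Finset ℕ, K ⊆ K' ∧ Lin L K'
  | [], K, hT, L, hL => by
    rw [List.suffix_nil] at hL
    subst hL
    exact ⟨K, Subset.refl _, hT⟩
  | e :: T, K, hT, L, hL => by
    rcases List.suffix_cons_iff.1 hL with h | h
    · subst h
      exact ⟨K, Subset.refl _, hT⟩
    · obtain ⟨K', h1, h2⟩ := COL_lin T (insert e.2 K) hT.2.2 L h
      exact ⟨K', (Finset.subset_insert _ _).trans h1, h2⟩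

lemma COL_num {X : Type} [DecidableEq X] (S : Finset X) (h : ℕ) (C : Finset ℕ)
    (P : X → List ℕ → Prop) : (num S h C P : ℝ) =
      ∑ u ∈ S, ∑ π ∈ wds h C, (open Classical in if P u π then (1 : ℝ) else 0) := by
  classical
  unfold num
  rw [Finset.card_filter, Finset.sum_product]
  push_cast
  refine Finset.sum_congr rfl fun u _ => Finset.sum_congr rfl fun π _ => ?_
  congr

/-- the potential -/
noncomputable def COL_G {n : ℕ} (g : ℝ) (y q : ℕ) (O : List (ℕ × ℕ))
    (φ : ℕ → (Fin n → Bool)) : ℝ :=
  Wf g (anc O y).2 (hammingDist (φ (anc O y).1) (φ q))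

lemma COL_step {n : ℕ} (hDWN : S_DWN) {S : Finset (Fin n → Bool)}
    {f : ℕ → (Fin n → Bool) → (Fin n → Bool)} (hf : Cu S f) {g : ℝ} (hg : 0 < g) (y q : ℕ)
    (e : ℕ × ℕ) (O : List (ℕ × ℕ)) (φ : ℕ → (Fin n → Bool)) (U : Finset ℕ) (h1 : e.2 ≠ q)
    (hU : g ≤ ((act f (φ e.1) U).card : ℝ)) :
    ∑ c ∈ act f (φ e.1) U, COL_G g y q O (Function.update φ e.2 (f c (φ e.1))) ≤
      ((act f (φ e.1) U).card : ℝ) * COL_G g y q (e :: O) φ := by
  by_cases hx : (anc O y).1 = e.2
  · have h2 : anc (e :: O) y = (e.1, (anc O y).2 + 1) := by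
      simp only [anc, if_pos hx]
    have h3 := (hDWN n S f hf g U (φ e.1) (φ q) hg hU).1 (Wf g (anc O y).2)
    have h4 : COL_G g y q (e :: O) φ = Wf g ((anc O y).2 + 1) (hammingDist (φ e.1) (φ q)) := by
      unfold COL_G
      rw [h2]
    rw [h4]
    have h5 : Wf g ((anc O y).2 + 1) (hammingDist (φ e.1) (φ q)) =
      Wf g (anc O y).2 (hammingDist (φ e.1) (φ q) + 1) +
        min 1 ((hammingDist (φ e.1) (φ q) : ℝ) / g) *
          max 0 (Wf g (anc O y).2 (hammingDist (φ e.1) (φ q) - 1) -
            Wf g (anc O y).2 (hammingDist (φ e.1) (φ q) + 1)) := rfl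
    rw [h5]
    refine le_trans (le_of_eq ?_) h3
    refine Finset.sum_congr rfl fun c _ => ?_
    unfold COL_G
    rw [hx, Function.update_self, Function.update_of_ne (Ne.symm h1)]
  · have h2 : anc (e :: O) y = anc O y := by
      simp only [anc, if_neg hx]
    have h3 : ∀ c ∈ act f (φ e.1) U,
        COL_G g y q O (Function.update φ e.2 (f c (φ e.1))) = COL_G g y q (e :: O) φ := by
      intro c _
      unfold COL_G
      rw [h2, Function.update_of_ne hx, Function.update_of_ne (Ne.symm h1)]
    rw [Finset.sum_congr rfl h3, Finset.sum_const, nsmul_eq_mul]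

theorem P_COL : S_WDS → S_SCH → S_RUN → S_SUP → S_DWN → S_ANC → S_COL := by
  intro hWDS hSCH _hRUN hSUP hDWN hANC n S f hf C p hp k q y h g hk hq hy hg
  classical
  rw [COL_num]
  obtain h0 | ⟨h', rfl⟩ : h = 0 ∨ ∃ h', h = h' + 1 := by
    rcases h with _ | h'
    · exact Or.inl rfl
    · exact Or.inr ⟨h', rfl⟩
  · subst h0
    have h1 : ∑ u ∈ S, ∑ π ∈ wds 0 C, (if (∃ φ, Fi f p k q u π φ ∧
        Gd f g k φ (C \ π.toFinset) ∧ φ y = φ q) then (1 : ℝ) else 0) = 0 := by
      refine Finset.sum_eq_zero fun u _ => Finset.sum_eq_zero fun π hπ => ?_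
      have h2 : π = [] := by
        simpa [wds] using hπ
      subst h2
      rw [if_neg]
      rintro ⟨φ, ⟨⟨c, W', h3, -⟩, -⟩, -⟩
      exact absurd h3 (by simp)
    refine le_trans (le_of_eq ?_) (mul_nonneg (COL_Wf_nonneg hg _ _) (Nat.cast_nonneg _))
    convert h1
  · obtain ⟨-, hcard, hsum, hHd⟩ := hWDS
    have hpq : p q < q := hp.lt q (by omega)
    obtain ⟨hanc1, -, -, hanc4, -⟩ := hANC p hp k q y hq (by omega)
    obtain ⟨-, O, hO, hancO⟩ := hanc4 hy
    obtain ⟨hlin, -, hends, -⟩ := hSCH p hp k q hq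
    rw [hO] at hlin hends
    have hlin2 : Lin O (insert (p q) {q}) := hlin.2.2
    -- the main estimate
    have key : ∀ u ∈ S, ∀ c ∈ act f u C,
        ∑ π ∈ wds h' (C.erase c), (if (∃ φ, Fi f p k q u (c :: π) φ ∧
          Gd f g k φ (C \ (c :: π).toFinset) ∧ φ y = φ q) then (1 : ℝ) else 0) ≤
        ((C.card - 1).descFactorial h' : ℝ) * Wf g (dT p k (p q) y) 1 := by
      intro u _ c hc
      have hcC : c ∈ C := (Finset.mem_filter.1 hc).1
      have hcu : f c u ≠ u := (Finset.mem_filter.1 hc).2
      set φ₀ : ℕ → (Fin n → Bool) := Function.update (fun _ => u) (p q) (f c u) with hφ₀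
      have hsup := hSUP (Fin n → Bool) f g (fun φ => if φ y = φ q then (1 : ℝ) else 0) O
        (insert (p q) {q}) (COL_G g y q) hg hlin2
        (fun φ => by
          show (0 : ℝ) ≤ (if φ y = φ q then (1 : ℝ) else 0)
          split_ifs <;> norm_num)
        (fun O φ => COL_Wf_nonneg hg _ _)
        (fun φ => by
          show (if φ y = φ q then (1 : ℝ) else 0) ≤ COL_G g y q [] φ
          unfold COL_G
          simp only [anc, Wf, hammingDist_eq_zero]
          exact le_refl _)
        (fun e O' φ U hsuf hU => by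
          obtain ⟨K', hK', hlin'⟩ := COL_lin O _ hlin2 _ hsuf
          refine COL_step hDWN hf hg y q e O' φ U ?_ hU
          rintro rfl
          exact hlin'.2.1 (hK' (by simp)))
        h' (C.erase c) φ₀
      have hG : COL_G g y q O φ₀ = Wf g (dT p k (p q) y) 1 := by
        unfold COL_G
        rw [hancO]
        show Wf g (dT p k (p q) y) (hammingDist (φ₀ (p q)) (φ₀ q)) = _
        rw [hφ₀, Function.update_self, Function.update_of_ne (by omega : q ≠ p q),
          hammingDist_comm, hf.one c u hcu]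
      rw [hG, hcard, Finset.card_erase_of_mem hcC] at hsup
      refine le_trans (Finset.sum_le_sum fun π _ => ?_) hsup
      split_ifs with hP
      · obtain ⟨φ, ⟨-, hrun⟩, hGd, hyq⟩ := hP
        rw [hO] at hrun
        have hrun2 : run f O φ₀ π = some φ := by
          simp only [run] at hrun
          rw [if_neg hcu] at hrun
          exact hrun
        unfold gv
        rw [hrun2]
        have hall : ∀ e ∈ O, g ≤ ((act f (φ e.1) (C.erase c \ π.toFinset)).card : ℝ) := by
          intro e he
          have h5 := (hends e (List.mem_cons_of_mem _ he)).1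
          have h6 := hGd e.1 h5
          have h7 : C \ (c :: π).toFinset = C.erase c \ π.toFinset := by
            ext a
            simp only [List.toFinset_cons, Finset.mem_sdiff, Finset.mem_insert,
              Finset.mem_erase]
            tauto
          rw [h7] at h6
          exact h6
        show (1 : ℝ) ≤ (if _ then (if φ y = φ q then (1 : ℝ) else 0) else 0)
        rw [if_pos hall, if_pos hyq]
      · unfold gv
        split
        · exact le_refl _
        · split_ifs with h8
          · show (0 : ℝ) ≤ (if _ then (1 : ℝ) else 0)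
            split_ifs <;> norm_num
          · exact le_refl _
    have hright : (num S (h' + 1) C (fun u π => Hd f u π) : ℝ) =
        (∑ u ∈ S, ((act f u C).card : ℝ)) * ((C.card - 1).descFactorial h' : ℝ) := by
      rw [hHd]
      push_cast
      ring
    rw [hright]
    calc _ ≤ ∑ u ∈ S, ((act f u C).card : ℝ) *
          (((C.card - 1).descFactorial h' : ℝ) * Wf g (dT p k (p q) y) 1) := by
          refine Finset.sum_le_sum fun u hu => ?_
          rw [hsum]
          have hsplit : ∑ c ∈ C, ∑ π ∈ wds h' (C.erase c), (if (∃ φ, Fi f p k q u (c :: π) φ ∧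
              Gd f g k φ (C \ (c :: π).toFinset) ∧ φ y = φ q) then (1 : ℝ) else 0) =
              ∑ c ∈ act f u C, ∑ π ∈ wds h' (C.erase c), (if (∃ φ, Fi f p k q u (c :: π) φ ∧
              Gd f g k φ (C \ (c :: π).toFinset) ∧ φ y = φ q) then (1 : ℝ) else 0) := by
            unfold act
            rw [Finset.sum_filter]
            refine Finset.sum_congr rfl fun c _ => ?_
            split_ifs with hcu
            · rfl
            · refine Finset.sum_eq_zero fun π _ => ?_
              rw [if_neg]
              rintro ⟨φ, ⟨⟨c', W', h3, h4⟩, -⟩, -⟩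
              have h5 : c = c' := (List.cons.inj h3).1
              rw [← h5] at h4
              exact hcu h4
          refine le_trans (le_of_eq ?_) (le_trans (Finset.sum_le_sum (key u hu)) ?_)
          · rw [← hsplit]
          · rw [Finset.sum_const, nsmul_eq_mul]
      _ = _ := by
          rw [← Finset.sum_mul]
          ring

end Pool.Agent.Lib.MP_233400_co.AT
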