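import Pool.Agent.Lib.MP_233400_co.AT.Stm

set_option autoImplicit false

/-!
# MP_233400_co, project AT, piece CRO: few neighbours of the image of `y`, seen from `y`
-/

namespace Pool.Agent.Lib.MP_233400_co.AT

open Finset

section

variable {n : ℕ}

/-- the condition counted in `cb` -/
def CRO_cnd (y : ℕ) (φ : ℕ → (Fin n → Bool)) (e : ℕ × ℕ) : Bool :=
  decide (e.1 ≠ y ∧ hammingDist (φ e.2) (φ y) = 1 ∧ φ e.1 ≠ φ y)

/-- the number of the edges of `L` with this condition -/
def CRO_num (y : ℕ) (L : List (ℕ × ℕ)) (φ : ℕ → (Fin n → Bool)) : ℕ :=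
  (L.filter (CRO_cnd y φ)).length

/-- the potential -/
noncomputable def CRO_G (g : ℝ) (y : ℕ) (O O' : List (ℕ × ℕ)) (φ : ℕ → (Fin n → Bool)) : ℝ :=
  2 ^ (CRO_num y (O.take (O.length - O'.length)) φ) * (1 + 2 / g) ^ O'.length

theorem CRO_lin : ∀ (pre : List (ℕ × ℕ)) (e : ℕ × ℕ) (O' : List (ℕ × ℕ)) (K : Finset ℕ),
    Lin (pre ++ e :: O') K →
      (∀ i ∈ K, i ≠ e.2) ∧ (∀ e' ∈ pre, e'.1 ≠ e.2 ∧ e'.2 ≠ e.2) ∧ e.1 ≠ e.2
  | [], e, O', K, h => by
      obtain ⟨h1, h2, h3⟩ := h
      exact ⟨fun i hi hie => h2 (hie ▸ hi), by simp, fun h => h2 (h ▸ h1)⟩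
  | a :: pre, e, O', K, h => by
      obtain ⟨h1, h2, h3⟩ := h
      obtain ⟨i1, i2, i3⟩ := CRO_lin pre e O' _ h3
      refine ⟨fun i hi => i1 i (mem_insert_of_mem hi), ?_, i3⟩
      intro e' he'
      rcases List.mem_cons.1 he' with rfl | he'
      · exact ⟨i1 _ (mem_insert_of_mem h1), i1 _ (mem_insert_self _ _)⟩
      · exact i2 e' he'

theorem CRO_step (hDWN : S_DWN) (S : Finset (Fin n → Bool))
    (f : ℕ → (Fin n → Bool) → (Fin n → Bool)) (hf : Cu S f)
    (g : ℝ) (hg : 0 < g) (y : ℕ) (O : List (ℕ × ℕ)) (K : Finset ℕ) (hy : y ∈ K) (hO : Lin O K)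
    (e : ℕ × ℕ) (O' : List (ℕ × ℕ)) (φ : ℕ → (Fin n → Bool)) (U : Finset ℕ)
    (hs : (e :: O') <:+ O) (hA : g ≤ ((act f (φ e.1) U).card : ℝ)) :
    ∑ c ∈ act f (φ e.1) U, CRO_G g y O O' (Function.update φ e.2 (f c (φ e.1))) ≤
      ((act f (φ e.1) U).card : ℝ) * CRO_G g y O (e :: O') φ := by
  obtain ⟨pre, rfl⟩ := hs
  obtain ⟨h1, h2, h3⟩ := CRO_lin pre e O' K hO
  have hye : y ≠ e.2 := h1 y hy
  have t1 : (pre ++ e :: O').take ((pre ++ e :: O').length - O'.length) = pre ++ [e] := by
    have : pre ++ e :: O' = (pre ++ [e]) ++ O' := by simp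
    rw [this]
    apply List.take_left'
    simp only [List.length_append, List.length_cons, List.length_nil]
    omega
  have t2 : (pre ++ e :: O').take ((pre ++ e :: O').length - (e :: O').length) = pre := by
    apply List.take_left'
    simp
  have hnum : ∀ x : Fin n → Bool, CRO_num y pre (Function.update φ e.2 x) = CRO_num y pre φ := by
    intro x
    unfold CRO_num
    congr 1
    apply List.filter_congr
    intro e' he'
    obtain ⟨a1, a2⟩ := h2 e' he'
    unfold CRO_cnd
    rw [Function.update_of_ne a1, Function.update_of_ne a2, Function.update_of_ne hye]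
  have hA0 : (0 : ℝ) < ((act f (φ e.1) U).card : ℝ) := lt_of_lt_of_le hg hA
  have h2g : (0 : ℝ) < 2 / g := by positivity
  -- the number of good directions
  have hcnt : ((act f (φ e.1) U).filter
      (fun c => CRO_cnd y (Function.update φ e.2 (f c (φ e.1))) e = true)).card ≤ 2 := by
    by_cases hw : φ e.1 = φ y
    · have : (act f (φ e.1) U).filter
          (fun c => CRO_cnd y (Function.update φ e.2 (f c (φ e.1))) e = true) = ∅ := by
        apply filter_false_of_mem
        intro c _ hc
        unfold CRO_cnd at hc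
        rw [decide_eq_true_iff, Function.update_of_ne h3, Function.update_of_ne hye] at hc
        exact hc.2.2 hw
      rw [this]
      simp
    · refine le_trans (card_le_card ?_) ((hDWN n S f hf g U (φ e.1) (φ y) hg hA).2 hw)
      intro c hc
      rw [mem_filter] at hc ⊢
      refine ⟨hc.1, ?_⟩
      have h := hc.2
      unfold CRO_cnd at h
      rw [decide_eq_true_iff, Function.update_self, Function.update_of_ne hye] at h
      exact h.2.1
  have hval : ∀ c ∈ act f (φ e.1) U,
      CRO_G g y (pre ++ e :: O') O' (Function.update φ e.2 (f c (φ e.1))) =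
        (2 ^ (CRO_num y pre φ) * (1 + 2 / g) ^ O'.length) *
          (1 + if CRO_cnd y (Function.update φ e.2 (f c (φ e.1))) e = true then 1 else 0) := by
    intro c _
    unfold CRO_G
    rw [t1]
    have : CRO_num y (pre ++ [e]) (Function.update φ e.2 (f c (φ e.1))) =
        CRO_num y pre φ +
          if CRO_cnd y (Function.update φ e.2 (f c (φ e.1))) e = true then 1 else 0 := by
      rw [← hnum (f c (φ e.1))]
      unfold CRO_num
      rw [List.filter_append, List.length_append]
      congr 1
      by_cases hc : CRO_cnd y (Function.update φ e.2 (f c (φ e.1))) e = true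
      · rw [if_pos hc, List.filter_cons_of_pos hc]
        simp
      · rw [if_neg hc, List.filter_cons_of_neg hc]
        simp
    rw [this]
    by_cases hc : CRO_cnd y (Function.update φ e.2 (f c (φ e.1))) e = true
    · rw [if_pos hc, if_pos hc, pow_succ]
      ring
    · rw [if_neg hc, if_neg hc]
      ring
  rw [sum_congr rfl hval, ← mul_sum, sum_add_distrib, sum_boole]
  have hG : CRO_G g y (pre ++ e :: O') (e :: O') φ =
      (2 ^ (CRO_num y pre φ) * (1 + 2 / g) ^ O'.length) * (1 + 2 / g) := by
    unfold CRO_G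
    rw [t2, List.length_cons, pow_succ]
    ring
  rw [hG, sum_const, nsmul_eq_mul, mul_one, mul_left_comm]
  apply mul_le_mul_of_nonneg_left _ (by positivity)
  have hc2 : (((act f (φ e.1) U).filter
      (fun c => CRO_cnd y (Function.update φ e.2 (f c (φ e.1))) e = true)).card : ℝ) ≤ 2 := by
    exact_mod_cast hcnt
  have hA2 : (2 : ℝ) ≤ ((act f (φ e.1) U).card : ℝ) * (2 / g) := by
    rw [mul_div_assoc', le_div_iff₀ hg]
    linarith
  linarith

theorem CRO_num_eq (S : Finset (Fin n → Bool)) (h : ℕ) (C : Finset ℕ)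
    (P : (Fin n → Bool) → List ℕ → Prop) :
    (num S h C P : ℝ) = ∑ u ∈ S, ∑ π ∈ wds h C, open Classical in (if P u π then (1 : ℝ) else 0) := by
  classical
  unfold num
  rw [card_filter, Nat.cast_sum, sum_product]
  apply sum_congr rfl
  intro u _
  apply sum_congr rfl
  intro π _
  by_cases hP : P u π
  · rw [if_pos hP, if_pos hP]
    simp
  · rw [if_neg hP, if_neg hP]
    simp

end

theorem P_CRO : S_WDS → S_SCH → S_RUN → S_SUP → S_DWN → S_CRO := by
  intro hWDS hSCH _ hSUP hDWN n S f hf C p hp k y h g t hk hyk hg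
  classical
  obtain ⟨W1, W2, W3, W4⟩ := hWDS
  obtain ⟨s1, s2, s3, s4, s5, s6, s7⟩ := hSCH p hp k y hyk
  have h2g : (0 : ℝ) < 2 / g := by positivity
  cases h with
  | zero =>
    have h0 : num S 0 C (fun u π => ∃ φ, Fi f p k y u π φ ∧ Gd f g k φ (C \ π.toFinset) ∧
        t < (cb p k y φ : ℝ)) = 0 := by
      unfold num
      rw [card_eq_zero]
      apply filter_false_of_mem
      rintro ⟨u, π⟩ hx ⟨φ, ⟨hd, _⟩, _⟩
      rw [mem_product] at hx
      have : π = [] := by
        have := hx.2
        simp only [wds, mem_singleton] at this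
        exact this
      obtain ⟨c, W', hW, _⟩ := hd
      simp only at hW
      rw [this] at hW
      cases hW
    rw [h0]
    simp only [Nat.cast_zero]
    positivity
  | succ h =>
    obtain ⟨v, O, hsch⟩ := s4 hk
    have hLin : Lin O (insert v {y}) := by
      rw [hsch] at s1
      exact s1.2.2
    have hlen : O.length = k - 1 := by
      rw [hsch, List.length_cons] at s5
      omega
    have hrew : ∀ φ : ℕ → (Fin n → Bool), cb p k y φ = CRO_num y O φ := by
      intro φ
      unfold cb CRO_num
      rw [hsch]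
      rw [List.filter_cons_of_neg (by simp)]
      rfl
    set rew : (ℕ → (Fin n → Bool)) → ℝ := fun φ => 2 ^ (CRO_num y O φ) with hrewdef
    have key := hSUP (Fin n → Bool) f g rew O (insert v {y}) (CRO_G g y O) hg hLin
      (fun φ => by rw [hrewdef]; positivity)
      (fun O' φ => by unfold CRO_G; positivity)
      (fun φ => by
        rw [hrewdef]
        unfold CRO_G
        simp)
      (fun e O' φ U hs hA => CRO_step hDWN S f hf g hg y O (insert v {y}) (by simp) hLin e O' φ U hs hA)
    have hG0 : ∀ φ : ℕ → (Fin n → Bool), CRO_G g y O O φ ≤ (1 + 2 / g) ^ k := by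
      intro φ
      unfold CRO_G
      rw [Nat.sub_self, List.take_zero]
      have : CRO_num y [] φ = 0 := rfl
      rw [this, pow_zero, one_mul, hlen]
      exact pow_le_pow_right₀ (by linarith) (by omega)
    -- a single word
    have hone : ∀ u ∈ S, ∀ c ∈ C, ∀ π ∈ wds h (C.erase c),
        (if ∃ φ, Fi f p k y u (c :: π) φ ∧ Gd f g k φ (C \ (c :: π).toFinset) ∧
          t < (cb p k y φ : ℝ) then (1 : ℝ) else 0) ≤
        if f c u ≠ u then (2 : ℝ) ^ (-t) *
          gv f g rew O (C.erase c) (Function.update (fun _ => u) v (f c u)) π else 0 := by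
      intro u _ c _ π _
      have hgv0 : 0 ≤ gv f g rew O (C.erase c) (Function.update (fun _ => u) v (f c u)) π := by
        unfold gv
        split
        · exact le_refl _
        · split
          · rw [hrewdef]; positivity
          · exact le_refl _
      by_cases hP : ∃ φ, Fi f p k y u (c :: π) φ ∧ Gd f g k φ (C \ (c :: π).toFinset) ∧
          t < (cb p k y φ : ℝ)
      · rw [if_pos hP]
        obtain ⟨φ, ⟨hd, hrun⟩, hgd, ht⟩ := hP
        have hcu : f c u ≠ u := by
          obtain ⟨c', W', hW, hc'⟩ := hd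
          rw [List.cons.injEq] at hW
          rw [hW.1]
          exact hc'
        rw [if_pos hcu]
        rw [hsch] at hrun
        unfold run at hrun
        rw [if_neg (by simpa using hcu)] at hrun
        have hCs : C \ (c :: π).toFinset = (C.erase c) \ π.toFinset := by
          ext a
          simp only [mem_sdiff, List.mem_toFinset, List.mem_cons, mem_erase, not_or]
          tauto
        have hgv : gv f g rew O (C.erase c) (Function.update (fun _ => u) v (f c u)) π =
            2 ^ (cb p k y φ) := by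
          unfold gv
          simp only at hrun
          rw [hrun]
          simp only
          rw [if_pos, hrewdef, hrew]
          intro e he
          rw [← hCs]
          exact hgd e.1 (s3 e (by rw [hsch]; exact List.mem_cons_of_mem _ he)).1
        rw [hgv, ← Real.rpow_natCast, ← Real.rpow_add (by norm_num)]
        apply Real.one_le_rpow (by norm_num)
        linarith
      · rw [if_neg hP]
        split
        · positivity
        · exact le_refl _
    have hpos : (0 : ℝ) < (2 : ℝ) ^ (-t) := by positivity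
    have hu : ∀ u ∈ S, ∑ π ∈ wds (h + 1) C,
        (if ∃ φ, Fi f p k y u π φ ∧ Gd f g k φ (C \ π.toFinset) ∧
          t < (cb p k y φ : ℝ) then (1 : ℝ) else 0) ≤
        (2 : ℝ) ^ (-t) * (1 + 2 / g) ^ k * (((act f u C).card : ℝ) *
          ((C.card - 1).descFactorial h : ℝ)) := by
      intro u huS
      rw [W3 h C]
      have hc : ∀ c ∈ C, ∑ π ∈ wds h (C.erase c),
          (if ∃ φ, Fi f p k y u (c :: π) φ ∧ Gd f g k φ (C \ (c :: π).toFinset) ∧
            t < (cb p k y φ : ℝ) then (1 : ℝ) else 0) ≤
          if f c u ≠ u then (2 : ℝ) ^ (-t) * (1 + 2 / g) ^ k *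
            ((C.card - 1).descFactorial h : ℝ) else 0 := by
        intro c hc
        refine le_trans (sum_le_sum (fun π hπ => hone u huS c hc π hπ)) ?_
        by_cases hcu : f c u ≠ u
        · simp only [if_pos hcu]
          rw [← mul_sum, mul_assoc]
          apply mul_le_mul_of_nonneg_left _ hpos.le
          refine le_trans (key h (C.erase c) _) ?_
          rw [W2, card_erase_of_mem hc, mul_comm]
          apply mul_le_mul_of_nonneg_right (hG0 _) (by positivity)
        · simp only [if_neg hcu]
          simp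
      refine le_trans (sum_le_sum hc) ?_
      rw [← sum_filter]
      rw [sum_const, nsmul_eq_mul]
      apply le_of_eq
      unfold act
      ring
    rw [CRO_num_eq]
    refine le_trans (sum_le_sum (fun u hu' => ?_)) (?_ : ∑ u ∈ S,
        (2 : ℝ) ^ (-t) * (1 + 2 / g) ^ k * (((act f u C).card : ℝ) *
          ((C.card - 1).descFactorial h : ℝ)) ≤ _)
    · exact hu u hu'
    · rw [W4 (Fin n → Bool) f S h C, ← mul_sum, ← sum_mul]
      push_cast
      exact le_refl _

end Pool.Agent.Lib.MP_233400_co.AT
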