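import Pool.Agent.Lib.MP_233400_co.AT.Stm

set_option autoImplicit false

namespace Pool.Agent.Lib.MP_233400_co.AT

open Finset

theorem CSU_le {p : ℕ → ℕ} (hp : Par p) (v : ℕ) : p v ≤ v := by
  rcases Nat.eq_zero_or_pos v with h | h
  · rw [h, hp.zero]
  · exact (hp.lt v h).le

theorem CSU_anti {p : ℕ → ℕ} (hp : Par p) (x i : ℕ) : ∀ d, p^[i + d] x ≤ p^[i] x
  | 0 => le_rfl
  | d + 1 => by
    rw [← Nat.add_assoc, Function.iterate_succ_apply']
    exact le_trans (CSU_le hp _) (CSU_anti hp x i d)

theorem CSU_dT (hA : S_ANC) {p : ℕ → ℕ} (hp : Par p) (k x y i : ℕ) (hx : x ≤ k) :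
    ∀ d, y < p^[i + d] x → dT p k (p^[i] x) y = dT p k (p^[i + d + 1] x) y + (d + 1)
  | 0, h => by
    have h1 : p^[i] x ≤ k := le_trans (by simpa using CSU_anti hp x 0 i) hx
    have h2 : y < p^[i] x := by simpa using h
    have h3 := ((hA p hp k (p^[i] x) y h1 (by omega)).2.2.2.1 h2).1
    rw [h3]
    simp only [Nat.add_zero, Function.iterate_succ_apply']
  | d + 1, h => by
    have h0 : y < p^[i + d] x := lt_of_lt_of_le h (by simpa [Nat.add_assoc] using CSU_anti hp x (i + d) 1)
    have ih := CSU_dT hA hp k x y i hx d h0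
    have h1 : p^[i + d + 1] x ≤ k :=
      le_trans (by simpa using CSU_anti hp x 0 (i + d + 1)) hx
    have h2 : y < p^[i + d + 1] x := h
    have h3 := ((hA p hp k (p^[i + d + 1] x) y h1 (by omega)).2.2.2.1 h2).1
    rw [← Function.iterate_succ_apply' p (i + d + 1) x] at h3
    rw [ih, h3]
    have h4 : (i + d + 1).succ = i + (d + 1) + 1 := by omega
    rw [h4]
    omega

theorem CSU_one (hA : S_ANC) {p : ℕ → ℕ} (hp : Par p) (k x y : ℕ) (hx : x ≤ k) :
    ((range (k + 1)).filter (fun i => y < p^[i] x ∧ dT p k (p (p^[i] x)) y = 3)).card ≤ 1 := by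
  rw [Finset.card_le_one]
  have key : ∀ i j, i < j → y < p^[j] x → dT p k (p (p^[i] x)) y = 3 →
      dT p k (p (p^[j] x)) y = 3 → False := by
    intro i j hij hy h1 h2
    obtain ⟨d, rfl⟩ := Nat.exists_eq_add_of_lt hij
    rw [← Function.iterate_succ_apply' p i x] at h1
    rw [← Function.iterate_succ_apply' p _ x] at h2
    have e1 : i + d + 1 = i.succ + d := by omega
    rw [e1] at hy
    have h3 := CSU_dT hA hp k x y i.succ hx d hy
    have e2 : i.succ + d + 1 = (i + d + 1).succ := by omega
    rw [h1, e2, h2] at h3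
    omega
  intro i hi j hj
  rw [mem_filter] at hi hj
  by_contra hne
  rcases lt_or_gt_of_ne hne with h | h
  · exact key i j h hj.2.1 hi.2.2 hj.2.2
  · exact key j i h hi.2.1 hj.2.2 hi.2.2

theorem P_CSU : S_ANC → S_CSU := by
  intro hA p hp k b β₁ β₂ h1 h2 hb1 hb2
  have main : ∀ x ∈ range (k + 1),
      ∑ i ∈ range (k + 1), ∑ y ∈ range (p^[i] x), b (p^[i] x) y ≤
        ((k : ℝ) + 1) * β₁ + ((k : ℝ) + 1) ^ 2 * β₂ := by
    intro x hx
    have hxk : x ≤ k := by
      have := mem_range.1 hx
      omega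
    have hle : ∀ i, p^[i] x ≤ k := fun i => le_trans (by simpa using CSU_anti hp x 0 i) hxk
    have step1 : ∀ i ∈ range (k + 1), ∑ y ∈ range (p^[i] x), b (p^[i] x) y ≤
        ∑ y ∈ range (k + 1), ((if y < p^[i] x ∧ dT p k (p (p^[i] x)) y = 3 then β₁ else 0) + β₂) := by
      intro i _
      have hsub : range (p^[i] x) ⊆ range (k + 1) := by
        intro y hy
        have := mem_range.1 hy
        have := hle i
        exact mem_range.2 (by omega)
      refine le_trans (Finset.sum_le_sum (f := fun y => b (p^[i] x) y)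
        (g := fun y => (if y < p^[i] x ∧ dT p k (p (p^[i] x)) y = 3 then β₁ else 0) + β₂) ?_)
        (Finset.sum_le_sum_of_subset_of_nonneg hsub ?_)
      · intro y hy
        have hy' := mem_range.1 hy
        by_cases h : dT p k (p (p^[i] x)) y = 3
        · rw [if_pos ⟨hy', h⟩]
          have := hb1 _ (hle i) y hy' h
          linarith
        · rw [if_neg (fun h' => h h'.2), zero_add]
          exact hb2 _ (hle i) y hy' h
      · intro y _ _
        split_ifs <;> linarith
    refine le_trans (Finset.sum_le_sum step1) ?_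
    rw [Finset.sum_comm]
    have step2 : ∀ y ∈ range (k + 1),
        ∑ i ∈ range (k + 1), ((if y < p^[i] x ∧ dT p k (p (p^[i] x)) y = 3 then β₁ else 0) + β₂) ≤
          β₁ + ((k : ℝ) + 1) * β₂ := by
      intro y _
      rw [Finset.sum_add_distrib, ← Finset.sum_filter, Finset.sum_const, Finset.sum_const,
        nsmul_eq_mul, nsmul_eq_mul, card_range]
      have h3 : ((((range (k + 1)).filter
          (fun i => y < p^[i] x ∧ dT p k (p (p^[i] x)) y = 3)).card : ℕ) : ℝ) ≤ 1 := by
        exact_mod_cast CSU_one hA hp k x y hxk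
      have h4 := mul_le_mul_of_nonneg_right h3 h1
      push_cast
      linarith
    refine le_trans (Finset.sum_le_sum step2) (le_of_eq ?_)
    rw [Finset.sum_const, nsmul_eq_mul, card_range]
    push_cast
    ring
  refine le_trans (Finset.sum_le_sum main) (le_of_eq ?_)
  rw [Finset.sum_const, nsmul_eq_mul, card_range]
  push_cast
  ring

end Pool.Agent.Lib.MP_233400_co.AT
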