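import Pool.Agent.Lib.MP_233400_co.AT.Stm

set_option autoImplicit false

/-! # MP_233400_co, project AT, piece DWN -/

namespace Pool.Agent.Lib.MP_233400_co.AT

open Finset

theorem DWN_coord {n : ℕ} {x y : Fin n → Bool} (h : hammingDist x y = 1) :
    ∃ j, x j ≠ y j ∧ ∀ i, i ≠ j → x i = y i := by
  unfold hammingDist at h
  obtain ⟨j, hj⟩ := Finset.card_eq_one.1 h
  refine ⟨j, ?_, fun i hi => ?_⟩
  · have : j ∈ (Finset.univ.filter fun i => x i ≠ y i) := by
      rw [hj]
      exact Finset.mem_singleton_self j
    exact (Finset.mem_filter.1 this).2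
  · by_contra hcon
    have : i ∈ (Finset.univ.filter fun i => x i ≠ y i) :=
      Finset.mem_filter.2 ⟨Finset.mem_univ _, hcon⟩
    rw [hj, Finset.mem_singleton] at this
    exact hi this

theorem DWN_down {n : ℕ} {w y z : Fin n → Bool} {j : Fin n} (h1 : w j ≠ y j)
    (h2 : ∀ i, i ≠ j → w i = y i) (h : w j ≠ z j) :
    hammingDist y z = hammingDist w z - 1 := by
  unfold hammingDist
  have e : (Finset.univ.filter fun i => y i ≠ z i) =
      (Finset.univ.filter fun i => w i ≠ z i).erase j := by
    ext i
    simp only [Finset.mem_filter, Finset.mem_univ, true_and, Finset.mem_erase]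
    by_cases hi : i = j
    · subst hi
      simp only [ne_eq, not_true_eq_false, false_and, iff_false, not_not]
      revert h1 h
      cases w i <;> cases y i <;> cases z i <;> simp
    · rw [h2 i hi]
      simp [hi]
  have hm : j ∈ (Finset.univ.filter fun i => w i ≠ z i) := by
    simp only [Finset.mem_filter, Finset.mem_univ, true_and]
    exact h
  rw [e, Finset.card_erase_of_mem hm]

theorem DWN_up {n : ℕ} {w y z : Fin n → Bool} {j : Fin n} (h1 : w j ≠ y j)
    (h2 : ∀ i, i ≠ j → w i = y i) (h : w j = z j) :
    hammingDist y z = hammingDist w z + 1 := by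
  unfold hammingDist
  have e : (Finset.univ.filter fun i => y i ≠ z i) =
      insert j (Finset.univ.filter fun i => w i ≠ z i) := by
    ext i
    simp only [Finset.mem_filter, Finset.mem_univ, true_and, Finset.mem_insert]
    by_cases hi : i = j
    · subst hi
      simp only [true_or, iff_true]
      rw [← h]
      exact fun h0 => h1 h0.symm
    · rw [h2 i hi]
      simp [hi]
  rw [e, Finset.card_insert_of_notMem]
  intro h0
  exact (Finset.mem_filter.1 h0).2 h

theorem P_DWN : S_DWN := by
  classical
  intro n S f hCu g U w z hg hgA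
  set A := act f w U with hA
  have hact : ∀ c ∈ A, f c w ≠ w := fun c hc => (Finset.mem_filter.1 hc).2
  have hch : ∀ c ∈ A, ∃ i, w i ≠ f c w i ∧ ∀ l, l ≠ i → w l = f c w l := fun c hc =>
    DWN_coord (hCu.one c w (hact c hc))
  have hAne : A.Nonempty := by
    rcases A.eq_empty_or_nonempty with h | h
    · exfalso
      rw [h, Finset.card_empty, Nat.cast_zero] at hgA
      linarith
    · exact h
  have hne : Nonempty (Fin n) := by
    obtain ⟨c, hc⟩ := hAne
    obtain ⟨i, -⟩ := hch c hc
    exact ⟨i⟩
  choose! J hJ1 hJ2 using hch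
  set A1 := A.filter (fun c => w (J c) ≠ z (J c)) with hA1
  have hN : A1.card ≤ hammingDist w z := by
    unfold hammingDist
    refine Finset.card_le_card_of_injOn J ?_ ?_
    · intro c hc
      have := Finset.mem_filter.1 hc
      exact Finset.mem_coe.2 (Finset.mem_filter.2 ⟨Finset.mem_univ _, this.2⟩)
    · intro c hc c' hc' h
      have h1 := (Finset.mem_filter.1 hc).1
      have h2 := (Finset.mem_filter.1 hc').1
      refine hCu.inj c c' w (hact c h1) ?_
      funext l
      by_cases hl : l = J c
      · subst hl
        have e1 := hJ1 c h1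
        have e2 := hJ1 c' h2
        rw [← h] at e2
        revert e1 e2
        cases w (J c) <;> cases f c w (J c) <;> cases f c' w (J c) <;> simp
      · rw [← hJ2 c h1 l hl, ← hJ2 c' h2 l (by rw [← h]; exact hl)]
  refine ⟨fun F => ?_, fun hwz => ?_⟩
  · have e1 : ∀ c ∈ A, F (hammingDist (f c w) z) =
        if w (J c) ≠ z (J c) then F (hammingDist w z - 1) else F (hammingDist w z + 1) := by
      intro c hc
      split_ifs with h
      · rw [DWN_down (hJ1 c hc) (hJ2 c hc) h]
      · rw [DWN_up (hJ1 c hc) (hJ2 c hc) (not_not.1 h)]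
    rw [Finset.sum_congr rfl e1, Finset.sum_ite, Finset.sum_const, Finset.sum_const, nsmul_eq_mul,
      nsmul_eq_mul, ← hA1]
    have e2 : ((A.filter (fun c => ¬ w (J c) ≠ z (J c))).card : ℝ) = A.card - A1.card := by
      have := Finset.card_filter_add_card_filter_not (s := A) (fun c => w (J c) ≠ z (J c))
      rw [← hA1] at this
      rw [← this]
      push_cast
      ring
    rw [e2]
    have hNa : (A1.card : ℝ) ≤ A.card := by
      exact_mod_cast Finset.card_filter_le _ _
    have hND : (A1.card : ℝ) ≤ hammingDist w z := by exact_mod_cast hN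
    have hmin : (A1.card : ℝ) ≤ A.card * min 1 ((hammingDist w z : ℝ) / g) := by
      rcases min_choice 1 ((hammingDist w z : ℝ) / g) with h | h
      · rw [h, mul_one]
        exact hNa
      · rw [h]
        refine hND.trans ?_
        rw [mul_div_assoc', le_div_iff₀ hg]
        have h0 : (0 : ℝ) ≤ hammingDist w z := by positivity
        nlinarith
    have hx : F (hammingDist w z - 1) - F (hammingDist w z + 1) ≤
        max 0 (F (hammingDist w z - 1) - F (hammingDist w z + 1)) := le_max_right _ _
    have h0 : (0 : ℝ) ≤ max 0 (F (hammingDist w z - 1) - F (hammingDist w z + 1)) := le_max_left _ _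
    have h3 : (A1.card : ℝ) * (F (hammingDist w z - 1) - F (hammingDist w z + 1)) ≤
        A.card * min 1 ((hammingDist w z : ℝ) / g) *
          max 0 (F (hammingDist w z - 1) - F (hammingDist w z + 1)) :=
      (mul_le_mul_of_nonneg_left hx (by positivity)).trans (mul_le_mul_of_nonneg_right hmin h0)
    linarith
  · rcases (A.filter (fun c => hammingDist (f c w) z = 1)).eq_empty_or_nonempty with h | ⟨c, hc⟩
    · rw [h]
      simp
    · have hpos : 0 < hammingDist w z := hammingDist_pos.2 hwz
      have hsub : A.filter (fun c => hammingDist (f c w) z = 1) ⊆ A1 := by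
        intro c hc
        obtain ⟨h1, h2⟩ := Finset.mem_filter.1 hc
        refine Finset.mem_filter.2 ⟨h1, fun h3 => ?_⟩
        rw [DWN_up (hJ1 c h1) (hJ2 c h1) h3] at h2
        omega
      have hD : hammingDist w z = 2 := by
        obtain ⟨h1, h2⟩ := Finset.mem_filter.1 hc
        have h3 := (Finset.mem_filter.1 (hsub hc)).2
        rw [DWN_down (hJ1 c h1) (hJ2 c h1) h3] at h2
        omega
      exact (Finset.card_le_card hsub).trans (hN.trans hD.le)

end Pool.Agent.Lib.MP_233400_co.AT
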