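import Pool.Agent.Lib.MP_233400_co.AT.Stm

set_option autoImplicit false

/-!
# [AT EOF] the labels without collisions among the ancestors (helper98)
-/

namespace Pool.Agent.Lib.MP_233400_co.AT

open Finset

theorem EOF_mem {X : Type} [DecidableEq X] {p : ℕ → ℕ} {k : ℕ} {φ : ℕ → X} {x : ℕ} :
    x ∈ Eo p k φ ↔ x < k + 1 ∧ ∀ i < k + 1, ∀ y < p^[i] x, φ y ≠ φ (p^[i] x) := by
  unfold Eo
  refine (@Finset.mem_filter _ _ (_) _ _).trans ?_
  rw [Finset.mem_range]
  refine and_congr_right (fun _ => ?_)
  constructor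
  · intro h i hi y hy
    exact h i (Finset.mem_range.mpr hi) y (Finset.mem_range.mpr hy)
  · intro h i hi y hy
    exact h i (Finset.mem_range.mp hi) y (Finset.mem_range.mp hy)

theorem EOF_iter {p : ℕ → ℕ} (hp : Par p) (v i : ℕ) : p^[i] v ≤ v - i := by
  induction i with
  | zero => simp
  | succ i ih =>
    rw [Function.iterate_succ_apply']
    rcases Nat.eq_zero_or_pos (p^[i] v) with h | h
    · rw [h, hp.zero]
      exact Nat.zero_le _
    · have := hp.lt _ h
      omega

theorem P_EOF : S_EOF := by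
  intro X _ p hp k φ
  refine ⟨?_, ?_, ?_, ?_, ?_⟩
  · intro x hx
    exact Finset.mem_range.mpr (EOF_mem.mp hx).1
  · rw [EOF_mem]
    refine ⟨by omega, fun i _ y hy => ?_⟩
    have h1 : p^[i] 0 = 0 := Function.iterate_fixed hp.zero i
    omega
  · intro v hv
    obtain ⟨h1, h2⟩ := EOF_mem.mp hv
    rw [EOF_mem]
    constructor
    · rcases Nat.eq_zero_or_pos v with h | h
      · rw [h, hp.zero]
        omega
      · have := hp.lt v h
        omega
    · intro i hi y hy
      rw [← Function.iterate_succ_apply] at hy ⊢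
      by_cases hik : i + 1 < k + 1
      · exact h2 (i + 1) hik y hy
      · have h3 := EOF_iter hp v (i + 1)
        change y < p^[i + 1] v at hy
        omega
  · intro x hx y hy hxy
    rw [Finset.mem_coe] at hx hy
    obtain ⟨hx1, hx2⟩ := EOF_mem.mp hx
    obtain ⟨hy1, hy2⟩ := EOF_mem.mp hy
    rcases lt_trichotomy x y with h | h | h
    · exact absurd hxy (hy2 0 (by omega) x h)
    · exact h
    · exact absurd hxy.symm (hx2 0 (by omega) y h)
  · rw [Finset.card_eq_sum_ones]
    refine le_trans (Finset.sum_le_sum (g := fun x => ∑ i ∈ range (k + 1),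
      ∑ y ∈ range (p^[i] x), if φ y = φ (p^[i] x) then 1 else 0) ?_) ?_
    · intro x hx
      rw [Finset.mem_sdiff, Finset.mem_range, EOF_mem] at hx
      obtain ⟨hxk, hx2⟩ := hx
      have h3 : ∃ i < k + 1, ∃ y < p^[i] x, φ y = φ (p^[i] x) := by
        by_contra hcon
        push Not at hcon
        exact hx2 ⟨hxk, hcon⟩
      obtain ⟨i, hi, y, hy, hxy⟩ := h3
      calc 1 = (if φ y = φ (p^[i] x) then 1 else 0) := by rw [if_pos hxy]
        _ ≤ ∑ y ∈ range (p^[i] x), if φ y = φ (p^[i] x) then 1 else 0 :=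
          Finset.single_le_sum (f := fun y => if φ y = φ (p^[i] x) then 1 else 0)
            (fun _ _ => Nat.zero_le _) (Finset.mem_range.mpr hy)
        _ ≤ _ :=
          Finset.single_le_sum (f := fun i => ∑ y ∈ range (p^[i] x),
            if φ y = φ (p^[i] x) then 1 else 0) (fun _ _ => Nat.zero_le _)
            (Finset.mem_range.mpr hi)
    · exact Finset.sum_le_sum_of_subset Finset.sdiff_subset

end Pool.Agent.Lib.MP_233400_co.AT
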