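import Pool.Agent.Lib.MP_233400_co.AT.Defs

set_option autoImplicit false

/-!
# MP_233400_co, project AT: the asymptotic conjecture for ALL trees (helper78)

Aim: there is a constant `K` with `ex*(Q_n, T) ≤ ex*(Q_n, K_{1,k}) + K k ^ (4/5) 2 ^ n` for all `n` and
all trees `T` with `k` edges; and (exact, in every graph): a properly coloured graph of average degree
more than `k - 1` has for every tree `T` with `k` edges a homomorphism from `T` under which the edges of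
`T` get different colours.

Plan. The labels `0, …, k` are embedded in this order, each waits at the image of its parent for the
first colour present there that fires (colours fire in a random order; the first two labels are the
ends of a random directed edge and its colour is the first letter). Heart (`S_LOC`): for every root
`y` there is a bijection between the words for the root `0` and the words for the root `y` with the
same final map `φ` and the same letters. So (1) waiting for a label `j` at the image of `z = p j` with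
the list `R` of skipped colours: put `R` in front of the word for the root `z`: all these states
(start, word, time) inject into the pairs (vertex, word), hence the process ends with positive
probability if the average degree is more than `k - 1` (`S_CNT`). (2) The end of the process can be seen
from every label `y`: the image of `y` is the start of the run (`S_TRA`). In the cube, with `r` colours
reserved at the end, collisions `φ q = φ y` are seen from `q`: the walk on the path of the tree from `q`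
to `y` would have to come back (`S_COL`), and there are on average only `O(1)` labels below collisions;
they are re-embedded greedily with the reserved colours (`S_REP`).
Pieces: `AT/P_<name>.lean`, `theorem P_<name> : S_<hyp> → … → S_<name>` (the used pieces as hypotheses in
the order in which the docstring names them), auxiliary lemmas with the prefix `<name>_`.
-/

namespace Pool.Agent.Lib.MP_233400_co.AT

open Finset

/-! ## The heart (any graph) -/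

/-- [AT WDS] words.

Proof. (1) induction on `h` (`mem_biUnion`, `mem_image`; `a ∈ C.erase c`). (2) the union is disjoint
(first letters) and `cons` is injective: `C.card * (C.card - 1).descFactorial h =
C.card.descFactorial (h + 1)` (`Nat.succ_descFactorial_succ`). (3) `sum_biUnion`, `sum_image`.
(4) for `u` fixed the words are the `c :: π`, `c ∈ act f u C`, `π ∈ wds h (C.erase c)`
(`card_filter` on the product as a double sum, then (3) with `F = if Hd then 1 else 0`). -/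
def S_WDS : Prop :=
  (∀ (h : ℕ) (C : Finset ℕ) (π : List ℕ),
    π ∈ wds h C ↔ π.Nodup ∧ π.length = h ∧ ∀ a ∈ π, a ∈ C) ∧
  (∀ (h : ℕ) (C : Finset ℕ), (wds h C).card = C.card.descFactorial h) ∧
  (∀ (h : ℕ) (C : Finset ℕ) (F : List ℕ → ℝ),
    ∑ π ∈ wds (h + 1) C, F π = ∑ c ∈ C, ∑ π ∈ wds h (C.erase c), F (c :: π)) ∧
  (∀ (X : Type) [DecidableEq X] (f : ℕ → X → X) (S : Finset X) (h : ℕ) (C : Finset ℕ),
    num S (h + 1) C (fun u π => Hd f u π) =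
      (∑ u ∈ S, (act f u C).card) * (C.card - 1).descFactorial h)

/-- [AT SCH] the schedule.

Proof. All parts by induction on `J` (for all `y ≤ J`), with the two cases of the definition; in the
case `y = J + 1` the induction hypothesis is used for `p (J + 1) ≤ J`. (1) `Lin (O ++ [e]) K` if `Lin O K`,
`e.1 ∈ K ∪ (second ends of O)` and `e.2 ∉ K ∪ (second ends of O)`; `Lin O (insert a K)` if `Lin O K` and
`a` is not a second end of `O` (all labels in `sch p J y` are `≤ J`). In the case `y = J + 1`, `z = p (J+1)`: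
`Lin ((J + 1, z) :: sch p J z) {J + 1}` needs `z ∉ {J + 1}` and `Lin (sch p J z) {z, J + 1}`.
(4) `J = 0` is excluded; for `J = 1`, `y = 0`: `sch p 1 0 = [(p 1, 1)]`, `p 1 = 0`. (6) from the
definition. (7): `sch p k q = sch p q q ++ (edges (p i, i), i = q + 1, …, k)`. -/
def S_SCH : Prop := ∀ (p : ℕ → ℕ), Par p → ∀ J y : ℕ, y ≤ J →
  Lin (sch p J y) {y} ∧
  (∀ i ≤ J, i ≠ y → ∃ e ∈ sch p J y, e.2 = i) ∧
  (∀ e ∈ sch p J y, e.1 ≤ J ∧ e.2 ≤ J ∧ ((1 ≤ e.2 ∧ e.1 = p e.2) ∨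
    (1 ≤ e.1 ∧ e.2 = p e.1 ∧ ∃ i, e.1 = p^[i] y))) ∧
  (1 ≤ J → ∃ (v : ℕ) (O : List (ℕ × ℕ)), sch p J y = (y, v) :: O) ∧
  (sch p J y).length = J ∧
  sch p (J + 1) y = sch p J y ++ [(p (J + 1), J + 1)] ∧
  (1 ≤ y → ∃ O : List (ℕ × ℕ), sch p J y = (y, p y) :: O)

/-- [AT EXL] the relation `Ex`.

Proof. (1) induction on `W` (for all `O`). (2) induction on `W`. (3) induction on `W`. (4) induction on
`W`, for all `O`, `K`, `W'`: if `O = []`, `W = W' = []`. If `O = e :: O'` then `W = b :: _`, `W' = b' :: _`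
and `b = b'`; `φ e.1 = ψ e.1` because `e.1 ∈ K`; either both skip `b`, or both accept it, then
`φ e.2 = f b (φ e.1) = ψ e.2` and the induction hypothesis applies to `O'`, `insert e.2 K`. (5) induction
on `R`: a letter with `f b (φ e.1) = φ e.1` can only be skipped. (6) from (5) with (4), or directly:
induction on `R`: the first letter of `W` is not skipped by `φ e.1` but those of `R'` are. -/
def S_EXL : Prop := ∀ (X : Type) [DecidableEq X] (f : ℕ → X → X),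
  (∀ (φ : ℕ → X) (O O' : List (ℕ × ℕ)) (W : List ℕ), Ex f φ (O ++ O') W ↔
    ∃ W₁ W₂, W = W₁ ++ W₂ ∧ Ex f φ O W₁ ∧ Ex f φ O' W₂) ∧
  (∀ (φ : ℕ → X) (e : ℕ × ℕ) (W : List ℕ), Ex f φ [e] W ↔
    ∃ (R : List ℕ) (a : ℕ), W = R ++ [a] ∧ (∀ b ∈ R, f b (φ e.1) = φ e.1) ∧
      f a (φ e.1) ≠ φ e.1 ∧ f a (φ e.1) = φ e.2) ∧
  (∀ (φ ψ : ℕ → X) (O : List (ℕ × ℕ)) (W : List ℕ), (∀ e ∈ O, φ e.1 = ψ e.1 ∧ φ e.2 = ψ e.2) →
    Ex f φ O W → Ex f ψ O W) ∧
  (∀ (φ ψ : ℕ → X) (O : List (ℕ × ℕ)) (K : Finset ℕ) (W W' σ σ' : List ℕ), Lin O K →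
    (∀ i ∈ K, φ i = ψ i) → Ex f φ O W → Ex f ψ O W' → W ++ σ = W' ++ σ' →
    W = W' ∧ σ = σ' ∧ ∀ e ∈ O, φ e.2 = ψ e.2) ∧
  (∀ (φ : ℕ → X) (e : ℕ × ℕ) (O : List (ℕ × ℕ)) (R W : List ℕ), (∀ b ∈ R, f b (φ e.1) = φ e.1) →
    (Ex f φ (e :: O) (R ++ W) ↔ Ex f φ (e :: O) W)) ∧
  (∀ (u : X) (R R' W W' : List ℕ), (∀ b ∈ R, f b u = u) → (∀ b ∈ R', f b u = u) → Hd f u W →
    Hd f u W' → R ++ W = R' ++ W' → R = R' ∧ W = W')

/-- [AT DET] the word and the image of the root determine the map (Uses `S_SCH`, `S_EXL`.)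

Proof. `S_EXL` (4) with `O = sch p J y`, `K = {y}` and `S_SCH` (1), (2). -/
def S_DET : Prop := ∀ (X : Type) [DecidableEq X] (f : ℕ → X → X) (p : ℕ → ℕ), Par p →
  ∀ (J y : ℕ), y ≤ J → ∀ (φ ψ : ℕ → X) (W W' σ σ' : List ℕ), φ y = ψ y →
  Ex f φ (sch p J y) W → Ex f ψ (sch p J y) W' → W ++ σ = W' ++ σ' →
  W = W' ∧ σ = σ' ∧ ∀ i ≤ J, φ i = ψ i

/-- [AT LOC] THE HEART: change of the root, for a fixed final map (Uses `S_SCH`, `S_EXL`, `S_DET`.)

Proof. Induction on `J`. `J = 1`: for `y = 0` take `Ψ = id`. For `y = 1`: `sch p 1 0 = [(0, 1)]`,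
`sch p 1 1 = [(1, 0)]` (`p 1 = 0`); a word for the root `0` begins with a letter which is a colour at `φ 0`,
so it is `[c]` with `f c (φ 0) = φ 1 ≠ φ 0`, and then `f c (φ 1) = f c (f c (φ 0)) = φ 0 ≠ φ 1`: again
`Ψ = id`. Step `J → J + 1`, `z = p (J + 1) ≤ J`: `sch p (J + 1) 0 = sch p J 0 ++ [(z, J + 1)]`, so by `S_EXL`
(1), (2) a word `W` for the root `0` is `W₁ ++ (R ++ [a])` with `ER f φ p J 0 W₁`, all letters `b` of `R`
satisfy `f b (φ z) = φ z`, and `f a (φ z) = φ (J + 1) ≠ φ z`; choose such `W₁, R, a` for every `W`.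
Case `y ≤ J`: `Ψ W = Ψ_y W₁ ++ (R ++ [a])` (`Ψ_y` from the induction hypothesis). Injective: if
`Ψ_y W₁ ++ (R ++ [a]) = Ψ_y W₁' ++ (R' ++ [a'])` then by `S_DET` (for `φ = ψ`) `Ψ_y W₁ = Ψ_y W₁'` and
`R ++ [a] = R' ++ [a']`, so `W₁ = W₁'`, and `W = W'`. Case `y = J + 1`: `sch p (J + 1) (J + 1) =
(J + 1, z) :: sch p J z`. `Ψ W = a :: (R ++ Ψ_z W₁)`. It is a word for the root `J + 1`: `a` is accepted
(`f a (φ (J + 1)) = f a (f a (φ z)) = φ z ≠ φ (J + 1)`), the first edge of `sch p J z` is `(z, _)`, so the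
letters of `R` are skipped (`S_EXL` (5)), and `Ψ_z W₁` is a word for the root `z`. Injective: equal heads
`a = a'`, then `S_EXL` (6) with `u = φ z` (`Hd f (φ z) (Ψ_z W₁)` is part of `ER`): `R = R'`,
`Ψ_z W₁ = Ψ_z W₁'`, so `W₁ = W₁'`. `Hd f (φ 0) W₁`: `W₁` is not empty as `J ≥ 1`. -/
def S_LOC : Prop := ∀ (X : Type) [DecidableEq X] (f : ℕ → X → X) (p : ℕ → ℕ), Par p →
  (∀ a u, f a (f a u) = u) → ∀ (φ : ℕ → X) (J : ℕ), 1 ≤ J → ∀ y ≤ J,
  ∃ Ψ : List ℕ → List ℕ, (∀ W, ER f φ p J 0 W → ER f φ p J y (Ψ W) ∧ (Ψ W).Perm W) ∧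
    ∀ W W', ER f φ p J 0 W → ER f φ p J 0 W' → Ψ W = Ψ W' → W = W'

/-- [AT RUN] the function `run` and the relation `Ex`.

Proof. (1) induction on `π` for all `O`, `K`, `φ`: if `O = []`, `φ' = φ`, `W = []`. If `O = e :: O'`,
`π = a :: π'`: if `a` is skipped use the induction hypothesis for `e :: O'`, note that `φ' e.1 = φ e.1`
because `e.1 ∈ K` is not a second end of `e :: O'` (from `Lin`: second ends are not in `K`). If `a` is
accepted, use it for `O'`, `insert e.2 K`; `φ' e.2 = f a (φ e.1)`, `φ' e.1 = φ e.1`. (2) induction on `W`,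
in the same way, with `ψ e.1 = φ e.1` (`e.1 ∈ K`). -/
def S_RUN : Prop := ∀ (X : Type) [DecidableEq X] (f : ℕ → X → X) (O : List (ℕ × ℕ)) (K : Finset ℕ)
  (φ : ℕ → X), Lin O K →
  (∀ (π : List ℕ) (φ' : ℕ → X), run f O φ π = some φ' →
    (∀ i, (∀ e ∈ O, e.2 ≠ i) → φ' i = φ i) ∧ ∃ W σ, π = W ++ σ ∧ Ex f φ' O W) ∧
  (∀ (ψ : ℕ → X) (W σ : List ℕ), (∀ i ∈ K, ψ i = φ i) → Ex f ψ O W →
    ∃ φ', run f O φ (W ++ σ) = some φ' ∧ (∀ i, (∀ e ∈ O, e.2 ≠ i) → φ' i = φ i) ∧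
      ∀ e ∈ O, φ' e.2 = ψ e.2)

/-- [AT WAIT] a run that does not end waits at every time (Uses `S_SCH`, `S_EXL`, `S_RUN`.)

Proof. Induction on `t`. `t = 1`: `W = [c]`, `c` the first letter, `J = 1`, `R = []`,
`φ = update (fun _ => u) 1 (f c u)`: `sch p 1 0 = [(0, 1)]`. If `k = 1` then the run ends (`S_RUN` (2) with
`O = sch p 1 0`, `K = {0}`), against the hypothesis; so `J < k`. Step: let `b` be the letter number
`t + 1`, `z = p (J + 1)`. If `f b (φ z) = φ z` put `b` at the end of `R`. Otherwise take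
`W' = W ++ (R ++ [b])`, `φ' = update φ (J + 1) (f b (φ z))`, `R' = []`: it is a word for
`sch p (J + 1) 0 = sch p J 0 ++ [(z, J + 1)]` by `S_EXL` (1), (2), (3) (`φ' = φ` on the labels `≤ J`). If
`J + 1 < k` we are waiting for the label `J + 2`. If `J + 1 = k` the run ends by `S_RUN` (2) (`K = {0}`),
against the hypothesis. -/
def S_WAIT : Prop := ∀ (X : Type) [DecidableEq X] (f : ℕ → X → X) (p : ℕ → ℕ), Par p →
  ∀ (k : ℕ) (u : X) (π : List ℕ), 1 ≤ k → Hd f u π → run f (sch p k 0) (fun _ => u) π = none →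
  ∀ t, 1 ≤ t → t ≤ π.length →
  ∃ (J : ℕ) (φ : ℕ → X) (W R σ : List ℕ), 1 ≤ J ∧ J < k ∧ π = W ++ (R ++ σ) ∧
    W.length + R.length = t ∧ φ 0 = u ∧ (∀ i, J < i → φ i = u) ∧ ER f φ p J 0 W ∧
    ∀ b ∈ R, f b (φ (p (J + 1))) = φ (p (J + 1))

/-- [AT MEM] all images are in `S`.

Proof. Induction on `W` with `Sy.mem` for (1) (relation to `K`: the images of the labels in `K` are in
`S`). (2) from (1) with `O = sch p J y`, `K = {y}` and `S_SCH` (1), (2). (Uses `S_SCH`.) -/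
def S_MEM : Prop := ∀ (X : Type) [DecidableEq X] (f : ℕ → X → X) (S : Finset X), Sy S f →
  (∀ (φ : ℕ → X) (O : List (ℕ × ℕ)) (K : Finset ℕ) (W : List ℕ), Lin O K → (∀ i ∈ K, φ i ∈ S) →
    Ex f φ O W → ∀ e ∈ O, φ e.2 ∈ S) ∧
  ∀ (p : ℕ → ℕ), Par p → ∀ (J y : ℕ), y ≤ J → ∀ (φ : ℕ → X) (W : List ℕ), φ y ∈ S →
    Ex f φ (sch p J y) W → ∀ i ≤ J, φ i ∈ S

/-- [AT CNT] the waiting times (Uses `S_WDS`, `S_EXL`, `S_DET`, `S_LOC`, `S_WAIT`, `S_MEM`.)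

Proof. Let `A` be the set of the pairs `(u, π)`, `u ∈ S`, `π ∈ wds h C`, with `Hd f u π` and
`run f (sch p k 0) (fun _ => u) π = none`; the pairs with `Hd` are those of `A` and those with
`∃ φ, Fi f p k 0 u π φ`. For `(u, π) ∈ A` and `t ∈ {1, …, h}` `S_WAIT` gives `J ∈ {1, …, k - 1}`, `φ, W, R, σ`.
So `h * A.card ≤ ∑_(J = 1)^(k - 1) (number of the triples (u, π, t) with this J)`, and it is enough to show
that for fixed `J` the triples inject into `S ×ˢ wds h C`. Let `z = p (J + 1) ≤ J` and `Ψ_φ` the map of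
`S_LOC` for `φ`, `J`, `z` (chosen for every function `φ`). Map the triple to `(φ z, R ++ (Ψ_φ W ++ σ))`.
`φ z ∈ S` (`S_MEM`); the word is a permutation of `π`, so it is in `wds h C` (`S_WDS` (1)). Injective:
suppose two triples (with `φ, W, R, σ` and `φ', W', R', σ'`) have the same image. Then `φ z = φ' z =: x`;
`Hd f x (Ψ_φ W ++ σ)`, so by `S_EXL` (6) `R = R'` and `Ψ_φ W ++ σ = Ψ_φ' W' ++ σ'`; by `S_DET`
`Ψ_φ W = Ψ_φ' W'`, `σ = σ'` and `φ = φ'` on the labels `≤ J`; for `i > J` `φ i = φ 0 = φ' 0 = φ' i`. So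
`φ = φ'`, and `W = W'` by the injectivity of `Ψ_φ`. Hence `u = φ 0`, `π = W ++ (R ++ σ)`,
`t = W.length + R.length` are the same. -/
def S_CNT : Prop := ∀ (X : Type) [DecidableEq X] (f : ℕ → X → X) (S : Finset X), Sy S f →
  ∀ (p : ℕ → ℕ), Par p → ∀ (k h : ℕ) (C : Finset ℕ), 1 ≤ k →
  h * num S h C (fun u π => Hd f u π) ≤
    h * num S h C (fun u π => ∃ φ, Fi f p k 0 u π φ) + (k - 1) * (S.card * (wds h C).card)

/-- [AT TRA] the end of the process seen from the label `y`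
(Uses `S_WDS`, `S_SCH`, `S_DET`, `S_LOC`, `S_RUN`, `S_MEM`.)

Proof. An injection from the first set of pairs into the second one. Let `(u, π)` be in the first set,
`φ` the final map (unique, as `run` is a function). By `S_RUN` (1) (`O = sch p k 0`, `K = {0}`, `S_SCH` (1)),
`π = W ++ σ` with `Ex f φ (sch p k 0) W`, `φ 0 = u` and `φ i = u` for `i > k` (`S_SCH` (3)); `W` is not empty
(`k ≥ 1`), so `ER f φ p k 0 W`. Let `Ψ_φ` be the map of `S_LOC` for `φ`, `J = k`, `y`. Map `(u, π)` to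
`(φ y, Ψ_φ W ++ σ)`. `φ y ∈ S` (`S_MEM`); `Ψ_φ W ++ σ` is a permutation of `π`, so it is in `wds h C` and has
the same `toFinset`. By `S_RUN` (2) with `O = sch p k y`, `K = {y}`, start `fun _ => φ y`, there is `φ'` with
`Fi f p k y (φ y) (Ψ_φ W ++ σ) φ'` and `φ' = φ` on the labels `≤ k`. So `P φ' (C \ …)`. Injective: if the images
of `(u, π)` and `(u', π')` are equal, `S_DET` gives `Ψ_φ W = Ψ_φ' W'`, `σ = σ'`, `φ = φ'` on the labels `≤ k`,
and for `i > k` `φ i = φ 0 = φ' 0 = φ' i`; so `φ = φ'`, `W = W'`. -/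
def S_TRA : Prop := ∀ (X : Type) [DecidableEq X] (f : ℕ → X → X) (S : Finset X), Sy S f →
  ∀ (p : ℕ → ℕ), Par p → ∀ (k y h : ℕ) (C : Finset ℕ) (P : (ℕ → X) → Finset ℕ → Prop),
  1 ≤ k → y ≤ k → (∀ φ ψ ρ, (∀ i ≤ k, φ i = ψ i) → P φ ρ → P ψ ρ) →
  num S h C (fun u π => ∃ φ, Fi f p k 0 u π φ ∧ P φ (C \ π.toFinset)) ≤
    num S h C (fun u π => ∃ φ, Fi f p k y u π φ ∧ P φ (C \ π.toFinset))

/-- [AT HOM] the final map is a homomorphism with different colours (Uses `S_SCH`.)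

Proof. (1) For a schedule `O` with `Lin O K`, by induction on `π` (for all `O`, `K`, `φ`): if
`run f O φ π = some φ'`, `π` without repetition, then `φ' = φ` outside the second ends of `O` and there is
`col : ℕ → ℕ` with `col e.2 ∈ π`, `f (col e.2) (φ' e.1) = φ' e.2`, `φ' e.2 ≠ φ' e.1` for all `e ∈ O`, and
`col` injective on the second ends of `O` (the colours used later are in the rest of the word). The edges
of `sch p k 0` are exactly the `(p i, i)`, `1 ≤ i ≤ k` (`S_SCH` (6)). -/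
def S_HOM : Prop := ∀ (X : Type) [DecidableEq X] (f : ℕ → X → X) (p : ℕ → ℕ), Par p →
  ∀ (k : ℕ) (u : X) (π : List ℕ) (φ : ℕ → X), π.Nodup → Fi f p k 0 u π φ →
  φ 0 = u ∧ ∃ col : ℕ → ℕ, (∀ v, 1 ≤ v → v ≤ k →
      col v ∈ π ∧ f (col v) (φ (p v)) = φ v ∧ φ v ≠ φ (p v)) ∧
    Set.InjOn col (Set.Icc 1 k)

/-- [AT THA] Theorem A for systems (Uses `S_WDS`, `S_CNT`.)

Proof. `m = C.card ≥ 1` (otherwise the sum is `0`). `S_CNT` with `h = m`: by `S_WDS` (4) and (2)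
`m * ((∑ d) * (m - 1).descFactorial (m - 1)) ≤ m * num(ends) + (k - 1) * (S.card * m.descFactorial m)`
and `m * (m - 1).descFactorial (m - 1) = m.descFactorial m > 0`. So if no run ends then
`∑ d ≤ (k - 1) * S.card`. -/
def S_THA : Prop := ∀ (X : Type) [DecidableEq X] (f : ℕ → X → X) (S : Finset X), Sy S f →
  ∀ (p : ℕ → ℕ), Par p → ∀ (k : ℕ) (C : Finset ℕ), 1 ≤ k →
  (k - 1) * S.card < ∑ u ∈ S, (act f u C).card →
  ∃ u ∈ S, ∃ (π : List ℕ) (φ : ℕ → X), π.Nodup ∧ Fi f p k 0 u π φ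

/-- [AT SYG] the system of a properly coloured graph.

Proof. For `u ∈ S` and a colour `a` there is at most one `v ∈ S` with `H.Adj u v` and `c s(u, v) = a`
(properness). Put `f a u = v` if it exists and `f a u = u` otherwise (also for `u ∉ S`). Then `f a u = v ≠ u`
implies `f a v = u`. `C` = the set of all `c s(u, v)`, `u, v ∈ S`; `a ↦ f a u` is a bijection from
`act f u C` to `nb H S u`. (Compare `RP/P_SYS.lean`.) Last part: `H ≤ Q n` gives the distance one (`Q_adj_iff`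
of `Basic`), and `a = c s(u, f a u)`. -/
def S_SYG : Prop :=
  (∀ (V : Type) [DecidableEq V] (H : SimpleGraph V) (c : Sym2 V → ℕ) (S : Finset V),
    ProperColouring H c → ∃ (f : ℕ → V → V) (C : Finset ℕ), Sy S f ∧
    (∀ a u, f a u ≠ u → u ∈ S ∧ H.Adj u (f a u) ∧ c s(u, f a u) = a ∧ a ∈ C) ∧
    ∀ u ∈ S, (act f u C).card = (nb H S u).card) ∧
  ∀ (n : ℕ) (H : SimpleGraph (Fin n → Bool)) (c : Sym2 (Fin n → Bool) → ℕ)
    (S : Finset (Fin n → Bool)), H ≤ Q n → ProperColouring H c →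
    ∃ (f : ℕ → (Fin n → Bool) → (Fin n → Bool)) (C : Finset ℕ), Cu S f ∧
    (∀ a u, f a u ≠ u → u ∈ S ∧ H.Adj u (f a u) ∧ c s(u, f a u) = a ∧ a ∈ C) ∧
    ∀ u ∈ S, (act f u C).card = (nb H S u).card

/-- [AT LAB] the labels of a tree.

Proof. Induction on `k`. `k = 0`: one vertex, `lab = 0`, `p = 0`. Step: a tree with `k + 1 ≥ 1` edges has a
vertex `x` of degree one (Mathlib: `SimpleGraph.IsTree.exists_vert_degree_one_of_nontrivial` or similar;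
the files `Embed.lean`, `Rooted.lean`, `Match.lean` of this folder have such an argument); without `x` it
is a tree with `k` edges; give `x` the label `k + 1` and `p (k + 1) =` the label of its neighbour (and
`p v = 0` for `v > k + 1`). -/
def S_LAB : Prop := ∀ (W : Type) [Finite W] (T : SimpleGraph W) (k : ℕ), T.IsTree →
  T.edgeSet.ncard = k → ∃ (p : ℕ → ℕ) (lab : W → ℕ), Par p ∧ Function.Injective lab ∧
    (∀ a, lab a ≤ k) ∧ ∀ a b, T.Adj a b →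
      (1 ≤ lab b ∧ p (lab b) = lab a) ∨ (1 ≤ lab a ∧ p (lab a) = lab b)

/-- [AT THF] THEOREM A (Uses `S_SYG`, `S_LAB`, `S_THA`, `S_HOM`.)

Proof. `S_SYG` with `S = univ`; `∑_u (nb H univ u).card = 2 * H.edgeSet.ncard` (`sum_nb_univ`). `S_THA` and
`S_HOM` give `φ`, `col`. Let `g = φ ∘ lab`. An edge of `T` is `s(a, b)` with `p (lab b) = lab a`,
`v = lab b ≥ 1`; its image is `s(φ (p v), φ v)`, an edge of `H` of colour `col v` (`f (col v) (φ (p v)) = φ v ≠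
φ (p v)`). Two edges of `T` with the same colour have the same `v` (`col` injective), hence (as `lab` is
injective) the same `b` and the same `a`. -/
def S_THF : Prop := ∀ (V W : Type) [Finite V] [Finite W] (H : SimpleGraph V) (c : Sym2 V → ℕ)
  (T : SimpleGraph W) (k : ℕ), ProperColouring H c → T.IsTree → T.edgeSet.ncard = k → 1 ≤ k →
  (k - 1) * Nat.card V < 2 * H.edgeSet.ncard →
  ∃ g : W → V, (∀ a b, T.Adj a b → H.Adj (g a) (g b)) ∧
    Set.InjOn (fun e : Sym2 W => c (e.map g)) T.edgeSet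

/-! ## The cube -/

/-- [AT SUP] the supermartingale (Uses `S_WDS`, `S_RUN`.)

Proof. We show for every suffix `O` of `T₀` and every `K'` with `Lin O K'`, by induction on `i`, for all `U`, `φ`:
`∑_(π ∈ wds i U) gv f g rew O U φ π ≤ (wds i U).card * G O φ`. `O = []`: `run = some φ`, the condition is empty,
`rew φ ≤ G [] φ`. `O = e :: O'`, `i = 0`: the value is `0 ≤ G`. `i + 1`: let `A = act f (φ e.1) U`. If
`A.card < g` all values are `0`: the final map has `φ' e.1 = φ e.1` (`S_RUN` (1): `e.1 ∈ K'` is not a second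
end) and `act f (φ e.1) (U \ π.toFinset) ⊆ A`, so the condition fails for `e`. Otherwise, by `S_WDS` (3), the
sum is `∑_(c ∈ U) ∑_(π ∈ wds i (U.erase c)) gv … (c :: π)`, with `U \ (c :: π).toFinset = (U.erase c) \
π.toFinset`. For `c ∉ A` the letter is skipped: the value is `gv … O (U.erase c) φ π`. For `c ∈ A` it is at
most `gv … O' (U.erase c) (update φ e.2 (f c (φ e.1))) π` (the condition for `e ∈ O` is dropped; `rew ≥ 0`).
With `w = (wds i (U.erase c)).card = (U.card - 1).descFactorial i` the sum is at most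
`w * ((U.card - A.card) * G O φ + ∑_(c ∈ A) G O' (…)) ≤ w * U.card * G O φ = (wds (i + 1) U).card * G O φ`. -/
def S_SUP : Prop := ∀ (X : Type) [DecidableEq X] (f : ℕ → X → X) (g : ℝ) (rew : (ℕ → X) → ℝ)
  (T₀ : List (ℕ × ℕ)) (K : Finset ℕ) (G : List (ℕ × ℕ) → (ℕ → X) → ℝ), 0 < g → Lin T₀ K →
  (∀ φ, 0 ≤ rew φ) → (∀ O φ, 0 ≤ G O φ) → (∀ φ, rew φ ≤ G [] φ) →
  (∀ (e : ℕ × ℕ) (O : List (ℕ × ℕ)) (φ : ℕ → X) (U : Finset ℕ), (e :: O) <:+ T₀ →
    g ≤ ((act f (φ e.1) U).card : ℝ) →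
    ∑ c ∈ act f (φ e.1) U, G O (Function.update φ e.2 (f c (φ e.1))) ≤
      ((act f (φ e.1) U).card : ℝ) * G (e :: O) φ) →
  ∀ (i : ℕ) (U : Finset ℕ) (φ : ℕ → X),
    ∑ π ∈ wds i U, gv f g rew T₀ U φ π ≤ ((wds i U).card : ℝ) * G T₀ φ

/-- [AT DWN] directions in the cube.

Proof. Let `D = hammingDist w z`. For `c ∈ act f w U` the point `f c w` differs from `w` in exactly one
coordinate `j` (`Cu.one`), and `j` determines `f c w`, which determines `c` (`Cu.inj`). If `w j ≠ z j` then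
`hammingDist (f c w) z = D - 1` (`D` such coordinates, so at most `D` such `c`; `D ≥ 1`), otherwise
`D + 1`. (1) Let `N ≤ D` be the number of the `c` of the first kind, `A` the number of all, `g ≤ A`: the sum is
`N F (D - 1) + (A - N) F (D + 1) = A (F (D + 1) + (N / A) (F (D - 1) - F (D + 1)))` and
`0 ≤ N / A ≤ min 1 (D / g)`. (2) `hammingDist (f c w) z = 1` implies `D = 0` or `D = 2`, and for `D = 2` there
are at most two such `c`. -/
def S_DWN : Prop := ∀ (n : ℕ) (S : Finset (Fin n → Bool))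
  (f : ℕ → (Fin n → Bool) → (Fin n → Bool)), Cu S f → ∀ (g : ℝ) (U : Finset ℕ)
  (w z : Fin n → Bool), 0 < g → g ≤ ((act f w U).card : ℝ) →
  (∀ F : ℕ → ℝ, ∑ c ∈ act f w U, F (hammingDist (f c w) z) ≤ ((act f w U).card : ℝ) *
    (F (hammingDist w z + 1) + min 1 ((hammingDist w z : ℝ) / g) *
      max 0 (F (hammingDist w z - 1) - F (hammingDist w z + 1)))) ∧
  (w ≠ z → ((act f w U).filter (fun c => hammingDist (f c w) z = 1)).card ≤ 2)

/-- [AT WBD] numerical bound for `Wf`.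

Proof. By the definition (`g ≥ 100`): `Wf g 0 D = [D = 0]`; `Wf g 1 1 = 1 / g`, `Wf g 1 D = 0` for `D ≠ 1`;
`Wf g 2 0 = 1 / g`, `Wf g 2 2 = 2 / g ^ 2`, otherwise `0`; `Wf g 3 1 ≤ 3 / g ^ 2`, `Wf g 3 3 = 6 / g ^ 3`,
otherwise `0`; `Wf g 4 0 ≤ 3 / g ^ 2`, `Wf g 4 2 ≤ 12 / g ^ 3`, `Wf g 4 4 = 24 / g ^ 4`, otherwise `0`. `Wf` is
`≥ 0`, and `Wf g s D = 0` if `s + D` is odd. Let `D' = ⌊g / 5⌋₊ ≥ 20` and `Hf 0 = 3 / g ^ 2`, `Hf 1 = 15 / g ^ 3`,
`Hf D = 12 / (g ^ 3 3 ^ (min D D' - 2))` for `D ≥ 2`, `η = 65 3 ^ (-D') / g ^ 3`. Claim: for `s ≥ 4` and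
`s + D` even `Wf g s D ≤ Hf D + (s - 4) η`. `s = 4`: above (`24 / g ^ 4 ≤ 12 / (9 g ^ 3)`). Step: the operator
`F ↦ F (D + 1) + min 1 (D / g) max 0 (F (D - 1) - F (D + 1))` is monotone in `F` (it is a maximum of convex
combinations) and commutes with adding constants, so it remains to see `Hf (D + 1) + min 1 (D / g) max 0
(Hf (D - 1) - Hf (D + 1)) ≤ Hf D + η`. `D = 0`: `Hf 1 ≤ Hf 0`. `D = 1`: `Hf 2 + Hf 0 / g = Hf 1`. `D = 2`:
`Hf 3 + (2 / g) Hf 1 = 4 / g ^ 3 + 30 / g ^ 4 ≤ Hf 2`. `3 ≤ D < D'`: `Hf D (1/3 + 3 D / g) ≤ Hf D` (`D ≤ g / 5`).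
`D = D'`: `Hf (D' + 1) = Hf D'` and `(D' / g) Hf (D' - 1) ≤ (1/5) 12 3 ^ (3 - D') / g ^ 3 ≤ η`. `D > D'`: all
three values are equal (`27 * 12 / 5 = 64.8`). Finally `3 ^ (-D') ≤ 3 ^ (1 - g / 5) ≤ 3 exp (-g / 5)`, so
`η ≤ 200 exp (-g / 5) / g ^ 3`. -/
def S_WBD : Prop := ∀ g : ℝ, 100 ≤ g → (∀ s D, 0 ≤ Wf g s D) ∧ Wf g 0 1 = 0 ∧ Wf g 2 1 = 0 ∧
  Wf g 3 1 ≤ 3 / g ^ 2 ∧
  ∀ s : ℕ, 4 ≤ s → Wf g s 1 ≤ (15 + 200 * s * Real.exp (-g / 5)) / g ^ 3

/-- [AT ANC] distances in the tree (Uses `S_SCH`.)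

Proof. (a) `(anc (sch p J z) y).1 = z` for `y, z ≤ J`: induction on `J`. Let `O' = O ++ [(p (J+1), J+1)]`. If
`y ≤ J` then `anc O' y = anc O y`; `anc O' (J + 1)` has the same first component as `anc O (p (J + 1))` and a
second component larger by one (general lemma: if `anc O₂ y = (x, s)` then `anc (O₁ ++ O₂) y` is `anc O₁ x`
with `s` added to the second component). If `z = J + 1`: `sch = (J + 1, x) :: sch p J x`, `x = p (J + 1)`; for
`y ≤ J` `anc (sch p J x) y = (x, _)`, and then the first edge gives `(J + 1, _ + 1)`; for `y = J + 1`: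
`anc (sch p J x) (J + 1) = (J + 1, 0)` (`J + 1` is not a second end), and `J + 1 ≠ x`. (b) is the same for
`y = q`: `q` is not a second end of the schedule. (c) `y < q`: `sch p k q = (q, z) :: sch p (q - 1) z ++ E`,
`sch p k z = sch p (q - 1) z ++ E'` with `z = p q`, where all edges in `E`, `E'` are `(p i, i)` with `i ≥ q > y`, so
they do not change `anc`: with `anc (sch p (q - 1) z) y = (z, s)` (by (a)) `anc (sch p k q) y = (q, s + 1)` and
`dT p k z y = s`. (d) `q < y`: `sch p k q = sch p (y - 1) q ++ (p y, y) :: E`, `E` with second ends `> y`; so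
`dT p k q y = dT p k q (p y) + 1`. (e) the second component grows at most by one with every edge. -/
def S_ANC : Prop := ∀ (p : ℕ → ℕ), Par p → ∀ (k q y : ℕ), q ≤ k → y ≤ k →
  (anc (sch p k q) y).1 = q ∧ dT p k q q = 0 ∧ dT p k q y ≤ k ∧
  (y < q → dT p k q y = dT p k (p q) y + 1 ∧
    ∃ O : List (ℕ × ℕ), sch p k q = (q, p q) :: O ∧ anc O y = (p q, dT p k (p q) y)) ∧
  (q < y → dT p k q y = dT p k q (p y) + 1)

/-- [AT COL] collisions seen from `q` (Uses `S_WDS`, `S_SCH`, `S_RUN`, `S_SUP`, `S_DWN`, `S_ANC`.)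

Proof. `h = 0`: both sides are `0` (no `Hd`). `h + 1`: by `S_WDS` (3) the left side is the sum over `u ∈ S` and
`c ∈ act f u C` of the number of `π ∈ wds h (C.erase c)` such that `run f (sch p k q) (fun _ => u) (c :: π)` is
some `φ'` with `Gd f g k φ' ((C.erase c) \ π.toFinset)` and `φ' y = φ' q`. By `S_ANC` `sch p k q = (q, p q) :: O`;
the letter `c` is accepted, the run continues as `run f O φ₀ π`, `φ₀ = update (fun _ => u) (p q) (f c u)`, and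
`φ' q = u` (`q` is not a second end). `Lin O {q, p q}`. Use `S_SUP` with `T₀ = O`, `K = {q, p q}`,
`rew φ = if φ y = φ q then 1 else 0` and `G O' φ = Wf g (anc O' y).2 (hammingDist (φ (anc O' y).1) (φ q))`:
`Gd` implies the condition of `gv` (all labels are `≤ k`, `S_SCH` (3)), so the number is at most
`∑_π gv … ≤ (wds h (C.erase c)).card * G O φ₀`, and `G O φ₀ = Wf g (dT p k (p q) y) 1` (`anc O y = (p q, …)`,
`hammingDist (f c u) u = 1`). `Wf ≥ 0` (easy induction), `G [] φ = Wf g 0 (hammingDist (φ y) (φ q)) = rew φ`.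
The step: let `e :: O'` be a suffix of `O`; `e.2 ≠ q` (`Lin`), `e.2 ≠ e.1`. If `(anc O' y).1 ≠ e.2` then
`anc (e :: O') y = anc O' y` and every summand is equal to `G (e :: O') φ`. If `anc O' y = (e.2, s)` then
`anc (e :: O') y = (e.1, s + 1)`, the summand is `Wf g s (hammingDist (f c (φ e.1)) (φ q))`, and `S_DWN` (1)
with `F = Wf g s`, `w = φ e.1`, `z = φ q` is the claim. Finally
`∑_(u ∈ S) ∑_(c ∈ act f u C) (wds h (C.erase c)).card = num (Hd)` (`S_WDS` (2), (4)). -/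
def S_COL : Prop := ∀ (n : ℕ) (S : Finset (Fin n → Bool))
  (f : ℕ → (Fin n → Bool) → (Fin n → Bool)), Cu S f → ∀ (C : Finset ℕ) (p : ℕ → ℕ), Par p →
  ∀ (k q y h : ℕ) (g : ℝ), 1 ≤ k → q ≤ k → y < q → 0 < g →
  (num S h C (fun u π => ∃ φ, Fi f p k q u π φ ∧ Gd f g k φ (C \ π.toFinset) ∧ φ y = φ q) : ℝ) ≤
    Wf g (dT p k (p q) y) 1 * num S h C (fun u π => Hd f u π)

/-- [AT CRO] few neighbours of the image of `y`, seen from `y`
(Uses `S_WDS`, `S_SCH`, `S_RUN`, `S_SUP`, `S_DWN`.)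

Proof. As in `S_COL` (`h = 0` is trivial; `sch p k y = (y, v) :: O` by `S_SCH` (4); `φ' y = u`). `S_SUP` with
`T₀ = O`, `K = {y, v}`, `rew φ = 2 ^ (number of e ∈ O with cnd e φ)`, where `cnd e φ` means `e.1 ≠ y ∧
hammingDist (φ e.2) (φ y) = 1 ∧ φ e.1 ≠ φ y`, and `G O' φ = 2 ^ (number of e ∈ O, e ∉ O', with cnd e φ) *
(1 + 2 / g) ^ O'.length` for a suffix `O'` of `O` (`G` is defined for all `O'` by the same formula). The
edges of `O` have different second ends (`Lin`). The step for `e :: O'`: the labels of the edges of `O` before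
`e` are different from `e.2` (second ends by `Lin`; first ends are embedded before), so their `cnd` does not
change under `update φ e.2 _`. If `e.1 = y` or `φ e.1 = φ y` then `cnd e` is false and the claim is clear.
Otherwise `cnd e` holds after the update for at most two `c ∈ act f (φ e.1) U` (`S_DWN` (2) with
`w = φ e.1 ≠ z = φ y`), and the sum is at most `2 ^ N (1 + 2/g) ^ |O'| (A + 2)` with `A = |act| ≥ g`, so
`A + 2 ≤ A (1 + 2 / g)`. `cb p k y φ'` is the number of `e ∈ O` with `cnd e φ'` (the first edge `(y, v)` has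
`e.1 = y`). Markov: `t < N` implies `1 ≤ 2 ^ (-t) 2 ^ N`. At the start `G O φ₀ = (1 + 2 / g) ^ (k - 1)`. -/
def S_CRO : Prop := ∀ (n : ℕ) (S : Finset (Fin n → Bool))
  (f : ℕ → (Fin n → Bool) → (Fin n → Bool)), Cu S f → ∀ (C : Finset ℕ) (p : ℕ → ℕ), Par p →
  ∀ (k y h : ℕ) (g t : ℝ), 1 ≤ k → y ≤ k → 0 < g →
  (num S h C (fun u π => ∃ φ, Fi f p k y u π φ ∧ Gd f g k φ (C \ π.toFinset) ∧
      t < (cb p k y φ : ℝ)) : ℝ) ≤
    (2 : ℝ) ^ (-t) * (1 + 2 / g) ^ k * num S h C (fun u π => Hd f u π)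

/-- [AT EXM] exponential moment (Uses `S_WDS`.)

Proof. Induction on `h`, for all `C`, `A`. `h = 0`: both sides are `(1/2) ^ A.card` (for `C = ∅` both are `1`).
Step, `m = C.card ≥ h + 1`: by `S_WDS` (3) the left side is `∑_(c ∈ C) ∑_(π ∈ wds h (C.erase c))
(1/2) ^ ((A.erase c) \ π.toFinset).card ≤ ∑_c w (1 - x / 2) ^ (A.erase c).card` with `w = (m - 1).descFactorial h`,
`x = (m - 1 - h) / (m - 1)` (for `m = 1`: `x = 0` in Lean, `0 / 0`, and the claim is `∑_c 1 ≤ 1`). With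
`a = A.card`, `y = 1 - x / 2 ≥ 1/2`: `∑_c y ^ (A.erase c).card = a y ^ (a - 1) + (m - a) y ^ a =
m y ^ (a - 1) (y + (a / m) (1 - y)) ≤ m (y + (1 - y) / m) ^ a` (Bernoulli `(y + t) ^ a ≥ y ^ a +
a t y ^ (a - 1)`), and `y + (1 - y) / m = 1 - (m - 1 - h) / (2 m)`. (`RP/P_AVG.lean` has this computation.) -/
def S_EXM : Prop := ∀ (h : ℕ) (C A : Finset ℕ), A ⊆ C → h ≤ C.card →
  ∑ π ∈ wds h C, (1 / 2 : ℝ) ^ (A \ π.toFinset).card ≤
    ((wds h C).card : ℝ) * (1 - ((C.card : ℝ) - h) / (2 * C.card)) ^ A.card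

/-- [AT BSM] the first letter is like every other letter (Uses `S_WDS`.)

Proof. For `c ∈ C` let `T (h, C, c) = ∑_(π ∈ wds h (C.erase c)) F ((C.erase c) \ π.toFinset)`. Claim:
`(h + 1) T (h, C, c) = ∑_(π ∈ wds (h + 1) C, c ∈ π) F (C \ π.toFinset)` (induction on `h` for all `C`, `c`). By
`S_WDS` (3) the right side is the sum over the first letters: for the first letter `c` it is `T (h, C, c)` (as
`C \ (c :: π).toFinset = (C.erase c) \ π.toFinset`); for `h = 0` the other first letters give nothing; for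
`h = h' + 1` and a first letter `c' ≠ c` it is, by the induction hypothesis for `C.erase c'`,
`(h' + 1) ∑_(π ∈ wds h' ((C.erase c').erase c)) F (…)`, and the sum over `c' ∈ C.erase c` is
`(h' + 1) T (h' + 1, C, c)` (by `S_WDS` (3) again, `(C.erase c').erase c = (C.erase c).erase c'`). Then drop
the condition `c ∈ π`. -/
def S_BSM : Prop := ∀ (h : ℕ) (C : Finset ℕ) (c : ℕ) (F : Finset ℕ → ℝ), c ∈ C → (∀ ρ, 0 ≤ F ρ) →
  ((h : ℝ) + 1) * ∑ π ∈ wds h (C.erase c), F ((C.erase c) \ π.toFinset) ≤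
    ∑ π ∈ wds (h + 1) C, F (C \ π.toFinset)

/-- [AT BWT] the weight of the bad vertices.

Proof. `B_s ⊆ B_(s+1)`: clear. Let `e(v) = |act f v ρ|`, `d(v) = |act f v C|`. For `v ∈ B_(s+1) \ B_s`:
`e(v) ≤ 2 #{a ∈ act f v ρ : f a v ∈ B_s}`. Sum over these `v`: `∑ e(v) ≤ 2 ∑_(v ∈ S) #{a ∈ act f v ρ :
f a v ∈ B_s} = 2 ∑_(x ∈ B_s) e(x)` (the involution `f a` of `S` maps the pairs `(v, a)` with
`f a v = x ≠ v` to the pairs `(x, a)`). So `∑_(v ∈ B_s) e(v) ≤ 3 ^ s ∑_(v ∈ B_0) e(v)`, and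
`e(v) ≤ δ d(v)` for `v ∈ B_0`, `d(v) ≤ e(v) / δ` for `v ∈ B_s \ B_0`. Hence `∑_(v ∈ B_s) d(v) ≤
∑_(v ∈ B_0) d(v) + (1 / δ) 3 ^ s δ ∑_(v ∈ B_0) d(v)`. -/
def S_BWT : Prop := ∀ (n : ℕ) (S : Finset (Fin n → Bool))
  (f : ℕ → (Fin n → Bool) → (Fin n → Bool)), Cu S f → ∀ (C ρ : Finset ℕ) (δ : ℝ), ρ ⊆ C → 0 < δ →
  ∀ s : ℕ, Bs S f C δ ρ s ⊆ Bs S f C δ ρ (s + 1) ∧
    ∑ v ∈ Bs S f C δ ρ s, ((act f v C).card : ℝ) ≤
      (1 + 3 ^ s) * ∑ v ∈ Bs S f C δ ρ 0, ((act f v C).card : ℝ)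

/-- [AT BAD] the images are rarely bad
(Uses `S_WDS`, `S_SCH`, `S_RUN`, `S_TRA`, `S_BSM`, `S_BWT`, `S_EXM`.)

Proof. By `S_TRA` (`y = j`, `P φ ρ := φ j ∈ Bs S f C δ ρ R`) the number is at most that for the root `j`; there
`φ j = u` (`S_RUN` (1): `j` is not a second end of `sch p k j`, `Lin`), so it is at most the number of the pairs
with `Hd f u π` and `u ∈ Bs S f C δ (C \ π.toFinset) R`, which is by `S_WDS` (3) `∑_(u ∈ S) ∑_(c ∈ act f u C)
∑_(π ∈ wds h (C.erase c)) [u ∈ Bs … ((C.erase c) \ π.toFinset) R]`. Multiply by `h + 1` and use `S_BSM`: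
`≤ ∑_(u ∈ S) d(u) ∑_(π ∈ wds (h + 1) C) [u ∈ Bs … (C \ π.toFinset) R]`, `d(u) = (act f u C).card`. Exchange the
sums, `S_BWT`: `≤ (1 + 3 ^ R) ∑_π ∑_(u ∈ Bs … 0) d(u)`. And `u ∈ Bs … 0` means
`|act f u (C \ π)| < δ d(u)`, `act f u (C \ π.toFinset) = (act f u C) \ π.toFinset`, so the indicator is at most
`2 ^ (δ d(u)) (1/2) ^ |act f u C \ π|`; `S_EXM` with `A = act f u C`, word length `h + 1`. -/
def S_BAD : Prop := ∀ (n : ℕ) (S : Finset (Fin n → Bool))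
  (f : ℕ → (Fin n → Bool) → (Fin n → Bool)), Cu S f → ∀ (C : Finset ℕ) (p : ℕ → ℕ), Par p →
  ∀ (k j h R : ℕ) (δ : ℝ), 1 ≤ k → j ≤ k → 0 < δ → h + 1 ≤ C.card →
  ((h : ℝ) + 1) * num S (h + 1) C (fun u π => ∃ φ, Fi f p k 0 u π φ ∧
      φ j ∈ Bs S f C δ (C \ π.toFinset) R) ≤
    ((wds (h + 1) C).card : ℝ) * (1 + 3 ^ R) * ∑ u ∈ S, ((act f u C).card : ℝ) *
      ((2 : ℝ) ^ (δ * ((act f u C).card : ℝ)) *
        (1 - ((C.card : ℝ) - (h + 1)) / (2 * C.card)) ^ (act f u C).card)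

/-- [AT CSU] the sum over the possible collisions (Uses `S_ANC`.)

Proof. For fixed `x` let `q_i = p^[i] x` (`≤ k`). `b q y ≤ β₂ + [dT p k (p q) y = 3] β₁` for all `y < q ≤ k`. The
terms `β₂` sum to at most `(k + 1) ^ 3 β₂` (`i, y ≤ k`). For fixed `x, y` there is at most one `i` with `y < q_i`
and `dT p k (p q_i) y = 3`: if `i < i'` and `y < q_i'` then `y < q_j` for all `j ≤ i'` (`q` is decreasing) and
`dT p k q_j y = dT p k q_(j+1) y + 1` for `j < i'` (`S_ANC` (4)), so `dT p k q_(i+1) y > dT p k q_(i'+1) y`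
(use it also for `j = i'`). So the terms `β₁` sum to at most `(k + 1) ^ 2 β₁`. -/
def S_CSU : Prop := ∀ (p : ℕ → ℕ), Par p → ∀ (k : ℕ) (b : ℕ → ℕ → ℝ) (β₁ β₂ : ℝ), 0 ≤ β₁ → 0 ≤ β₂ →
  (∀ q ≤ k, ∀ y < q, dT p k (p q) y = 3 → b q y ≤ β₁) →
  (∀ q ≤ k, ∀ y < q, dT p k (p q) y ≠ 3 → b q y ≤ β₂) →
  ∑ x ∈ range (k + 1), ∑ i ∈ range (k + 1), ∑ y ∈ range (p^[i] x), b (p^[i] x) y ≤
    ((k : ℝ) + 1) ^ 2 * β₁ + ((k : ℝ) + 1) ^ 3 * β₂

/-- [AT EOF] the labels that need not be changed.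

Proof. `p^[i] x ≤ x ≤ k`. `0 ∈ Eo`: `p^[i] 0 = 0`, `range 0 = ∅`. Closed under `p`: `p^[i] (p v) = p^[i+1] v`; for
`i + 1 = k + 1` note that `p^[k+1] v = 0` for `v ≤ k` (`p^[i] v ≤ v - i`). Injective: for `y < x` in `Eo` use
`i = 0`. Last part: for `x ∉ Eo` some term of the double sum over `i`, `y` is `1`. -/
def S_EOF : Prop := ∀ (X : Type) [DecidableEq X] (p : ℕ → ℕ), Par p → ∀ (k : ℕ) (φ : ℕ → X),
  Eo p k φ ⊆ range (k + 1) ∧ 0 ∈ Eo p k φ ∧ (∀ v ∈ Eo p k φ, p v ∈ Eo p k φ) ∧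
  Set.InjOn φ (Eo p k φ) ∧
  (range (k + 1) \ Eo p k φ).card ≤ ∑ x ∈ range (k + 1), ∑ i ∈ range (k + 1),
    ∑ y ∈ range (p^[i] x), if φ y = φ (p^[i] x) then 1 else 0

/-- [AT CLS] few labels are below collisions
(Uses `S_WDS`, `S_TRA`, `S_HOM`, `S_ANC`, `S_COL`, `S_WBD`, `S_CSU`, `S_EOF`.)

Proof. For `y < q ≤ k` let `N(q, y)` be the number of the pairs `(u, π)` (`u ∈ S`, `π ∈ wds h C`) with
`∃ φ, Fi f p k 0 u π φ ∧ Gd f g k φ (C \ π.toFinset) ∧ φ y = φ q`. `φ` is determined by `(u, π)`. For a pair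
counted on the left side `R < (range (k + 1) \ Eo p k φ).card`, so by `S_EOF`, exchanging sums,
`R * (left number) ≤ ∑_x ∑_i ∑_(y < p^[i] x) N(p^[i] x, y)`. By `S_TRA` (root `q`,
`P φ ρ := Gd f g k φ ρ ∧ φ y = φ q`) and `S_COL`, `N(q, y) ≤ Wf g (dT p k (p q) y) 1 * num(Hd)`. Let
`s = dT p k (p q) y ≤ k`. `s = 0, 2`: `Wf g s 1 = 0`; `s = 3`: `≤ 3 / g ^ 2`; `s ≥ 4`:
`≤ (15 + 200 k exp (-g / 5)) / g ^ 3` (`S_WBD`). `s = 1`: then `N(q, y) = 0`: let `z = p q`; by `S_ANC` (4), (5)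
`y = p z`, `z ≥ 1` (if `y < z`: `dT (p z) y = 0`; `dT a b = 0` only if `a = b`), or `z < y` and `p y = z` (if
`z < y`: `dT z (p y) = 0`); `y ≠ z` as `dT z z = 0`. By `S_HOM` (`π` has no repetition, `S_WDS` (1)): in the first
case `φ z = f (col z) (φ y)`, so `φ y = f (col z) (φ z)` (involution), `φ q = f (col q) (φ z)`, both different
from `φ z`, `col z ≠ col q`; in the second case `φ y = f (col y) (φ z)`, `φ q = f (col q) (φ z)`. By `Cu.inj`
`φ y ≠ φ q`. `S_CSU` with `b q y = N(q, y) / …` (or `b = N`, `β₁ = 3 / g ^ 2 * num(Hd)`, …). (`dT a b = 0` only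
if `a = b`: by `S_ANC` (4), (5) `dT ≥ 1` otherwise.) -/
def S_CLS : Prop := ∀ (n : ℕ) (S : Finset (Fin n → Bool))
  (f : ℕ → (Fin n → Bool) → (Fin n → Bool)), Cu S f → ∀ (C : Finset ℕ) (p : ℕ → ℕ), Par p →
  ∀ (k h R : ℕ) (g : ℝ), 1 ≤ k → 100 ≤ g →
  (R : ℝ) * num S h C (fun u π => ∃ φ, Fi f p k 0 u π φ ∧ Gd f g k φ (C \ π.toFinset) ∧
      R < (range (k + 1) \ Eo p k φ).card) ≤
    (((k : ℝ) + 1) ^ 2 * (3 / g ^ 2) +
      ((k : ℝ) + 1) ^ 3 * ((15 + 200 * k * Real.exp (-g / 5)) / g ^ 3)) *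
      num S h C (fun u π => Hd f u π)

/-- [AT CBE] the neighbours of the image of `y` (Uses `S_SCH`, `S_EOF`.)

Proof. For `i` in the set, `i ≤ k`, `i ≠ y` (the distance is `1`), so by `S_SCH` (2), (3) there is `e ∈ sch p k y`
with `e.2 = i`. If `e.1 = p i`, `i ≥ 1`: `e.1 ∈ Eo` (closed under `p`). Otherwise `i = p e.1`, `e.1 ≥ 1`,
`e.1 = p^[l] y ∈ Eo` (closed under `p`, `y ∈ Eo`). `e.1 ≠ y`: otherwise `y = p i`, `i ≥ 1` or `i = p y`, `y ≥ 1`.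
`φ e.1 ≠ φ y` by the injectivity on `Eo`. So `e` is counted in `cb p k y φ`, and `i = e.2` is determined by
`e`. -/
def S_CBE : Prop := ∀ (n : ℕ) (p : ℕ → ℕ), Par p → ∀ (k y : ℕ) (φ : ℕ → (Fin n → Bool)),
  y ∈ Eo p k φ → (nE p (Eo p k φ) φ y).card ≤ cb p k y φ

/-- [AT COD] few neighbours of a vertex are crowded.

Proof. Let `N` be the set of the `v` on the left side; `v ↦ N` at distance one from `w`. For `z ∈ Z`, `z ≠ w`, at
most two `v` have distance one from both `w` and `z` (`v = flip w i`; `hammingDist w z = 2` and `i` is one of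
the two coordinates where they differ; compare `Q_codeg` of `Basic`). So
`∑_(v ∈ N) #{z ∈ Z, z ≠ w : hammingDist z v = 1} ≤ 2 |Z|`, and each term is more than `t - 1 ≥ t / 2`. -/
def S_COD : Prop := ∀ (n : ℕ) (w : Fin n → Bool) (Z N : Finset (Fin n → Bool)) (t : ℝ), 2 ≤ t →
  (∀ v ∈ N, hammingDist w v = 1 ∧ t < ((Z.filter (fun z => hammingDist z v = 1)).card : ℝ)) →
  (N.card : ℝ) * (t / 2) ≤ 2 * Z.card

/-- [AT REP] the repair (Uses `S_BWT`, `S_COD`.)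

Proof. Induction on `M = (range (k + 1) \ E').card` for the following state: a set `E ⊆ E' ⊆ range (k + 1)` closed
under `p`, a map `ψ` and colours `col'` with `ψ = φ` on `E`; `ψ` injective on `E'`, `ψ v ∈ S` and
`ψ v ∉ Bs S f C δ ρ s` for `v ∈ E'`, where `s = (range (k + 1) \ E').card ≤ R` (`M = s`);
`f (col' v) (ψ (p v)) = ψ v ≠ ψ (p v)` for `v ∈ E'`, `v ≥ 1`; `col'` injective on `E' \ {0}`, `col' v ∉ ρ` for
`v ∈ E` and `col' v ∈ ρ` for `v ∈ E' \ E`; and for all `v ∈ E'` `occ (ψ v) ≤ g / 8`, where `occ w` is the number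
of the `a ∈ act f w ρ` with `f a w ∈ φ(E)`. Start: `E' = E`, `ψ = φ`, `col' = col`; `s ≤ R` and `Bs` is
increasing (`S_BWT`). For `y ∈ E`, `occ (φ y) ≤ (nE p E φ y).card ≤ g / 8`: if `a ∈ ρ`, `f a (φ y) = φ i ≠ φ y`,
`i ∈ E`, then `i` determines `a` (`Cu.inj`), the distance is one, and `i` is not adjacent to `y` in the tree:
if `p i = y`, `i ≥ 1`, then `f (col i) (φ y) = φ i = f a (φ y)`, so `a = col i ∉ ρ`; if `p y = i`, `y ≥ 1`, then
`f (col y) (φ i) = φ y`, so `f (col y) (φ y) = φ i` and `a = col y ∉ ρ`. Step: let `x` be the smallest label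
not in `E'` (so `x ≥ 1`, `z = p x ∈ E'`), `w = ψ z ∉ Bs s`, `s ≥ 1`. As `w ∉ Bs s`: more than half of the colours
of `act f w ρ` lead outside `Bs (s - 1)`, and `|act f w ρ| ≥ δ d(w) ≥ g` (`w ∉ Bs 0`). Exclude: the colours
`col' v`, `v ∈ E' \ E` (less than `R + 1`, precisely at most `R`); those leading to `φ(E)` (`occ w ≤ g / 8`);
those leading to `ψ(E' \ E)` (at most `R`, `Cu.inj`); those leading to a `v` with
`g / 8 < #{z ∈ φ(E) : hammingDist z v = 1}` (at most `32 (k + 1) / g`: `S_COD` with `t = g / 8 ≥ 2`, `|φ(E)| ≤ k + 1`;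
`Cu.inj`). In total at most `2 R + g / 8 + 32 (k + 1) / g ≤ g / 2 < ` the number of colours leading outside
`Bs (s - 1)`; so some `a ∈ act f w ρ` is left. Put `ψ x = f a w`, `col' x = a`, `E'' = insert x E'`. `occ (ψ x) ≤
#{z ∈ φ(E) : hammingDist z (ψ x) = 1} ≤ g / 8` by `Cu.inj` (different colours lead to different vertices). `ψ x ∈ S`
(`Sy.mem`). `col' x = a ∈ ρ` is new. At the end `E' = range (k + 1)`. -/
def S_REP : Prop := ∀ (n : ℕ) (S : Finset (Fin n → Bool))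
  (f : ℕ → (Fin n → Bool) → (Fin n → Bool)), Cu S f → ∀ (C ρ : Finset ℕ) (p : ℕ → ℕ), Par p →
  ∀ (k R : ℕ) (δ g : ℝ) (φ : ℕ → (Fin n → Bool)) (col : ℕ → ℕ) (E : Finset ℕ), ρ ⊆ C → 0 < δ →
  16 ≤ g → 2 * (R : ℝ) + g / 8 + 32 * ((k : ℝ) + 1) / g ≤ g / 2 →
  (∀ v ∈ S, g ≤ δ * ((act f v C).card : ℝ)) →
  (∀ v, 1 ≤ v → v ≤ k → col v ∉ ρ ∧ f (col v) (φ (p v)) = φ v ∧ φ v ≠ φ (p v)) →
  Set.InjOn col (Set.Icc 1 k) → E ⊆ range (k + 1) → 0 ∈ E → (∀ v ∈ E, p v ∈ E) → Set.InjOn φ E →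
  (∀ v ∈ E, φ v ∈ S ∧ φ v ∉ Bs S f C δ ρ R) → (range (k + 1) \ E).card ≤ R →
  (∀ y ∈ E, ((nE p E φ y).card : ℝ) ≤ g / 8) →
  ∃ (ψ : ℕ → (Fin n → Bool)) (col' : ℕ → ℕ), Set.InjOn ψ (range (k + 1)) ∧
    (∀ v, 1 ≤ v → v ≤ k → f (col' v) (ψ (p v)) = ψ v ∧ ψ v ≠ ψ (p v)) ∧
    Set.InjOn col' (Set.Icc 1 k)

/-- [AT MAIN] the main theorem for systems with given numbers
(Uses `S_WDS`, `S_SCH`, `S_RUN`, `S_MEM`, `S_CNT`, `S_TRA`, `S_HOM`, `S_CRO`, `S_BAD`, `S_EOF`, `S_CLS`,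
`S_CBE`, `S_BWT`, `S_REP`.)

Proof. `g = δ D / 2`, so `g ≤ δ d(u)` for `u ∈ S`, `d(u) = (act f u C).card`. Suppose that there is no such `ψ`,
`col'`. Consider the pairs `(u, π) ∈ S ×ˢ wds (h + 1) C` with `∃ φ, Fi f p k 0 u π φ` (`φ` is unique), `ρ = C \
π.toFinset`. `π` has no repetition; `S_HOM` gives `col` with `col v ∈ π`, so `col v ∉ ρ`. `φ i ∈ S` (`S_MEM`,
`S_RUN`). Then one of the following holds: (E1) `φ j ∈ Bs S f C δ ρ R` for some `j ≤ k`; (E2) not (E1), hence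
`φ i ∉ Bs … 0` (`S_BWT`), i.e. `Gd f g k φ ρ`, and `R < (range (k + 1) \ Eo p k φ).card`; (E3) not (E1), so
`Gd f g k φ ρ`, and `g / 8 < cb p k y φ` for some `y ≤ k`. For otherwise `S_REP` with `E = Eo p k φ` (`S_EOF`,
`S_CBE`) gives `ψ`, `col'`. Let `w₁ = (C.card - 1).descFactorial h`, `m = C.card`, `Σ = ∑_(u ∈ S) d(u)`, so
`(wds (h + 1) C).card = m w₁` and `num(Hd) = Σ w₁` (`S_WDS`). `S_CNT`: `(h + 1) Σ w₁ ≤ (h + 1) (E1 + E2 + E3) +
(k - 1) |S| m w₁`. `S_BAD` and the sum over `j ≤ k`: `(h + 1) E1 ≤ (k + 1) m w₁ (1 + 3 ^ R) θ Σ`. `S_CLS`: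
`R E2 ≤ (…) Σ w₁`. `S_TRA` (root `y`, `P φ ρ := Gd f g k φ ρ ∧ g / 8 < cb p k y φ`; `cb` depends only on the
labels `≤ k`, `S_SCH` (3)) and `S_CRO` with `t = g / 8`, sum over `y ≤ k`: `E3 ≤ (k + 1) 2 ^ (-g/8)
(1 + 2/g) ^ k Σ w₁`. Divide by `(h + 1) Σ w₁ > 0` (`Σ > D |S| ≥ 0`, `h + 1 ≤ m`), `|S| / Σ ≤ 1 / D`: the sum in the
last hypothesis is at least `1`: contradiction. -/
def S_MAIN : Prop := ∀ (n : ℕ) (S : Finset (Fin n → Bool))
  (f : ℕ → (Fin n → Bool) → (Fin n → Bool)), Cu S f → ∀ (C : Finset ℕ) (p : ℕ → ℕ), Par p →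
  ∀ (k h R : ℕ) (δ g θ D : ℝ), 1 ≤ k → 1 ≤ R → 0 < δ → 0 < D → g = δ * D / 2 → 100 ≤ g → 0 ≤ θ →
  h + 1 ≤ C.card → (∀ u ∈ S, D < 2 * ((act f u C).card : ℝ)) →
  D * S.card < ∑ u ∈ S, ((act f u C).card : ℝ) →
  2 * (R : ℝ) + g / 8 + 32 * ((k : ℝ) + 1) / g ≤ g / 2 →
  (∀ d : ℕ, D < 2 * (d : ℝ) →
    (2 : ℝ) ^ (δ * (d : ℝ)) * (1 - ((C.card : ℝ) - (h + 1)) / (2 * C.card)) ^ d ≤ θ) →
  ((k : ℝ) - 1) * (C.card / ((h : ℝ) + 1)) / D +
    ((k : ℝ) + 1) * (C.card / ((h : ℝ) + 1)) * (1 + 3 ^ R) * θ +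
    (((k : ℝ) + 1) ^ 2 * (3 / g ^ 2) +
      ((k : ℝ) + 1) ^ 3 * ((15 + 200 * k * Real.exp (-g / 5)) / g ^ 3)) / R +
    ((k : ℝ) + 1) * ((2 : ℝ) ^ (-(g / 8)) * (1 + 2 / g) ^ k) < 1 →
  ∃ (ψ : ℕ → (Fin n → Bool)) (col : ℕ → ℕ), Set.InjOn ψ (range (k + 1)) ∧
    (∀ v, 1 ≤ v → v ≤ k → f (col v) (ψ (p v)) = ψ v ∧ ψ v ≠ ψ (p v)) ∧
    Set.InjOn col (Set.Icc 1 k)

/-- [AT NUM] the numbers, with the error `k ^ (4/5)`.

Proof. Let `ε = 1000 k ^ (-1/5) ≤ 1` (`k₀ ≥ 10 ^ 15`; all claims hold for large `k`, uniformly in `m ≥ k`),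
`D = k + 1000 k ^ (4/5) = (1 + ε) k`, `δ = ε / 32`, `g = δ D / 2` (between `ε k / 64` and `ε k / 32`; `ε k =
1000 k ^ (4/5)`), `R = ⌈10 ^ 8 ε ^ (-4)⌉₊ ≤ 10 ^ (-4) k ^ (4/5) + 1`, `r = ⌊ε m / 4⌋₊`, `h + 1 = m - r`,
`θ = exp (-ε k / 64)`. `r ≥ ε m / 4 - 1 ≥ ε m / 8`. (`∀ d`): `2 ^ (δ d) ≤ exp (ε d / 32)`, `(1 - r / (2 m)) ^ d ≤
exp (-ε d / 16)`, so the product is `≤ exp (-ε d / 32) ≤ θ` (`d > D / 2 ≥ k / 2`). `2 R + g / 8 +
32 (k + 1) / g ≤ g / 2`: `R ≤ 10 ^ (-4) k ^ (4/5) + 1`, `g ≥ 15 k ^ (4/5)`, `(k + 1) / g ≤ 65 / ε = 0.065 k ^ (1/5)`.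
The sum: `m / (h + 1) ≤ 1 / (1 - ε / 4) ≤ 2`; first term `≤ 1 / ((1 + ε) (1 - ε / 4)) ≤ 1 - ε / 4` (`(k - 1) / D ≤
1 / (1 + ε)`, `(1 + ε) (1 - ε / 4) ≥ 1 + ε / 2`). Second term: `≤ 2 (k + 1) (1 + 3 ^ R) exp (-15 k ^ (4/5)) ≤ ε / 16`,
as `3 ^ R ≤ exp (1.1 R)`. Third term: `(k + 1) / g ≤ 65 / ε`: `≤ (3 * 65 ^ 2 / ε ^ 2 + 65 ^ 3 (15 + 200 k exp (-g / 5)) /
ε ^ 3) / R ≤ (16 * 65 ^ 3 + 3 * 65 ^ 2) / (ε ^ 3 R) ≤ 5 * 10 ^ 6 ε / 10 ^ 8 = ε / 20` (`200 k exp (-g / 5) ≤ 1`).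
Fourth term: `2 ^ (-g/8) ≤ exp (-g / 16)`, `(1 + 2 / g) ^ k ≤ exp (2 k / g) ≤ exp (130 / ε) = exp (0.13 k ^ (1/5))`:
the term is `≤ ε / 16`. Total `≤ 1 - ε / 4 + 3 ε / 16 < 1`. -/
def S_NUM : Prop := ∃ k₀ : ℕ, ∀ k : ℕ, k₀ ≤ k → ∀ m : ℕ, k ≤ m →
  ∃ (h R : ℕ) (δ g θ : ℝ), 1 ≤ R ∧ 0 < δ ∧
    g = δ * ((k : ℝ) + 1000 * (k : ℝ) ^ (4 / 5 : ℝ)) / 2 ∧
    100 ≤ g ∧ 0 ≤ θ ∧ h + 1 ≤ m ∧ 2 * (R : ℝ) + g / 8 + 32 * ((k : ℝ) + 1) / g ≤ g / 2 ∧
    (∀ d : ℕ, (k : ℝ) + 1000 * (k : ℝ) ^ (4 / 5 : ℝ) < 2 * (d : ℝ) →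
      (2 : ℝ) ^ (δ * (d : ℝ)) * (1 - ((m : ℝ) - (h + 1)) / (2 * m)) ^ d ≤ θ) ∧
    ((k : ℝ) - 1) * (m / ((h : ℝ) + 1)) / ((k : ℝ) + 1000 * (k : ℝ) ^ (4 / 5 : ℝ)) +
      ((k : ℝ) + 1) * (m / ((h : ℝ) + 1)) * (1 + 3 ^ R) * θ +
      (((k : ℝ) + 1) ^ 2 * (3 / g ^ 2) +
        ((k : ℝ) + 1) ^ 3 * ((15 + 200 * k * Real.exp (-g / 5)) / g ^ 3)) / R +
      ((k : ℝ) + 1) * ((2 : ℝ) ^ (-(g / 8)) * (1 + 2 / g) ^ k) < 1

/-- [AT FIN] THEOREM B (Uses `S_SYG`, `S_LAB`, `S_MAIN`, `S_NUM`.)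

Proof. Upper bound. Let `k₀` be from `S_NUM`. For `k < k₀` use `embed_main` as in
`Results/MP_233400_co/UpperBound.lean` (with `l = 0`): `ex*(Q_n, T) ≤ max ((k - 1) / 2) (k + 8 √k) 2 ^ n ≤
9 k₀ 2 ^ n ≤ K k ^ (4/5) 2 ^ n` if `K ≥ 9 k₀` (`k ≥ 1`). For `k ≥ k₀`, `D = k + 1000 k ^ (4/5)`: by `exStar_le` and
`star_value` it suffices: `H ≤ Q n`, `c` proper, no rainbow copy imply `2 e(H) ≤ min (k - 1) n 2 ^ n +
2 K k ^ (4/5) 2 ^ n`. If `n ≤ k - 1` this follows from `e(H) ≤ e(Q n)` (`Q_edges`). Otherwise suppose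
`2 e(H) > D 2 ^ n` (`D ≤ k - 1 + 2 K k ^ (4/5)` for `K ≥ 1000`). `exists_core` gives `S` with average degree more than `D` and all
degrees more than `D / 2` in `H[S]`; `exists_large_of_core` gives a vertex of degree `> D ≥ k`, so
`C.card ≥ k` for the `C` of `S_SYG` (2). `S_MAIN` (numbers from `S_NUM` with `m = C.card`) gives `ψ`, `col`;
with `S_LAB`, `g = ψ ∘ lab` is a rainbow copy (injective because `ψ` is injective on `range (k + 1)` and
`lab a ≤ k`; edges and colours as in `S_THF`: `f (col v) (ψ (p v)) = ψ v ≠ ψ (p v)` gives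
`H.Adj (ψ (p v)) (ψ v)` of colour `col v`). Lower bound: `lower_bound` of `Basic`. (Compare `RP/P_FIN.lean`.) -/
def S_FIN : Prop := ∃ K : ℝ, ∀ (n k : ℕ) (W : Type) [Finite W] (T : SimpleGraph W), 1 ≤ k →
  T.IsTree → T.edgeSet.ncard = k →
  exStar (Q n) (completeBipartiteGraph (Fin 1) (Fin k)) ≤ exStar (Q n) T ∧
  (exStar (Q n) T : ℝ) ≤ exStar (Q n) (completeBipartiteGraph (Fin 1) (Fin k)) +
    K * (k : ℝ) ^ (4 / 5 : ℝ) * 2 ^ n

end Pool.Agent.Lib.MP_233400_co.AT
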