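import Mathlib
import Pool.Agent.Lib.MP_233400_co.AT.Stm
import Pool.Agent.Lib.MP_233400_co.Finish

set_option autoImplicit false

/-!
# MP_233400_co, project AT: the theorem from `S_SYG`, `S_LAB`, `S_MAIN`, `S_NUM`
-/

namespace Pool.Agent.Lib.MP_233400_co.AT

open Finset

/-- the leaves at a vertex of a tree with `k` edges are at most `k` -/
lemma FIN_leaves {W : Type*} [Finite W] (T : SimpleGraph W) (v : W) (k : ℕ)
    (hk : T.edgeSet.ncard = k) :
    {u : W | T.Adj v u ∧ ∀ w : W, T.Adj u w → w = v}.ncard ≤ k := by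
  rw [← hk]
  apply Set.ncard_le_ncard_of_injOn (fun u => s(v, u))
  · intro u hu; exact hu.1
  · intro u _ w _ huw
    have h : u = w ∨ v = w ∧ u = v := by simpa using huw
    rcases h with h | ⟨h1, h2⟩
    · exact h
    · rw [h2, h1]

/-- labels and a map of the labels give a rainbow copy -/
lemma FIN_copy {V W : Type} [DecidableEq V] (H : SimpleGraph V) (c : Sym2 V → ℕ)
    (T : SimpleGraph W) (k : ℕ) (f : ℕ → V → V) (p : ℕ → ℕ) (lab : W → ℕ) (ψ : ℕ → V) (col : ℕ → ℕ)
    (hf : ∀ a u, f a u ≠ u → H.Adj u (f a u) ∧ c s(u, f a u) = a)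
    (hlabi : Function.Injective lab) (hlabk : ∀ a, lab a ≤ k)
    (hlab : ∀ a b, T.Adj a b → (1 ≤ lab b ∧ p (lab b) = lab a) ∨ (1 ≤ lab a ∧ p (lab a) = lab b))
    (hψ : Set.InjOn ψ (range (k + 1)))
    (hcol : ∀ v, 1 ≤ v → v ≤ k → f (col v) (ψ (p v)) = ψ v ∧ ψ v ≠ ψ (p v))
    (hinj : Set.InjOn col (Set.Icc 1 k)) : HasRainbowCopy H c T := by
  have key : ∀ v, 1 ≤ v → v ≤ k → H.Adj (ψ (p v)) (ψ v) ∧ c s(ψ (p v), ψ v) = col v := by
    intro v h1 h2
    obtain ⟨h3, h4⟩ := hcol v h1 h2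
    have h5 : f (col v) (ψ (p v)) ≠ ψ (p v) := by rw [h3]; exact h4
    obtain ⟨h6, h7⟩ := hf (col v) (ψ (p v)) h5
    rw [h3] at h6 h7
    exact ⟨h6, h7⟩
  have hedge : ∀ e ∈ T.edgeSet, ∃ a b : W, e = s(a, b) ∧ 1 ≤ lab b ∧ p (lab b) = lab a := by
    intro e he
    induction e using Sym2.ind with
    | _ a b =>
      rcases hlab a b he with h | h
      · exact ⟨a, b, rfl, h.1, h.2⟩
      · exact ⟨b, a, Sym2.eq_swap, h.1, h.2⟩
  refine ⟨fun a => ψ (lab a), ?_, ?_, ?_⟩
  · intro a b hab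
    have h1 : lab a ∈ (↑(range (k + 1)) : Set ℕ) := by
      rw [Finset.mem_coe, Finset.mem_range]; have := hlabk a; omega
    have h2 : lab b ∈ (↑(range (k + 1)) : Set ℕ) := by
      rw [Finset.mem_coe, Finset.mem_range]; have := hlabk b; omega
    exact hlabi (hψ h1 h2 hab)
  · intro a b hab
    rcases hlab a b hab with ⟨h1, h2⟩ | ⟨h1, h2⟩
    · have h3 := (key (lab b) h1 (hlabk b)).1
      rw [h2] at h3
      exact h3
    · have h3 := (key (lab a) h1 (hlabk a)).1
      rw [h2] at h3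
      exact h3.symm
  · intro e1 he1 e2 he2 heq
    obtain ⟨a1, b1, rfl, h1, h2⟩ := hedge e1 he1
    obtain ⟨a2, b2, rfl, h3, h4⟩ := hedge e2 he2
    have h5 : c s(ψ (lab a1), ψ (lab b1)) = c s(ψ (lab a2), ψ (lab b2)) := heq
    have h6 := (key (lab b1) h1 (hlabk b1)).2
    have h7 := (key (lab b2) h3 (hlabk b2)).2
    rw [h2] at h6
    rw [h4] at h7
    rw [h6, h7] at h5
    have h8 : lab b1 = lab b2 := hinj ⟨h1, hlabk b1⟩ ⟨h3, hlabk b2⟩ h5
    have h9 : b1 = b2 := hlabi h8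
    have h10 : lab a1 = lab a2 := by rw [← h2, ← h4, h8]
    have h11 : a1 = a2 := hlabi h10
    rw [h9, h11]

theorem P_FIN : S_SYG → S_LAB → S_MAIN → S_NUM → S_FIN := by
  intro hSYG hLAB hMAIN hNUM
  classical
  obtain ⟨k₀, hk₀⟩ := hNUM
  refine ⟨1000 + 9 * (k₀ : ℝ), ?_⟩
  intro n k W hWfin T hk hT hTk
  have : Fintype W := Fintype.ofFinite W
  have hk1 : (1 : ℝ) ≤ k := by exact_mod_cast hk
  have h2n : (0 : ℝ) < 2 ^ n := by positivity
  have hk₀0 : (0 : ℝ) ≤ k₀ := Nat.cast_nonneg _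
  obtain ⟨P, hP⟩ : ∃ P : ℝ, P = (k : ℝ) ^ (4 / 5 : ℝ) := ⟨_, rfl⟩
  have hP1 : 1 ≤ P := by
    rw [hP]; exact Real.one_le_rpow hk1 (by norm_num)
  obtain ⟨K, hK⟩ : ∃ K : ℝ, K = 1000 + 9 * (k₀ : ℝ) := ⟨_, rfl⟩
  rw [← hP, ← hK]
  have hKP : 1000 * P + 9 * k₀ ≤ K * P := by
    rw [hK]
    nlinarith
  have hstar := star_value hk n
  have hlow := lower_bound hk hTk n
  refine ⟨by omega, ?_⟩
  have hmain : ∀ H : SimpleGraph (Fin n → Bool), H ≤ Q n → ∀ c : Sym2 (Fin n → Bool) → ℕ,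
      ProperColouring H c → ¬ HasRainbowCopy H c T →
      2 * (H.edgeSet.ncard : ℝ) ≤ ((min (k - 1) n : ℕ) : ℝ) * 2 ^ n + 2 * (K * P) * 2 ^ n := by
    intro H hH c hc hr
    rcases Nat.lt_or_ge (k - 1) n with hn | hn
    · rw [min_eq_left hn.le]
      have hcast : ((k - 1 : ℕ) : ℝ) = (k : ℝ) - 1 := by
        rw [Nat.cast_sub hk]; norm_num
      rw [hcast]
      by_contra hcon
      push Not at hcon
      apply hr
      have hc2 : (Fintype.card (Fin n → Bool) : ℝ) = 2 ^ n := by simp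
      rcases Nat.lt_or_ge k k₀ with hkk | hkk
      · obtain ⟨D, hD⟩ : ∃ D : ℝ, D = (k : ℝ) - 1 + 2 * (K * P) := ⟨_, rfl⟩
        obtain ⟨S, hS, hmin⟩ := exists_core H D (by
          rw [hc2, hD]
          linarith)
        obtain ⟨x0, hx0, hlarge⟩ := exists_large_of_core H D S hS
        have hkk2 : (k : ℝ) < k₀ := by exact_mod_cast hkk
        have hDk : (k : ℝ) < D := by rw [hD]; nlinarith
        obtain ⟨r⟩ := hT.1.nonempty
        have hl := FIN_leaves T r k hTk
        obtain ⟨j, hj⟩ : ∃ j, {u : W | T.Adj r u ∧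
            ∀ w : W, T.Adj u w → w = r}.ncard + j = k :=
          ⟨k - {u : W | T.Adj r u ∧ ∀ w : W, T.Adj u w → w = r}.ncard,
            Nat.add_sub_cancel' hl⟩
        have hjk : (j : ℝ) ≤ k := by
          have : j ≤ k := by omega
          exact_mod_cast this
        refine embed_main hc ?_ hT hTk (r := r) (j := j) hj hx0 ?_ ?_
        · intro x y hxy A hA
          exact Q_codeg hxy A fun w hw => ⟨hH (hA w hw).1, hH (hA w hw).2⟩
        · have h1 : (k : ℝ) < ((nb H S x0).card : ℝ) := hDk.trans hlarge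
          have h2 : k < (nb H S x0).card := by exact_mod_cast h1
          omega
        · intro u hu
          have h1 := hmin u hu
          have h2 : √(j : ℝ) ≤ √(k : ℝ) := Real.sqrt_le_sqrt hjk
          have h3 : √(k : ℝ) ≤ k := by
            rw [Real.sqrt_le_left (by linarith)]
            nlinarith
          have h4 : 2 * ((k : ℝ) + 8 * k) ≤ D := by
            rw [hD]
            linarith
          linarith
      · obtain ⟨D, hD⟩ : ∃ D : ℝ, D = (k : ℝ) + 1000 * P := ⟨_, rfl⟩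
        obtain ⟨S, hS, hmin⟩ := exists_core H D (by
          rw [hc2, hD]
          have h5 : (k : ℝ) + 1000 * P ≤ (k : ℝ) - 1 + 2 * (K * P) := by linarith
          have h6 : ((k : ℝ) + 1000 * P) * 2 ^ n ≤ ((k : ℝ) - 1 + 2 * (K * P)) * 2 ^ n :=
            mul_le_mul_of_nonneg_right h5 h2n.le
          linarith)
        obtain ⟨x0, hx0, hlarge⟩ := exists_large_of_core H D S hS
        have hDk : (k : ℝ) < D := by rw [hD]; linarith
        obtain ⟨f, C, hCu, hf, hcard⟩ := hSYG.2 n H c S hH hc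
        have hCk : k ≤ C.card := by
          have h1 : (k : ℝ) < ((nb H S x0).card : ℝ) := hDk.trans hlarge
          have h2 : k < (nb H S x0).card := by exact_mod_cast h1
          rw [← hcard x0 hx0] at h2
          have h3 : (act f x0 C).card ≤ C.card := Finset.card_filter_le _ _
          omega
        obtain ⟨h, R, δ, g, θ, hR, hδ, hg, hg100, hθ, hhm, hRg, hd, hsum⟩ := hk₀ k hkk C.card hCk
        obtain ⟨p, lab, hpar, hlabi, hlabk, hlab⟩ := hLAB W T k hT hTk
        rw [← hP, ← hD] at hg hd hsum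
        obtain ⟨ψ, col, hψ, hψc, hcoli⟩ := hMAIN n S f hCu C p hpar k h R δ g θ D hk hR hδ
          (by linarith) hg hg100 hθ hhm
          (by
            intro u hu
            rw [hcard u hu]
            exact hmin u hu)
          (by
            refine hS.trans_le (le_of_eq ?_)
            apply Finset.sum_congr rfl
            intro u hu
            rw [hcard u hu])
          hRg hd hsum
        exact FIN_copy H c T k f p lab ψ col
          (fun a u hau => ⟨(hf a u hau).2.1, (hf a u hau).2.2.1⟩) hlabi hlabk hlab hψ hψc hcoli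
    · rw [min_eq_right hn]
      have h1 : H.edgeSet.ncard ≤ (Q n).edgeSet.ncard :=
        Set.ncard_le_ncard (SimpleGraph.edgeSet_mono hH) (Set.toFinite _)
      have h2 : 2 * H.edgeSet.ncard ≤ n * 2 ^ n := by
        rw [← Q_edges n]; omega
      have h3 : 2 * (H.edgeSet.ncard : ℝ) ≤ (n : ℝ) * 2 ^ n := by exact_mod_cast h2
      have h4 : 0 ≤ 2 * (K * P) * 2 ^ n := by
        apply mul_nonneg _ h2n.le
        linarith
      linarith
  have hstarR : 2 * (exStar (Q n) (completeBipartiteGraph (Fin 1) (Fin k)) : ℝ) =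
      ((min (k - 1) n : ℕ) : ℝ) * 2 ^ n := by exact_mod_cast hstar
  obtain ⟨B, hB⟩ : ∃ B : ℝ, B = (exStar (Q n) (completeBipartiteGraph (Fin 1) (Fin k)) : ℝ) +
      K * P * 2 ^ n := ⟨_, rfl⟩
  have hB0 : 0 ≤ B := by
    rw [hB]
    have h4 : 0 ≤ K * P * 2 ^ n := by
      apply mul_nonneg _ h2n.le
      linarith
    have h5 : (0 : ℝ) ≤ (exStar (Q n) (completeBipartiteGraph (Fin 1) (Fin k)) : ℝ) :=
      Nat.cast_nonneg _
    linarith
  have hfl : exStar (Q n) T ≤ ⌊B⌋₊ := by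
    apply exStar_le
    intro H hH c hc hr
    apply Nat.le_floor
    have h1 := hmain H hH c hc hr
    rw [hB]
    linarith
  rw [← hB]
  calc (exStar (Q n) T : ℝ) ≤ (⌊B⌋₊ : ℝ) := by exact_mod_cast hfl
    _ ≤ B := Nat.floor_le hB0

end Pool.Agent.Lib.MP_233400_co.AT
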