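import Pool.Agent.Lib.MP_233400_co.AT.Stm

set_option autoImplicit false

/-!
# MP_233400_co, project AT, piece NUM: the numbers (helper36)

With `x = k ^ (1/5) ≥ 1000` everything is a function of `x` (and `m`): `D = x ^ 5 + 1000 x ^ 4`,
`δ = 125 / (4 x)`, `g = (125/8) (x ^ 4 + 1000 x ^ 3)`, `R = ⌈x ^ 4 / 10 ^ 4⌉₊`, `r = ⌊250 m / x⌋₊`,
`θ = exp (-(125/8) x ^ 4)`.
-/

namespace Pool.Agent.Lib.MP_233400_co.AT

open Finset

theorem NUM_exp_sq (y : ℝ) (hy : 0 ≤ y) : y ^ 2 ≤ Real.exp (2 * y) := by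
  have h1 : y ≤ Real.exp y := by linarith [Real.add_one_le_exp y]
  have h2 : Real.exp (2 * y) = Real.exp y ^ 2 := by
    rw [← Real.exp_nat_mul]
    norm_num
  rw [h2]
  exact pow_le_pow_left₀ hy h1 2

theorem NUM_two_le (y : ℝ) (hy : 0 ≤ y) : (2 : ℝ) ^ y ≤ Real.exp y := by
  have h1 : (2 : ℝ) ≤ Real.exp 1 := by linarith [Real.add_one_le_exp (1 : ℝ)]
  calc (2 : ℝ) ^ y ≤ Real.exp 1 ^ y := Real.rpow_le_rpow (by norm_num) h1 hy
    _ = Real.exp y := Real.exp_one_rpow y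

theorem NUM_two_neg (y : ℝ) (hy : 0 ≤ y) : (2 : ℝ) ^ (-y) ≤ Real.exp (-(y / 2)) := by
  rw [Real.rpow_def_of_pos (by norm_num : (0 : ℝ) < 2)]
  apply Real.exp_le_exp.2
  have := Real.log_two_gt_d9
  nlinarith

/-- the first term -/
theorem NUM_t1 (x : ℝ) (hx : 1000 ≤ x) (k q : ℝ) (hk : k = x ^ 5) (hq0 : 0 ≤ q)
    (hq : q ≤ x / (x - 250)) :
    (k - 1) * q / (k + 1000 * x ^ 4) ≤ 1 - 250 / x := by
  have hx0 : 0 < x := by linarith
  have hx4 : 0 < x ^ 4 := by positivity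
  have h1 : (k - 1) * q / (k + 1000 * x ^ 4) ≤ x ^ 5 * (x / (x - 250)) / (x ^ 5 + 1000 * x ^ 4) := by
    rw [hk]
    have h5 : 1 ≤ x ^ 5 := one_le_pow₀ (by linarith)
    apply div_le_div_of_nonneg_right _ (by positivity)
    calc (x ^ 5 - 1) * q ≤ x ^ 5 * q := by nlinarith
      _ ≤ x ^ 5 * (x / (x - 250)) := mul_le_mul_of_nonneg_left hq (by positivity)
  have h2 : x ^ 5 * (x / (x - 250)) / (x ^ 5 + 1000 * x ^ 4) = x ^ 2 / ((x - 250) * (x + 1000)) := by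
    have : x - 250 ≠ 0 := by linarith
    have : x + 1000 ≠ 0 := by linarith
    have : x ^ 5 + 1000 * x ^ 4 ≠ 0 := by positivity
    field_simp
  rw [h2] at h1
  refine h1.trans ?_
  have h3 : 0 < (x - 250) * (x + 1000) := mul_pos (by linarith) (by linarith)
  rw [div_le_iff₀ h3]
  have h4 : (1 - 250 / x) * ((x - 250) * (x + 1000)) =
      x ^ 2 + 500 * x - 437500 + 62500000 / x := by
    field_simp
    ring
  rw [h4]
  have : 0 ≤ 62500000 / x := by positivity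
  nlinarith

/-- the second term -/
theorem NUM_t2 (x : ℝ) (hx : 1000 ≤ x) (k q : ℝ) (hk : k = x ^ 5) (hq0 : 0 ≤ q) (hq : q ≤ 2)
    (R : ℕ) (hR : (R : ℝ) ≤ x ^ 4 / 10 ^ 4 + 1) :
    (k + 1) * q * (1 + 3 ^ R) * Real.exp (-(125 / 8) * x ^ 4) ≤ 62 / x := by
  have hx0 : 0 < x := by linarith
  have h3 : (3 : ℝ) ^ R ≤ Real.exp (2 * R) := by
    have h1 : (3 : ℝ) ≤ Real.exp 2 := by linarith [Real.add_one_le_exp (2 : ℝ)]
    calc (3 : ℝ) ^ R ≤ Real.exp 2 ^ R := pow_le_pow_left₀ (by norm_num) h1 R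
      _ = Real.exp (2 * R) := by rw [← Real.exp_nat_mul, mul_comm]
  have h4 : (1 : ℝ) ≤ Real.exp (2 * R) := Real.one_le_exp (by positivity)
  have hx4 : 10 ^ 12 ≤ x ^ 4 := by
    calc (10 : ℝ) ^ 12 = 1000 ^ 4 := by norm_num
      _ ≤ x ^ 4 := pow_le_pow_left₀ (by norm_num) hx 4
  have hx5 : 1 ≤ x ^ 5 := one_le_pow₀ (by linarith)
  calc (k + 1) * q * (1 + 3 ^ R) * Real.exp (-(125 / 8) * x ^ 4)
      ≤ (2 * x ^ 5) * 2 * (2 * Real.exp (2 * R)) * Real.exp (-(125 / 8) * x ^ 4) := by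
        apply mul_le_mul_of_nonneg_right _ (Real.exp_nonneg _)
        apply mul_le_mul _ (by linarith) (by positivity) (by positivity)
        apply mul_le_mul _ hq hq0 (by positivity)
        rw [hk]
        linarith
    _ = 8 * x ^ 5 * Real.exp (2 * R + -(125 / 8) * x ^ 4) := by
        rw [Real.exp_add]
        ring
    _ ≤ 8 * x ^ 5 * Real.exp (-(2 * x ^ 4)) := by
        apply mul_le_mul_of_nonneg_left _ (by positivity)
        apply Real.exp_le_exp.2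
        have : x ^ 4 / 10 ^ 4 ≤ x ^ 4 := by
          rw [div_le_iff₀ (by norm_num)]
          nlinarith
        nlinarith
    _ ≤ 8 * x ^ 5 * (1 / (x ^ 4) ^ 2) := by
        apply mul_le_mul_of_nonneg_left _ (by positivity)
        rw [Real.exp_neg, ← one_div]
        apply one_div_le_one_div_of_le (by positivity)
        exact NUM_exp_sq (x ^ 4) (by positivity)
    _ = 8 / x ^ 3 := by
        field_simp
    _ ≤ 62 / x := by
        rw [div_le_div_iff₀ (by positivity) hx0]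
        have : x ≤ x ^ 3 := by nlinarith [sq_nonneg x, pow_pos hx0 2]
        nlinarith

/-- the third term -/
theorem NUM_t3 (x : ℝ) (hx : 1000 ≤ x) (k g : ℝ) (hk : k = x ^ 5)
    (hg : g = 125 / 8 * (x ^ 4 + 1000 * x ^ 3)) (R : ℕ) (hR : x ^ 4 / 10 ^ 4 ≤ (R : ℝ)) :
    ((k + 1) ^ 2 * (3 / g ^ 2) + (k + 1) ^ 3 * ((15 + 200 * k * Real.exp (-g / 5)) / g ^ 3)) / R ≤
      50 / x := by
  have hx0 : 0 < x := by linarith
  have hg0 : 0 < g := by rw [hg]; positivity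
  have hx3 : 200 ≤ x ^ 3 := by
    calc (200 : ℝ) ≤ 1000 ^ 3 := by norm_num
      _ ≤ x ^ 3 := pow_le_pow_left₀ (by norm_num) hx 3
  have hq : (k + 1) / g ≤ 8 / 125 * x := by
    rw [div_le_iff₀ hg0, hk, hg]
    have : 1 ≤ x ^ 4 := one_le_pow₀ (by linarith)
    nlinarith
  have hq0 : 0 ≤ (k + 1) / g := by
    rw [hk]; positivity
  have he : 200 * k * Real.exp (-g / 5) ≤ 1 := by
    have h1 : Real.exp (-g / 5) ≤ Real.exp (-(2 * x ^ 4)) := by
      apply Real.exp_le_exp.2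
      rw [hg]
      have : 0 ≤ x ^ 3 := by positivity
      have : 0 ≤ x ^ 4 := by positivity
      nlinarith
    have h2 : Real.exp (-(2 * x ^ 4)) ≤ 1 / (x ^ 4) ^ 2 := by
      rw [Real.exp_neg, ← one_div]
      apply one_div_le_one_div_of_le (by positivity)
      exact NUM_exp_sq (x ^ 4) (by positivity)
    calc 200 * k * Real.exp (-g / 5) ≤ 200 * x ^ 5 * (1 / (x ^ 4) ^ 2) := by
          rw [hk]
          exact mul_le_mul_of_nonneg_left (h1.trans h2) (by positivity)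
      _ = 200 / x ^ 3 := by field_simp
      _ ≤ 1 := by rw [div_le_one (by positivity)]; exact hx3
  have hk0 : 0 ≤ k := by rw [hk]; positivity
  have e1 : (k + 1) ^ 2 * (3 / g ^ 2) = 3 * ((k + 1) / g) ^ 2 := by
    field_simp
  have e2 : (k + 1) ^ 3 * ((15 + 200 * k * Real.exp (-g / 5)) / g ^ 3) =
      (15 + 200 * k * Real.exp (-g / 5)) * ((k + 1) / g) ^ 3 := by
    field_simp
  have hRpos : 0 < (R : ℝ) := lt_of_lt_of_le (by positivity) hR
  rw [e1, e2, div_le_iff₀ hRpos]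
  have q2 : ((k + 1) / g) ^ 2 ≤ (8 / 125 * x) ^ 2 := pow_le_pow_left₀ hq0 hq 2
  have q3 : ((k + 1) / g) ^ 3 ≤ (8 / 125 * x) ^ 3 := pow_le_pow_left₀ hq0 hq 3
  have q3' : (15 + 200 * k * Real.exp (-g / 5)) * ((k + 1) / g) ^ 3 ≤ 16 * (8 / 125 * x) ^ 3 := by
    apply mul_le_mul (by linarith) q3 (by positivity) (by norm_num)
  have h5 : 3 * ((k + 1) / g) ^ 2 + (15 + 200 * k * Real.exp (-g / 5)) * ((k + 1) / g) ^ 3 ≤
      3 * (8 / 125 * x) ^ 2 + 16 * (8 / 125 * x) ^ 3 := by linarith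
  refine h5.trans ?_
  have h6 : 50 / x * (x ^ 4 / 10 ^ 4) ≤ 50 / x * (R : ℝ) :=
    mul_le_mul_of_nonneg_left hR (by positivity)
  refine le_trans ?_ h6
  have h7 : 50 / x * (x ^ 4 / 10 ^ 4) = x ^ 3 / 200 := by
    field_simp
    norm_num
  rw [h7]
  have : 1000 * x ^ 2 ≤ x ^ 3 := by nlinarith [pow_pos hx0 2]
  nlinarith

/-- the fourth term -/
theorem NUM_t4 (x : ℝ) (hx : 1000 ≤ x) (k : ℕ) (g : ℝ) (hk : (k : ℝ) = x ^ 5)
    (hg : g = 125 / 8 * (x ^ 4 + 1000 * x ^ 3)) :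
    ((k : ℝ) + 1) * ((2 : ℝ) ^ (-(g / 8)) * (1 + 2 / g) ^ k) ≤ 62 / x := by
  have hx0 : 0 < x := by linarith
  have hg0 : 0 < g := by rw [hg]; positivity
  have hx3 : 1000 ^ 3 ≤ x ^ 3 := pow_le_pow_left₀ (by norm_num) hx 3
  have h1 : (2 : ℝ) ^ (-(g / 8)) ≤ Real.exp (-(g / 8 / 2)) := NUM_two_neg (g / 8) (by positivity)
  have h2 : (1 + 2 / g) ^ k ≤ Real.exp (k * (2 / g)) := by
    rw [Real.exp_nat_mul]
    apply pow_le_pow_left₀ (by positivity)
    linarith [Real.add_one_le_exp (2 / g)]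
  have h3 : (k : ℝ) * (2 / g) ≤ x := by
    rw [hk, mul_div_assoc', div_le_iff₀ hg0, hg]
    have : 0 ≤ x ^ 4 := by positivity
    have : 0 ≤ x ^ 5 := by positivity
    nlinarith
  have h4 : (2 : ℝ) ^ (-(g / 8)) * (1 + 2 / g) ^ k ≤ Real.exp (-(2 * (x ^ 4 / 4))) := by
    calc (2 : ℝ) ^ (-(g / 8)) * (1 + 2 / g) ^ k
        ≤ Real.exp (-(g / 8 / 2)) * Real.exp (k * (2 / g)) :=
          mul_le_mul h1 h2 (by positivity) (Real.exp_nonneg _)
      _ = Real.exp (-(g / 8 / 2) + k * (2 / g)) := (Real.exp_add _ _).symm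
      _ ≤ Real.exp (-(2 * (x ^ 4 / 4))) := by
          apply Real.exp_le_exp.2
          have e1 : x ≤ x ^ 3 := by nlinarith [sq_nonneg x, pow_pos hx0 2]
          have : 0 ≤ x ^ 4 := by positivity
          rw [hg] at h3 ⊢
          nlinarith
  have h5 : Real.exp (-(2 * (x ^ 4 / 4))) ≤ 1 / (x ^ 4 / 4) ^ 2 := by
    rw [Real.exp_neg, ← one_div]
    apply one_div_le_one_div_of_le (by positivity)
    exact NUM_exp_sq (x ^ 4 / 4) (by positivity)
  have hx5 : 1 ≤ x ^ 5 := one_le_pow₀ (by linarith)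
  calc ((k : ℝ) + 1) * ((2 : ℝ) ^ (-(g / 8)) * (1 + 2 / g) ^ k)
      ≤ (2 * x ^ 5) * (1 / (x ^ 4 / 4) ^ 2) := by
        apply mul_le_mul (by rw [hk]; linarith) (h4.trans h5) (by positivity) (by positivity)
    _ = 32 / x ^ 3 := by
        field_simp
        norm_num
    _ ≤ 62 / x := by
        rw [div_le_div_iff₀ (by positivity) hx0]
        have : x ≤ x ^ 3 := by nlinarith [sq_nonneg x, pow_pos hx0 2]
        nlinarith

/-- the condition on `g` -/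
theorem NUM_g (x : ℝ) (hx : 1000 ≤ x) (k g : ℝ) (hk : k = x ^ 5)
    (hg : g = 125 / 8 * (x ^ 4 + 1000 * x ^ 3)) (R : ℝ) (hR : R ≤ x ^ 4 / 10 ^ 4 + 1) :
    2 * R + g / 8 + 32 * (k + 1) / g ≤ g / 2 := by
  have hx0 : 0 < x := by linarith
  have hg0 : 0 < g := by rw [hg]; positivity
  have hq : (k + 1) / g ≤ 8 / 125 * x := by
    rw [div_le_iff₀ hg0, hk, hg]
    have : 1 ≤ x ^ 4 := one_le_pow₀ (by linarith)
    nlinarith
  have e1 : 32 * (k + 1) / g = 32 * ((k + 1) / g) := by ring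
  rw [e1]
  have h3 : x ≤ x ^ 3 := by nlinarith [sq_nonneg x, pow_pos hx0 2]
  have h4 : 0 ≤ x ^ 4 := by positivity
  have h5 : x ^ 4 / 10 ^ 4 ≤ x ^ 4 := by
    rw [div_le_iff₀ (by norm_num)]
    nlinarith
  rw [hg] at hq ⊢
  nlinarith

/-- the condition for all degrees -/
theorem NUM_d (x : ℝ) (hx : 1000 ≤ x) (m : ℝ) (hm : x ^ 5 ≤ m) (r : ℝ)
    (hr : 250 * m / x - 1 ≤ r) (hr2 : r ≤ m) (d : ℕ) (hd : x ^ 5 ≤ 2 * (d : ℝ)) :
    (2 : ℝ) ^ (125 / (4 * x) * (d : ℝ)) * (1 - r / (2 * m)) ^ d ≤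
      Real.exp (-(125 / 8) * x ^ 4) := by
  have hx0 : 0 < x := by linarith
  have hx5 : 0 < x ^ 5 := by positivity
  have hm0 : 0 < m := lt_of_lt_of_le hx5 hm
  have h1 : (2 : ℝ) ^ (125 / (4 * x) * (d : ℝ)) ≤ Real.exp (125 / (4 * x) * (d : ℝ)) :=
    NUM_two_le _ (by positivity)
  have hxm : x ≤ 125 * m := by
    have : x ≤ x ^ 5 := le_self_pow₀ (by linarith) (by norm_num)
    nlinarith
  have h2 : 125 * m / x ≤ r := by
    have e1 : 1 ≤ 125 * m / x := by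
      rw [le_div_iff₀ hx0]; linarith
    have e2 : 250 * m / x = 125 * m / x + 125 * m / x := by ring
    linarith
  have h3 : 125 / (2 * x) ≤ r / (2 * m) := by
    rw [div_le_div_iff₀ (by positivity) (by positivity)]
    rw [div_le_iff₀ hx0] at h2
    nlinarith
  have h4 : 0 ≤ 1 - r / (2 * m) := by
    have : r / (2 * m) ≤ 1 := by
      rw [div_le_one (by positivity)]; linarith
    linarith
  have h5 : (1 - r / (2 * m)) ^ d ≤ Real.exp (d * (-(125 / (2 * x)))) := by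
    rw [Real.exp_nat_mul]
    apply pow_le_pow_left₀ h4
    have := Real.add_one_le_exp (-(125 / (2 * x)))
    linarith
  calc (2 : ℝ) ^ (125 / (4 * x) * (d : ℝ)) * (1 - r / (2 * m)) ^ d
      ≤ Real.exp (125 / (4 * x) * (d : ℝ)) * Real.exp (d * (-(125 / (2 * x)))) :=
        mul_le_mul h1 h5 (pow_nonneg h4 _) (Real.exp_nonneg _)
    _ = Real.exp (125 / (4 * x) * (d : ℝ) + d * (-(125 / (2 * x)))) := (Real.exp_add _ _).symm
    _ ≤ Real.exp (-(125 / 8) * x ^ 4) := by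
        apply Real.exp_le_exp.2
        have e1 : 125 / (4 * x) * (d : ℝ) + d * (-(125 / (2 * x))) = -(125 / (4 * x) * d) := by
          field_simp
          ring
        have e2 : 125 / (4 * x) * (x ^ 5 / 2) ≤ 125 / (4 * x) * (d : ℝ) :=
          mul_le_mul_of_nonneg_left (by linarith) (by positivity)
        have e3 : 125 / (4 * x) * (x ^ 5 / 2) = 125 / 8 * x ^ 4 := by
          field_simp
          ring
        rw [e1]
        linarith

theorem P_NUM : S_NUM := by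
  refine ⟨1000 ^ 5, ?_⟩
  intro k hk m hkm
  -- the fifth root
  set x : ℝ := (k : ℝ) ^ (1 / 5 : ℝ) with hxdef
  have hk0 : (0 : ℝ) ≤ k := Nat.cast_nonneg k
  have hk5 : (k : ℝ) = x ^ 5 := by
    rw [hxdef, ← Real.rpow_natCast, ← Real.rpow_mul hk0]
    norm_num
  have hk4 : (k : ℝ) ^ (4 / 5 : ℝ) = x ^ 4 := by
    rw [hxdef, ← Real.rpow_natCast, ← Real.rpow_mul hk0]
    norm_num
  have hx : 1000 ≤ x := by
    have h1 : ((1000 : ℝ) ^ 5) ≤ k := by exact_mod_cast hk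
    have h2 : (((1000 : ℝ) ^ 5) ^ (1 / 5 : ℝ)) ≤ x := Real.rpow_le_rpow (by norm_num) h1 (by norm_num)
    have h3 : (((1000 : ℝ) ^ 5) ^ (1 / 5 : ℝ)) = 1000 := by
      rw [← Real.rpow_natCast, ← Real.rpow_mul (by norm_num)]
      norm_num
    rwa [h3] at h2
  have hx0 : 0 < x := by linarith
  have hm5 : x ^ 5 ≤ (m : ℝ) := by
    rw [← hk5]; exact_mod_cast hkm
  have hx5 : 0 < x ^ 5 := by positivity
  have hm0 : (0 : ℝ) < m := lt_of_lt_of_le hx5 hm5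
  set r : ℕ := ⌊250 * (m : ℝ) / x⌋₊ with hr
  have hr1 : (r : ℝ) ≤ 250 * (m : ℝ) / x := Nat.floor_le (by positivity)
  have hr2 : 250 * (m : ℝ) / x - 1 ≤ r := by
    have := Nat.lt_floor_add_one (250 * (m : ℝ) / x)
    rw [← hr] at this
    linarith
  have hr3 : (r : ℝ) ≤ m / 4 := by
    refine hr1.trans ?_
    rw [div_le_iff₀ hx0]
    nlinarith
  have hr4 : r + 1 ≤ m := by
    have h1 : (1 : ℝ) ≤ x ^ 5 := one_le_pow₀ (by linarith)
    have h2 : (1000 : ℝ) ≤ x ^ 5 := hx.trans (le_self_pow₀ (by linarith) (by norm_num))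
    have h3 : (r : ℝ) + 1 ≤ m := by linarith
    exact_mod_cast h3
  obtain ⟨h, hh⟩ : ∃ h : ℕ, h + 1 + r = m := ⟨m - 1 - r, by omega⟩
  have hhr : (h : ℝ) + 1 = m - r := by
    have : ((h + 1 + r : ℕ) : ℝ) = m := by rw [hh]
    push_cast at this
    linarith
  set R : ℕ := ⌈x ^ 4 / 10 ^ 4⌉₊ with hR
  have hR1 : x ^ 4 / 10 ^ 4 ≤ (R : ℝ) := Nat.le_ceil _
  have hR2 : (R : ℝ) ≤ x ^ 4 / 10 ^ 4 + 1 := (Nat.ceil_lt_add_one (by positivity)).le
  have hq : (m : ℝ) / ((h : ℝ) + 1) ≤ x / (x - 250) := by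
    rw [hhr, div_le_div_iff₀ (by linarith) (by linarith)]
    have h1 : (r : ℝ) * x ≤ 250 * m := by
      rwa [le_div_iff₀ hx0] at hr1
    nlinarith
  have hq0 : 0 ≤ (m : ℝ) / ((h : ℝ) + 1) := by positivity
  have hq2 : (m : ℝ) / ((h : ℝ) + 1) ≤ 2 := by
    refine hq.trans ?_
    rw [div_le_iff₀ (by linarith)]
    linarith
  refine ⟨h, R, 125 / (4 * x), 125 / 8 * (x ^ 4 + 1000 * x ^ 3), Real.exp (-(125 / 8) * x ^ 4),
    ?_, ?_, ?_, ?_, ?_, ?_, ?_, ?_, ?_⟩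
  · exact Nat.one_le_iff_ne_zero.2 (by
      intro h0
      rw [h0] at hR1
      have : 0 < x ^ 4 / 10 ^ 4 := by positivity
      norm_num at hR1
      linarith)
  · positivity
  · rw [hk4, hk5]
    field_simp
    ring
  · have h1 : x ≤ x ^ 4 := le_self_pow₀ (by linarith) (by norm_num)
    have h2 : 0 ≤ x ^ 3 := by positivity
    linarith
  · exact Real.exp_nonneg _
  · omega
  · exact NUM_g x hx k _ hk5 rfl R hR2
  · intro d hd
    rw [hk4] at hd
    have h1 : (m : ℝ) - ((h : ℝ) + 1) = r := by rw [hhr]; ring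
    rw [h1]
    refine NUM_d x hx m hm5 r hr2 (by linarith) d ?_
    have : 0 ≤ x ^ 4 := by positivity
    rw [hk5] at hd
    linarith
  · rw [hk4]
    have t1 := NUM_t1 x hx k _ hk5 hq0 hq
    have t2 := NUM_t2 x hx k _ hk5 hq0 hq2 R hR2
    have t3 := NUM_t3 x hx k _ hk5 rfl R hR1
    have t4 := NUM_t4 x hx k _ hk5 rfl
    have e1 : 250 / x = 62 / x + 50 / x + 62 / x + 76 / x := by
      field_simp
      norm_num
    have e2 : 0 < 76 / x := by positivity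
    linarith

end Pool.Agent.Lib.MP_233400_co.AT
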