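import Pool.Agent.Lib.MP_233400_co.AT.Stm

set_option autoImplicit false

/-!
# MP_233400_co, project AT, piece REP: the repair (helper36)
-/

namespace Pool.Agent.Lib.MP_233400_co.AT

open Finset

section

variable {n : ℕ}

theorem REP_BsS (S : Finset (Fin n → Bool)) (f : ℕ → (Fin n → Bool) → (Fin n → Bool))
    (C : Finset ℕ) (δ : ℝ) (ρ : Finset ℕ) (s : ℕ) : Bs S f C δ ρ s ⊆ S := by
  cases s with
  | zero => exact filter_subset _ _
  | succ s => exact filter_subset _ _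

theorem REP_mono (S : Finset (Fin n → Bool)) (f : ℕ → (Fin n → Bool) → (Fin n → Bool))
    (C : Finset ℕ) (δ : ℝ) (ρ : Finset ℕ) {s t : ℕ} (h : s ≤ t) :
    Bs S f C δ ρ s ⊆ Bs S f C δ ρ t := by
  induction h with
  | refl => exact Finset.Subset.refl _
  | step _ ih =>
    intro v hv
    exact mem_filter.2 ⟨REP_BsS S f C δ ρ _ hv, Or.inl (ih hv)⟩

/-- the number of the colours of `ρ` at `w` that lead to `Z` -/
def REP_occ (f : ℕ → (Fin n → Bool) → (Fin n → Bool)) (ρ : Finset ℕ)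
    (Z : Finset (Fin n → Bool)) (w : Fin n → Bool) : Finset ℕ :=
  (act f w ρ).filter (fun a => f a w ∈ Z)

theorem REP_act {f : ℕ → (Fin n → Bool) → (Fin n → Bool)} {w : Fin n → Bool} {U : Finset ℕ}
    {a : ℕ} : a ∈ act f w U ↔ a ∈ U ∧ f a w ≠ w := mem_filter

/-- the state of the repair with `s` labels missing -/
structure REP_St (S : Finset (Fin n → Bool)) (f : ℕ → (Fin n → Bool) → (Fin n → Bool))
    (C ρ : Finset ℕ) (p : ℕ → ℕ) (k : ℕ) (δ g : ℝ) (E : Finset ℕ) (Z : Finset (Fin n → Bool))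
    (s : ℕ) (E' : Finset ℕ) (ψ : ℕ → (Fin n → Bool)) (col' : ℕ → ℕ) : Prop where
  sub : E ⊆ E'
  rng : E' ⊆ range (k + 1)
  crd : (range (k + 1) \ E').card = s
  clo : ∀ v ∈ E', p v ∈ E'
  inj : ∀ v ∈ E', ∀ v' ∈ E', ψ v = ψ v' → v = v'
  mem : ∀ v ∈ E', ψ v ∈ S ∧ ψ v ∉ Bs S f C δ ρ s
  edg : ∀ v ∈ E', 1 ≤ v → f (col' v) (ψ (p v)) = ψ v ∧ ψ v ≠ ψ (p v)
  cin : ∀ v ∈ E', ∀ v' ∈ E', 1 ≤ v → 1 ≤ v' → col' v = col' v' → v = v'
  old : ∀ v ∈ E, 1 ≤ v → col' v ∉ ρ
  img : ∀ v ∈ E, ψ v ∈ Z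
  occ : ∀ v ∈ E', ((REP_occ f ρ Z (ψ v)).card : ℝ) ≤ g / 8

theorem REP_near {S : Finset (Fin n → Bool)} {f : ℕ → (Fin n → Bool) → (Fin n → Bool)}
    (hC : Cu S f) (w : Fin n → Bool) (A : Finset ℕ) (hA : ∀ a ∈ A, f a w ≠ w)
    (Y : Finset (Fin n → Bool)) (hY : ∀ a ∈ A, f a w ∈ Y) : A.card ≤ Y.card := by
  refine Finset.card_le_card_of_injOn (fun a => f a w) (fun a ha => hY a ha) ?_
  intro a ha b hb hab
  exact hC.inj a b w (hA a ha) hab

theorem REP_step (hCOD : S_COD) {S : Finset (Fin n → Bool)}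
    {f : ℕ → (Fin n → Bool) → (Fin n → Bool)}
    (hC : Cu S f) {C ρ : Finset ℕ} {p : ℕ → ℕ} (hp : Par p) {k R : ℕ} {δ g : ℝ}
    {E : Finset ℕ} {Z : Finset (Fin n → Bool)} (hδ : 0 < δ) (hg : 16 ≤ g)
    (hsum : 2 * (R : ℝ) + g / 8 + 32 * ((k : ℝ) + 1) / g ≤ g / 2)
    (hdeg : ∀ v ∈ S, g ≤ δ * ((act f v C).card : ℝ)) (h0 : 0 ∈ E)
    (hE : (range (k + 1) \ E).card ≤ R) (hZ : Z.card ≤ k + 1)
    {s : ℕ} {E' : Finset ℕ} {ψ : ℕ → (Fin n → Bool)} {col' : ℕ → ℕ}
    (st : REP_St S f C ρ p k δ g E Z (s + 1) E' ψ col') :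
    ∃ (E'' : Finset ℕ) (ψ' : ℕ → (Fin n → Bool)) (col'' : ℕ → ℕ),
      REP_St S f C ρ p k δ g E Z s E'' ψ' col'' := by
  classical
  have hgpos : 0 < g := by linarith
  -- the smallest missing label
  have hne : (range (k + 1) \ E').Nonempty := by
    rw [← Finset.card_pos, st.crd]; exact Nat.succ_pos s
  obtain ⟨x, hx, hxmin⟩ : ∃ x ∈ range (k + 1) \ E', ∀ y ∈ range (k + 1) \ E', x ≤ y :=
    ⟨(range (k + 1) \ E').min' hne, Finset.min'_mem _ _, fun y hy => Finset.min'_le _ y hy⟩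
  have hxr : x ∈ range (k + 1) := (mem_sdiff.1 hx).1
  have hxE : x ∉ E' := (mem_sdiff.1 hx).2
  have hx1 : 1 ≤ x := by
    rcases Nat.eq_zero_or_pos x with h | h
    · exact absurd (st.sub h0) (h ▸ hxE)
    · exact h
  have hzlt : p x < x := hp.lt x hx1
  have hzE : p x ∈ E' := by
    by_contra hcon
    have h1 : p x ∈ range (k + 1) := mem_range.2 (lt_trans hzlt (mem_range.1 hxr))
    have := hxmin (p x) (mem_sdiff.2 ⟨h1, hcon⟩)
    omega
  obtain ⟨hwS, hwB⟩ := st.mem (p x) hzE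
  set w := ψ (p x) with hw
  have hwB0 : w ∉ Bs S f C δ ρ 0 := fun h => hwB (REP_mono S f C δ ρ (Nat.zero_le _) h)
  have hwBs : ¬ (w ∈ Bs S f C δ ρ s ∨ (act f w ρ).card ≤
      2 * ((act f w ρ).filter (fun a => f a w ∈ Bs S f C δ ρ s)).card) :=
    fun h => hwB (mem_filter.2 ⟨hwS, h⟩)
  have hdw : g ≤ ((act f w ρ).card : ℝ) := by
    have h1 : ¬ ((act f w ρ).card : ℝ) < δ * ((act f w C).card : ℝ) :=
      fun h => hwB0 (mem_filter.2 ⟨hwS, h⟩)
    exact (hdeg w hwS).trans (not_lt.1 h1)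
  set G := (act f w ρ).filter (fun a => f a w ∉ Bs S f C δ ρ s) with hG
  have hGc : g / 2 < (G.card : ℝ) := by
    have h1 : ((act f w ρ).filter (fun a => f a w ∈ Bs S f C δ ρ s)).card + G.card =
        (act f w ρ).card := Finset.card_filter_add_card_filter_not _
    have h2 : 2 * ((act f w ρ).filter (fun a => f a w ∈ Bs S f C δ ρ s)).card <
        (act f w ρ).card := by
      by_contra hcon
      exact hwBs (Or.inr (not_lt.1 hcon))
    have h3 : (act f w ρ).card < 2 * G.card := by omega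
    have h4 : ((act f w ρ).card : ℝ) < 2 * (G.card : ℝ) := by exact_mod_cast h3
    linarith
  have hdiff : (E' \ E).card ≤ R :=
    (Finset.card_le_card (Finset.sdiff_subset_sdiff st.rng (Finset.Subset.refl _))).trans hE
  -- excluded colours
  set X1 := (E' \ E).image col' with hX1
  have hX1c : (X1.card : ℝ) ≤ R := by
    exact_mod_cast Finset.card_image_le.trans hdiff
  set X2 := REP_occ f ρ Z w with hX2
  have hX2c : (X2.card : ℝ) ≤ g / 8 := st.occ (p x) hzE
  set X3 := (act f w ρ).filter (fun a => f a w ∈ (E' \ E).image ψ) with hX3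
  have hX3c : (X3.card : ℝ) ≤ R := by
    have h1 : X3.card ≤ ((E' \ E).image ψ).card :=
      REP_near hC w X3 (fun a ha => (REP_act.1 (mem_filter.1 ha).1).2) _
        (fun a ha => (mem_filter.1 ha).2)
    exact_mod_cast h1.trans (Finset.card_image_le.trans hdiff)
  set X4 := (act f w ρ).filter
    (fun a => g / 8 < ((Z.filter (fun z => hammingDist z (f a w) = 1)).card : ℝ)) with hX4
  have hX4c : (X4.card : ℝ) ≤ 32 * ((k : ℝ) + 1) / g := by
    have h1 : X4.card ≤ (X4.image (fun a => f a w)).card :=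
      REP_near hC w X4 (fun a ha => (REP_act.1 (mem_filter.1 ha).1).2) _
        (fun a ha => mem_image.2 ⟨a, ha, rfl⟩)
    have h2 := hCOD n w Z (X4.image (fun a => f a w)) (g / 8) (by linarith) (by
      intro v hv
      obtain ⟨a, ha, rfl⟩ := mem_image.1 hv
      exact ⟨hC.one a w (REP_act.1 (mem_filter.1 ha).1).2, (mem_filter.1 ha).2⟩)
    have h3 : (X4.card : ℝ) ≤ ((X4.image (fun a => f a w)).card : ℝ) := by exact_mod_cast h1
    have h4 : (Z.card : ℝ) ≤ (k : ℝ) + 1 := by exact_mod_cast hZ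
    rw [le_div_iff₀ hgpos]
    nlinarith
  -- a good colour
  obtain ⟨a, haG, haX⟩ : ∃ a ∈ G, a ∉ X1 ∪ X2 ∪ X3 ∪ X4 := by
    by_contra hcon
    push Not at hcon
    have h1 : G.card ≤ (X1 ∪ X2 ∪ X3 ∪ X4).card := Finset.card_le_card (fun a ha => hcon a ha)
    have h2 : (X1 ∪ X2 ∪ X3 ∪ X4).card ≤ X1.card + X2.card + X3.card + X4.card :=
      (Finset.card_union_le _ _).trans (Nat.add_le_add_right
        ((Finset.card_union_le _ _).trans (Nat.add_le_add_right (Finset.card_union_le _ _) _)) _)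
    have h3 : (G.card : ℝ) ≤ (X1.card : ℝ) + X2.card + X3.card + X4.card := by
      exact_mod_cast h1.trans h2
    linarith
  have haA : a ∈ act f w ρ := (mem_filter.1 haG).1
  have haB : f a w ∉ Bs S f C δ ρ s := (mem_filter.1 haG).2
  have haρ : a ∈ ρ := (REP_act.1 haA).1
  have haw : f a w ≠ w := (REP_act.1 haA).2
  simp only [mem_union, not_or] at haX
  obtain ⟨⟨⟨ha1, ha2⟩, ha3⟩, ha4⟩ := haX
  have ha2' : f a w ∉ Z := fun h => ha2 (mem_filter.2 ⟨haA, h⟩)
  have ha3' : f a w ∉ (E' \ E).image ψ := fun h => ha3 (mem_filter.2 ⟨haA, h⟩)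
  have ha4' : ((Z.filter (fun z => hammingDist z (f a w) = 1)).card : ℝ) ≤ g / 8 := by
    by_contra hcon
    exact ha4 (mem_filter.2 ⟨haA, not_le.1 hcon⟩)
  have hnew : ∀ v ∈ E', f a w ≠ ψ v := by
    intro v hv h
    by_cases hvE : v ∈ E
    · exact ha2' (h ▸ st.img v hvE)
    · exact ha3' (mem_image.2 ⟨v, mem_sdiff.2 ⟨hv, hvE⟩, h.symm⟩)
  have hcol : ∀ v ∈ E', 1 ≤ v → a ≠ col' v := by
    intro v hv hv1 h
    by_cases hvE : v ∈ E
    · exact st.old v hvE hv1 (h ▸ haρ)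
    · exact ha1 (mem_image.2 ⟨v, mem_sdiff.2 ⟨hv, hvE⟩, h.symm⟩)
  have hup : ∀ v ∈ E', Function.update ψ x (f a w) v = ψ v := by
    intro v hv
    exact Function.update_of_ne (fun h => hxE (by rw [← h]; exact hv)) _ _
  have hupc : ∀ v ∈ E', Function.update col' x a v = col' v := by
    intro v hv
    exact Function.update_of_ne (fun h => hxE (by rw [← h]; exact hv)) _ _
  have hupx : Function.update ψ x (f a w) x = f a w := Function.update_self _ _ _
  have hupcx : Function.update col' x a x = a := Function.update_self _ _ _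
  refine ⟨insert x E', Function.update ψ x (f a w), Function.update col' x a, ?_⟩
  constructor
  · exact st.sub.trans (Finset.subset_insert _ _)
  · exact Finset.insert_subset hxr st.rng
  · have h1 : range (k + 1) \ insert x E' = (range (k + 1) \ E').erase x := by
      ext y
      simp only [mem_sdiff, mem_insert, mem_erase, not_or]
      tauto
    rw [h1, Finset.card_erase_of_mem hx, st.crd]
    rfl
  · intro v hv
    rcases mem_insert.1 hv with h | h
    · rw [h]; exact mem_insert_of_mem hzE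
    · exact mem_insert_of_mem (st.clo v h)
  · intro v hv v' hv' h
    rcases mem_insert.1 hv with rfl | h1
    · rcases mem_insert.1 hv' with h2 | h2
      · exact h2.symm
      · rw [hupx, hup v' h2] at h
        exact absurd h (hnew v' h2)
    · rcases mem_insert.1 hv' with h2 | h2
      · rw [h2, hupx, hup v h1] at h
        exact absurd h.symm (hnew v h1)
      · rw [hup v h1, hup v' h2] at h
        exact st.inj v h1 v' h2 h
  · intro v hv
    rcases mem_insert.1 hv with h1 | h1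
    · rw [h1, hupx]
      exact ⟨hC.mem a w hwS, haB⟩
    · rw [hup v h1]
      exact ⟨(st.mem v h1).1, fun h => (st.mem v h1).2 (REP_mono S f C δ ρ (Nat.le_succ s) h)⟩
  · intro v hv hv1
    rcases mem_insert.1 hv with h1 | h1
    · rw [h1, hupx, hupcx, hup (p x) hzE]
      exact ⟨rfl, haw⟩
    · rw [hup v h1, hupc v h1, hup (p v) (st.clo v h1)]
      exact st.edg v h1 hv1
  · intro v hv v' hv' hv1 hv1' h
    rcases mem_insert.1 hv with rfl | h1
    · rcases mem_insert.1 hv' with h2 | h2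
      · exact h2.symm
      · rw [hupcx, hupc v' h2] at h
        exact absurd h (hcol v' h2 hv1')
    · rcases mem_insert.1 hv' with h2 | h2
      · rw [h2, hupcx, hupc v h1] at h
        exact absurd h.symm (hcol v h1 hv1)
      · rw [hupc v h1, hupc v' h2] at h
        exact st.cin v h1 v' h2 hv1 hv1' h
  · intro v hv hv1
    rw [hupc v (st.sub hv)]
    exact st.old v hv hv1
  · intro v hv
    rw [hup v (st.sub hv)]
    exact st.img v hv
  · intro v hv
    rcases mem_insert.1 hv with h1 | h1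
    · rw [h1, hupx]
      refine le_trans ?_ ha4'
      have h2 : (REP_occ f ρ Z (f a w)).card ≤
          (Z.filter (fun z => hammingDist z (f a w) = 1)).card := by
        refine REP_near hC (f a w) _ (fun b hb => (REP_act.1 (mem_filter.1 hb).1).2) _ ?_
        intro b hb
        refine mem_filter.2 ⟨(mem_filter.1 hb).2, ?_⟩
        rw [hammingDist_comm]
        exact hC.one b (f a w) (REP_act.1 (mem_filter.1 hb).1).2
      exact_mod_cast h2
    · rw [hup v h1]
      exact st.occ v h1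

theorem REP_all (hCOD : S_COD) {S : Finset (Fin n → Bool)}
    {f : ℕ → (Fin n → Bool) → (Fin n → Bool)}
    (hC : Cu S f) {C ρ : Finset ℕ} {p : ℕ → ℕ} (hp : Par p) {k R : ℕ} {δ g : ℝ}
    {E : Finset ℕ} {Z : Finset (Fin n → Bool)} (hδ : 0 < δ) (hg : 16 ≤ g)
    (hsum : 2 * (R : ℝ) + g / 8 + 32 * ((k : ℝ) + 1) / g ≤ g / 2)
    (hdeg : ∀ v ∈ S, g ≤ δ * ((act f v C).card : ℝ)) (h0 : 0 ∈ E)
    (hE : (range (k + 1) \ E).card ≤ R) (hZ : Z.card ≤ k + 1) :
    ∀ (s : ℕ) (E' : Finset ℕ) (ψ : ℕ → (Fin n → Bool)) (col' : ℕ → ℕ),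
    REP_St S f C ρ p k δ g E Z s E' ψ col' →
    ∃ (E'' : Finset ℕ) (ψ' : ℕ → (Fin n → Bool)) (col'' : ℕ → ℕ),
      REP_St S f C ρ p k δ g E Z 0 E'' ψ' col'' := by
  intro s
  induction s with
  | zero => exact fun E' ψ col' st => ⟨E', ψ, col', st⟩
  | succ s ih =>
    intro E' ψ col' st
    obtain ⟨E₁, ψ₁, c₁, st₁⟩ := REP_step hCOD hC hp hδ hg hsum hdeg h0 hE hZ st
    exact ih E₁ ψ₁ c₁ st₁

end

theorem P_REP : S_BWT → S_COD → S_REP := by
  intro _ hCOD n S f hC C ρ p hp k R δ g φ col E hρ hδ hg hsum hdeg hcol hcin hEr h0 hclo hinj hmem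
    hER hnE
  classical
  have hc : ∀ v ∈ E, 1 ≤ v → col v ∉ ρ ∧ f (col v) (φ (p v)) = φ v ∧ φ v ≠ φ (p v) := by
    intro v hv hv1
    exact hcol v hv1 (Nat.lt_succ_iff.1 (mem_range.1 (hEr hv)))
  have hst : REP_St S f C ρ p k δ g E (E.image φ) (range (k + 1) \ E).card E φ col := by
    constructor
    · exact Finset.Subset.refl _
    · exact hEr
    · rfl
    · exact hclo
    · intro v hv v' hv' h
      exact hinj hv hv' h
    · intro v hv
      exact ⟨(hmem v hv).1, fun h => (hmem v hv).2 (REP_mono S f C δ ρ hER h)⟩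
    · intro v hv hv1
      exact (hc v hv hv1).2
    · intro v hv v' hv' hv1 hv1' h
      exact hcin ⟨hv1, Nat.lt_succ_iff.1 (mem_range.1 (hEr hv))⟩
        ⟨hv1', Nat.lt_succ_iff.1 (mem_range.1 (hEr hv'))⟩ h
    · intro v hv hv1
      exact (hc v hv hv1).1
    · intro v hv
      exact mem_image.2 ⟨v, hv, rfl⟩
    · intro y hy
      refine le_trans ?_ (hnE y hy)
      have h2 : (REP_occ f ρ (E.image φ) (φ y)).card ≤ ((nE p E φ y).image φ).card := by
        refine REP_near hC (φ y) _ (fun b hb => (REP_act.1 (mem_filter.1 hb).1).2) _ ?_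
        intro b hb
        obtain ⟨hb1, hb2⟩ := mem_filter.1 hb
        obtain ⟨hbρ, hby⟩ := REP_act.1 hb1
        obtain ⟨i, hi, hi2⟩ := mem_image.1 hb2
        refine mem_image.2 ⟨i, mem_filter.2 ⟨hi, ?_, ?_, ?_⟩, hi2⟩
        · rw [hi2, hammingDist_comm]
          exact hC.one b (φ y) hby
        · rintro ⟨hi1, hpi⟩
          obtain ⟨e1, e2, e3⟩ := hc i hi hi1
          rw [hpi] at e2 e3
          have : col i = b := hC.inj (col i) b (φ y) (by rw [e2]; exact e3) (by rw [e2, hi2])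
          exact e1 (this ▸ hbρ)
        · rintro ⟨hy1, hpy⟩
          obtain ⟨e1, e2, e3⟩ := hc y hy hy1
          rw [hpy] at e2 e3
          have e4 : f (col y) (φ y) = φ i := by rw [← e2, hC.invol]
          have : col y = b := hC.inj (col y) b (φ y) (by rw [e4]; exact fun h => e3 h.symm)
            (by rw [e4, hi2])
          exact e1 (this ▸ hbρ)
      exact_mod_cast h2.trans Finset.card_image_le
  have hZ : (E.image φ).card ≤ k + 1 :=
    Finset.card_image_le.trans ((Finset.card_le_card hEr).trans (by rw [card_range]))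
  obtain ⟨E', ψ, col', st⟩ := REP_all hCOD hC hp hδ hg hsum hdeg h0 hER hZ _ E φ col hst
  have hfull : ∀ v, v ≤ k → v ∈ E' := by
    intro v hv
    by_contra hcon
    have h1 : v ∈ range (k + 1) \ E' := mem_sdiff.2 ⟨mem_range.2 (Nat.lt_succ_iff.2 hv), hcon⟩
    rw [Finset.card_eq_zero.1 st.crd] at h1
    simp at h1
  refine ⟨ψ, col', ?_, ?_, ?_⟩
  · intro v hv v' hv' h
    exact st.inj v (hfull v (Nat.lt_succ_iff.1 (mem_range.1 hv))) v'
      (hfull v' (Nat.lt_succ_iff.1 (mem_range.1 hv'))) h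
  · intro v hv1 hvk
    exact st.edg v (hfull v hvk) hv1
  · intro v hv v' hv' h
    exact st.cin v (hfull v hv.2) v' (hfull v' hv'.2) hv.1 hv'.1 h

end Pool.Agent.Lib.MP_233400_co.AT
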