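import Pool.Agent.Lib.MP_233400_co.AT.Stm

set_option autoImplicit false

/-!
# MP_233400_co, project AT: piece SUP (the supermartingale)
-/

namespace Pool.Agent.Lib.MP_233400_co.AT

open Finset

variable {X : Type} [DecidableEq X]

theorem SUP_sdiff (U : Finset ℕ) (c : ℕ) (π : List ℕ) :
    U \ (c :: π).toFinset = (U.erase c) \ π.toFinset := by
  ext x
  simp only [List.toFinset_cons, mem_sdiff, mem_insert, mem_erase, not_or]
  tauto

theorem SUP_skip (f : ℕ → X → X) (g : ℝ) (rew : (ℕ → X) → ℝ) (e : ℕ × ℕ) (O : List (ℕ × ℕ))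
    (U : Finset ℕ) (φ : ℕ → X) (c : ℕ) (π : List ℕ) (h : f c (φ e.1) = φ e.1) :
    gv f g rew (e :: O) U φ (c :: π) = gv f g rew (e :: O) (U.erase c) φ π := by
  unfold gv
  rw [SUP_sdiff]
  have hr : run f (e :: O) φ (c :: π) = run f (e :: O) φ π := by
    simp only [run, if_pos h]
  rw [hr]

theorem SUP_nonneg (f : ℕ → X → X) (g : ℝ) (rew : (ℕ → X) → ℝ) (hrew : ∀ φ, 0 ≤ rew φ)
    (O : List (ℕ × ℕ)) (U : Finset ℕ) (φ : ℕ → X) (π : List ℕ) :
    0 ≤ gv f g rew O U φ π := by
  unfold gv
  split
  · exact le_rfl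
  · split
    · exact hrew _
    · exact le_rfl

theorem SUP_acc (f : ℕ → X → X) (g : ℝ) (rew : (ℕ → X) → ℝ) (hrew : ∀ φ, 0 ≤ rew φ)
    (e : ℕ × ℕ) (O : List (ℕ × ℕ)) (U : Finset ℕ) (φ : ℕ → X) (c : ℕ) (π : List ℕ)
    (h : f c (φ e.1) ≠ φ e.1) :
    gv f g rew (e :: O) U φ (c :: π) ≤
      gv f g rew O (U.erase c) (Function.update φ e.2 (f c (φ e.1))) π := by
  unfold gv
  rw [SUP_sdiff]
  have hr : run f (e :: O) φ (c :: π) =
      run f O (Function.update φ e.2 (f c (φ e.1))) π := by
    simp only [run, if_neg h]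
  rw [hr]
  cases run f O (Function.update φ e.2 (f c (φ e.1))) π with
  | none => exact le_rfl
  | some φ' =>
    simp only
    by_cases h1 : ∀ e' ∈ e :: O, g ≤ ((act f (φ' e'.1) (U.erase c \ π.toFinset)).card : ℝ)
    · have h2 : ∀ e' ∈ O, g ≤ ((act f (φ' e'.1) (U.erase c \ π.toFinset)).card : ℝ) :=
        fun e' he' => h1 e' (List.mem_cons_of_mem _ he')
      rw [if_pos h1, if_pos h2]
    · rw [if_neg h1]
      split
      · exact hrew _
      · exact le_rfl

theorem SUP_nil (f : ℕ → X → X) (g : ℝ) (rew : (ℕ → X) → ℝ) (U : Finset ℕ) (φ : ℕ → X)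
    (π : List ℕ) : gv f g rew [] U φ π = rew φ := by
  unfold gv
  simp [run]

theorem SUP_lin (f : ℕ → X → X) (hR : S_RUN) (e : ℕ × ℕ) (O : List (ℕ × ℕ)) (K : Finset ℕ)
    (hL : Lin (e :: O) K) (φ φ' : ℕ → X) (π : List ℕ) (h : run f (e :: O) φ π = some φ') :
    φ' e.1 = φ e.1 := by
  have key : ∀ (O : List (ℕ × ℕ)) (K : Finset ℕ), Lin O K → ∀ x ∈ K, ∀ e ∈ O, e.2 ≠ x := by
    intro O
    induction O with
    | nil =>
      intro K _ x _ e he
      simp at he
    | cons a O ih =>
      intro K hK x hx e he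
      obtain ⟨h1, h2, h3⟩ := hK
      rcases List.mem_cons.1 he with rfl | he'
      · rintro rfl
        exact h2 hx
      · exact ih _ h3 x (mem_insert_of_mem hx) e he'
  exact ((hR X f (e :: O) K φ hL).1 π φ' h).1 e.1 fun e' he' => key _ K hL e.1 hL.1 e' he'

theorem P_SUP (hW : S_WDS) (hR : S_RUN) : S_SUP := by
  intro X _ f g rew T₀ K G hg hLin hrew hG hG0 hsup
  suffices H : ∀ (i : ℕ) (O : List (ℕ × ℕ)) (K' : Finset ℕ), O <:+ T₀ → Lin O K' →
      ∀ (U : Finset ℕ) (φ : ℕ → X),
      ∑ π ∈ wds i U, gv f g rew O U φ π ≤ ((wds i U).card : ℝ) * G O φ by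
    intro i U φ
    exact H i T₀ K List.suffix_rfl hLin U φ
  obtain ⟨hw1, hw2, hw3, -⟩ := hW
  have hnil : ∀ (i : ℕ) (U : Finset ℕ) (φ : ℕ → X),
      ∑ π ∈ wds i U, gv f g rew [] U φ π ≤ ((wds i U).card : ℝ) * G [] φ := by
    intro i U φ
    simp only [SUP_nil, sum_const, nsmul_eq_mul]
    exact mul_le_mul_of_nonneg_left (hG0 φ) (Nat.cast_nonneg _)
  intro i
  induction i with
  | zero =>
    intro O K' hO hL U φ
    cases O with
    | nil => exact hnil 0 U φ
    | cons e O =>
      have h0 : gv f g rew (e :: O) U φ [] = 0 := by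
        unfold gv
        simp [run]
      simp only [wds, sum_singleton, card_singleton, h0]
      simpa using hG _ _
  | succ i ih =>
    intro O K' hO hL U φ
    cases O with
    | nil => exact hnil (i + 1) U φ
    | cons e O =>
      by_cases hA : g ≤ ((act f (φ e.1) U).card : ℝ)
      · have hcard : ∀ c ∈ U, (wds i (U.erase c)).card = (U.card - 1).descFactorial i := by
          intro c hc
          rw [hw2, card_erase_of_mem hc]
        set w : ℝ := (((U.card - 1).descFactorial i : ℕ) : ℝ) with hwdef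
        have hw0 : 0 ≤ w := Nat.cast_nonneg _
        have h1 : ∀ c ∈ U, ∑ π ∈ wds i (U.erase c), gv f g rew (e :: O) U φ (c :: π) ≤
            w * (if f c (φ e.1) ≠ φ e.1 then G O (Function.update φ e.2 (f c (φ e.1)))
              else G (e :: O) φ) := by
          intro c hc
          have hcc := hcard c hc
          by_cases hf : f c (φ e.1) = φ e.1
          · rw [if_neg (not_not.mpr hf), hwdef, ← hcc,
              sum_congr rfl fun π _ => SUP_skip f g rew e O U φ c π hf]
            exact ih (e :: O) K' hO hL (U.erase c) φ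
          · rw [if_pos hf, hwdef, ← hcc]
            refine (sum_le_sum fun π _ => SUP_acc f g rew hrew e O U φ c π hf).trans ?_
            exact ih O (insert e.2 K') ((List.suffix_cons e O).trans hO) hL.2.2 (U.erase c) _
        rw [hw3]
        refine (sum_le_sum h1).trans ?_
        rw [← mul_sum, sum_ite, sum_const, nsmul_eq_mul]
        have h2 := hsup e O φ U hO hA
        have h3 : (U.filter (fun c => f c (φ e.1) ≠ φ e.1)).card +
            (U.filter (fun c => ¬ f c (φ e.1) ≠ φ e.1)).card = U.card :=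
          card_filter_add_card_filter_not _
        have h3' : ((act f (φ e.1) U).card : ℝ) +
            ((U.filter (fun c => ¬ f c (φ e.1) ≠ φ e.1)).card : ℝ) = (U.card : ℝ) := by
          exact_mod_cast h3
        have h4 : ((wds (i + 1) U).card : ℝ) = w * U.card := by
          rw [hw2, hwdef]
          rcases Nat.eq_zero_or_pos U.card with h0 | h0
          · rw [h0]
            simp
          · obtain ⟨m, hm⟩ := Nat.exists_eq_succ_of_ne_zero (Nat.pos_iff_ne_zero.mp h0)
            rw [hm, Nat.succ_descFactorial_succ, Nat.succ_sub_one]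
            push_cast
            ring
        rw [h4, mul_assoc]
        refine mul_le_mul_of_nonneg_left ?_ hw0
        calc _ ≤ ((act f (φ e.1) U).card : ℝ) * G (e :: O) φ +
              ((U.filter (fun c => ¬ f c (φ e.1) ≠ φ e.1)).card : ℝ) * G (e :: O) φ := by
              gcongr
              exact h2
          _ = (U.card : ℝ) * G (e :: O) φ := by rw [← add_mul, h3']
      · have h0 : ∀ π ∈ wds (i + 1) U, gv f g rew (e :: O) U φ π = 0 := by
          intro π _
          unfold gv
          cases hrun : run f (e :: O) φ π with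
          | none => rfl
          | some φ' =>
            simp only
            have h1 : φ' e.1 = φ e.1 := SUP_lin f hR e O K' hL φ φ' π hrun
            rw [if_neg]
            intro h2
            have h3 := h2 e (List.mem_cons_self)
            rw [h1] at h3
            apply hA
            refine h3.trans ?_
            exact_mod_cast card_le_card (filter_subset_filter _ sdiff_subset)
        rw [sum_congr rfl h0, sum_const_zero]
        exact mul_nonneg (Nat.cast_nonneg _) (hG _ _)

end Pool.Agent.Lib.MP_233400_co.AT
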