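import Pool.Agent.Lib.MP_233400_co.AT.Stm

set_option autoImplicit false

/-! # MP_233400_co, project AT, piece THA -/

namespace Pool.Agent.Lib.MP_233400_co.AT

open Finset

theorem P_THA : S_WDS → S_CNT → S_THA := by
  classical
  intro hWDS hCNT X _ f S hS p hp k C hk hlt
  obtain ⟨w1, w2, -, w4⟩ := hWDS
  obtain ⟨m, hm⟩ : ∃ m, C.card = m + 1 := by
    rcases Nat.eq_zero_or_pos C.card with h | h
    · exfalso
      rw [Finset.card_eq_zero] at h
      subst h
      simp [act] at hlt
    · exact ⟨C.card - 1, by omega⟩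
  have h1 := hCNT X f S hS p hp k (m + 1) C hk
  rw [w4 X f S m C, w2 (m + 1) C, hm, Nat.succ_descFactorial_succ, Nat.add_sub_cancel] at h1
  have hpos : 0 < m.descFactorial m := by
    rw [Nat.descFactorial_self]
    exact Nat.factorial_pos m
  have h2 : 0 < num S (m + 1) C (fun u π => ∃ φ, Fi f p k 0 u π φ) := by
    by_contra hcon
    have h0 : num S (m + 1) C (fun u π => ∃ φ, Fi f p k 0 u π φ) = 0 := by omega
    rw [h0, mul_zero, zero_add] at h1
    have e1 : (m + 1) * ((∑ u ∈ S, (act f u C).card) * m.descFactorial m) =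
        (∑ u ∈ S, (act f u C).card) * ((m + 1) * m.descFactorial m) := by ring
    have e2 : (k - 1) * (S.card * ((m + 1) * m.descFactorial m)) =
        ((k - 1) * S.card) * ((m + 1) * m.descFactorial m) := by ring
    rw [e1, e2] at h1
    have h3 := Nat.le_of_mul_le_mul_right h1 (by positivity)
    omega
  unfold num at h2
  obtain ⟨⟨u, π⟩, hx⟩ := Finset.card_pos.1 h2
  obtain ⟨hx1, φ, hφ⟩ := Finset.mem_filter.1 hx
  obtain ⟨hu, hπ⟩ := Finset.mem_product.1 hx1
  exact ⟨u, hu, π, φ, ((w1 _ _ _).1 hπ).1, hφ⟩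

end Pool.Agent.Lib.MP_233400_co.AT
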