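import Pool.Agent.Lib.MP_233400_co.AT.Stm

set_option autoImplicit false

/-!
# Piece TRA: the end of the process seen from the label `y`
-/

namespace Pool.Agent.Lib.MP_233400_co.AT

open Finset

/-- second ends of a schedule that can be run are not embedded before -/
lemma TRA_lin : ∀ (O : List (ℕ × ℕ)) (K : Finset ℕ), Lin O K → ∀ e ∈ O, e.2 ∉ K := by
  intro O
  induction O with
  | nil => intro K _ e he; simp at he
  | cons a O ih =>
    intro K hL e he
    obtain ⟨_, h2, h3⟩ := hL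
    rcases List.mem_cons.1 he with rfl | he
    · exact h2
    · intro hK
      exact ih _ h3 e he (Finset.mem_insert_of_mem hK)

theorem P_TRA : S_WDS → S_SCH → S_DET → S_LOC → S_RUN → S_MEM → S_TRA := by
  intro hWDS hSCH hDET hLOC hRUN hMEM X _ f S hSy p hp k y h C P hk hy hP
  classical
  obtain ⟨hW1, -⟩ := hWDS
  choose Ψ hΨ1 hΨ2 using fun φ => hLOC X f p hp hSy.invol φ k hk y hy
  obtain ⟨hlin0, -, hse0, hne0, -⟩ := hSCH p hp k 0 (Nat.zero_le _)
  obtain ⟨hliny, hsurj, -, -, -⟩ := hSCH p hp k y hy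
  unfold num
  set A := (S ×ˢ wds h C).filter
    (fun x : X × List ℕ => ∃ φ, Fi f p k 0 x.1 x.2 φ ∧ P φ (C \ x.2.toFinset)) with hA
  set B := (S ×ˢ wds h C).filter
    (fun x : X × List ℕ => ∃ φ, Fi f p k y x.1 x.2 φ ∧ P φ (C \ x.2.toFinset)) with hB
  have key : ∀ x : A, ∃ (φ : ℕ → X) (W σ : List ℕ), P φ (C \ x.1.2.toFinset) ∧
      x.1.2 = W ++ σ ∧ ER f φ p k 0 W ∧ φ 0 = x.1.1 ∧ ∀ i, k < i → φ i = x.1.1 := by
    rintro ⟨⟨u, π⟩, hx⟩
    rw [hA, Finset.mem_filter] at hx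
    obtain ⟨-, φ, ⟨hHd, hrun⟩, hPφ⟩ := hx
    obtain ⟨hφ, W, σ, hπ, hEx⟩ := (hRUN X f (sch p k 0) {0} (fun _ => u) hlin0).1 π φ hrun
    have h0 : φ 0 = u := hφ 0 (fun e he h0 => TRA_lin _ _ hlin0 e he (by rw [h0]; simp))
    refine ⟨φ, W, σ, hPφ, hπ, ⟨hEx, ?_⟩, h0, fun i hi => hφ i (fun e he h1 => ?_)⟩
    · obtain ⟨v, O, hO⟩ := hne0 hk
      rw [hO] at hEx
      cases W with
      | nil => exact absurd hEx (by simp [Ex])
      | cons c W' =>
        obtain ⟨c', W'', h1, h2⟩ := hHd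
        change π = _ at hπ
        rw [hπ, List.cons_append] at h1
        obtain ⟨rfl, -⟩ := List.cons.inj h1
        exact ⟨c, W', rfl, by rw [h0]; exact h2⟩
    · have := (hse0 e he).2.1
      omega
  choose φ W σ hPφ hπ hER h0 hbig using key
  have hmem : ∀ x : A, (φ x y, Ψ (φ x) (W x) ++ σ x) ∈ B := by
    rintro ⟨⟨u, π⟩, hx⟩
    have hx' := hx
    rw [hA, Finset.mem_filter, Finset.mem_product] at hx'
    obtain ⟨⟨huS, hπw⟩, -⟩ := hx'
    set x : A := ⟨(u, π), hx⟩ with hxdef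
    have hperm : (Ψ (φ x) (W x) ++ σ x).Perm π := by
      have h1 : π = W x ++ σ x := hπ x
      rw [h1]
      exact (hΨ1 (φ x) (W x) (hER x)).2.append_right _
    have hERy := (hΨ1 (φ x) (W x) (hER x)).1
    rw [hB, Finset.mem_filter, Finset.mem_product]
    refine ⟨⟨?_, ?_⟩, ?_⟩
    · have h1 : φ x 0 ∈ S := by
        have h2 : φ x 0 = u := h0 x
        rw [h2]; exact huS
      exact (hMEM X f S hSy).2 p hp k 0 (Nat.zero_le _) (φ x) (W x) h1 (hER x).1 y hy
    · change Ψ (φ x) (W x) ++ σ x ∈ wds h C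
      rw [hW1]
      change π ∈ wds h C at hπw
      rw [hW1] at hπw
      obtain ⟨hn, hl, hc⟩ := hπw
      exact ⟨hperm.nodup_iff.2 hn, hperm.length_eq.trans hl, fun a ha => hc a (hperm.mem_iff.1 ha)⟩
    · change ∃ φ', Fi f p k y (φ x y) (Ψ (φ x) (W x) ++ σ x) φ' ∧
        P φ' (C \ (Ψ (φ x) (W x) ++ σ x).toFinset)
      obtain ⟨φ', hrun', hout, hin⟩ := (hRUN X f (sch p k y) {y} (fun _ => φ x y) hliny).2
        (φ x) (Ψ (φ x) (W x)) (σ x)
        (by intro i hi; rw [Finset.mem_singleton] at hi; rw [hi]) hERy.1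
      refine ⟨φ', ⟨?_, hrun'⟩, ?_⟩
      · obtain ⟨c, W', h1, h2⟩ := hERy.2
        exact ⟨c, W' ++ σ x, by rw [h1, List.cons_append], h2⟩
      · rw [List.toFinset_eq_of_perm _ _ hperm]
        refine hP (φ x) φ' _ (fun i hi => ?_) (hPφ x)
        by_cases hiy : i = y
        · rw [hiy]
          exact (hout y (fun e he h1 => TRA_lin _ _ hliny e he (by rw [h1]; simp))).symm
        · obtain ⟨e, he, rfl⟩ := hsurj i hi hiy
          exact (hin e he).symm
  have hinj : Function.Injective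
      (fun x : A => (⟨(φ x y, Ψ (φ x) (W x) ++ σ x), hmem x⟩ : B)) := by
    intro x x' hxx
    have hxx' := congrArg Subtype.val hxx
    obtain ⟨h1, h2⟩ := Prod.mk.inj hxx'
    obtain ⟨h3, h4, h5⟩ := hDET X f p hp k y hy (φ x) (φ x') _ _ _ _ h1
      (hΨ1 (φ x) (W x) (hER x)).1.1 (hΨ1 (φ x') (W x') (hER x')).1.1 h2
    have hu : x.1.1 = x'.1.1 := by
      rw [← h0 x, ← h0 x']
      exact h5 0 (Nat.zero_le _)
    have hφ : φ x = φ x' := by
      funext i
      by_cases hi : i ≤ k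
      · exact h5 i hi
      · rw [hbig x i (by omega), hbig x' i (by omega), hu]
    have hWW : W x = W x' := by
      apply hΨ2 (φ x) (W x) (W x') (hER x)
      · rw [hφ]; exact hER x'
      · rw [h3, hφ]
    apply Subtype.ext
    apply Prod.ext hu
    rw [hπ x, hπ x', hWW, h4]
  have := Fintype.card_le_of_injective _ hinj
  rw [Fintype.card_coe, Fintype.card_coe] at this
  exact this

end Pool.Agent.Lib.MP_233400_co.AT
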