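import Pool.Agent.Lib.MP_233400_co.AT.Stm

set_option autoImplicit false

/-! # MP_233400_co, project AT, piece WBD -/

namespace Pool.Agent.Lib.MP_233400_co.AT

open Finset

theorem WBD_succ (g : ℝ) (s D : ℕ) : Wf g (s + 1) D =
    Wf g s (D + 1) + min 1 ((D : ℝ) / g) * max 0 (Wf g s (D - 1) - Wf g s (D + 1)) := rfl

theorem WBD_nonneg {g : ℝ} (hg : 0 < g) : ∀ s D, 0 ≤ Wf g s D := by
  intro s
  induction s with
  | zero =>
    intro D
    change (0 : ℝ) ≤ if D = 0 then 1 else 0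
    split_ifs <;> norm_num
  | succ s ih =>
    intro D
    rw [WBD_succ]
    have h1 : 0 ≤ min 1 ((D : ℝ) / g) := le_min zero_le_one (by positivity)
    have h2 : 0 ≤ max 0 (Wf g s (D - 1) - Wf g s (D + 1)) := le_max_left _ _
    have h3 := ih (D + 1)
    positivity

theorem WBD_odd (g : ℝ) : ∀ s D, Odd (s + D) → Wf g s D = 0 := by
  intro s
  induction s with
  | zero =>
    intro D h
    change (if D = 0 then (1 : ℝ) else 0) = 0
    rw [if_neg]
    rintro rfl
    simp at h
  | succ s ih =>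
    intro D h
    rw [WBD_succ, ih (D + 1) (by rw [show s + (D + 1) = s + 1 + D by ring]; exact h)]
    rcases Nat.eq_zero_or_pos D with rfl | hD
    · simp
    · rw [ih (D - 1) (by
        obtain ⟨r, hr⟩ := h
        exact ⟨r - 1, by omega⟩)]
      simp

theorem WBD_supp (g : ℝ) : ∀ s D, s < D → Wf g s D = 0 := by
  intro s
  induction s with
  | zero =>
    intro D h
    change (if D = 0 then (1 : ℝ) else 0) = 0
    rw [if_neg (by omega)]
  | succ s ih =>
    intro D h
    rw [WBD_succ, ih (D + 1) (by omega), ih (D - 1) (by omega)]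
    simp

theorem WBD_crude {g : ℝ} (hg : 0 < g) (s D : ℕ) {a b : ℝ} (hb : 0 ≤ b)
    (h1 : Wf g s (D + 1) ≤ a) (h2 : Wf g s (D - 1) ≤ b) :
    Wf g (s + 1) D ≤ a + (D / g) * b := by
  rw [WBD_succ]
  have h3 : max 0 (Wf g s (D - 1) - Wf g s (D + 1)) ≤ b := by
    refine max_le hb ?_
    have := WBD_nonneg hg s (D + 1)
    linarith
  have h4 : min 1 ((D : ℝ) / g) ≤ D / g := min_le_right _ _
  have h5 : (0 : ℝ) ≤ D / g := by positivity
  have h6 := mul_le_mul h4 h3 (le_max_left _ _) h5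
  linarith

/-- the operator is monotone and commutes with constants -/
theorem WBD_op {m x y X Y c : ℝ} (hm0 : 0 ≤ m) (hm1 : m ≤ 1) (hx : x ≤ X + c) (hy : y ≤ Y + c) :
    x + m * max 0 (y - x) ≤ X + m * max 0 (Y - X) + c := by
  rcases le_total y x with h | h
  · rw [max_eq_left (by linarith : y - x ≤ 0)]
    have := mul_nonneg hm0 (le_max_left 0 (Y - X))
    linarith
  · rw [max_eq_right (by linarith : 0 ≤ y - x)]
    have h1 : m * (Y - X) ≤ m * max 0 (Y - X) := mul_le_mul_of_nonneg_left (le_max_right _ _) hm0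
    have h2 : m * y ≤ m * (Y + c) := mul_le_mul_of_nonneg_left hy hm0
    have h3 : (1 - m) * x ≤ (1 - m) * (X + c) := mul_le_mul_of_nonneg_left hx (by linarith)
    nlinarith

/-- the envelope -/
noncomputable def WBD_H (g : ℝ) (K D : ℕ) : ℝ :=
  if D = 0 then 3 / g ^ 2 else if D = 1 then 15 / g ^ 3 else 12 / (g ^ 3 * 3 ^ (min D K - 2))

theorem WBD_H0 (g : ℝ) (K : ℕ) : WBD_H g K 0 = 3 / g ^ 2 := by simp [WBD_H]

theorem WBD_H1 (g : ℝ) (K : ℕ) : WBD_H g K 1 = 15 / g ^ 3 := by simp [WBD_H]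

theorem WBD_H2 (g : ℝ) (K D : ℕ) (h : 2 ≤ D) :
    WBD_H g K D = 12 / (g ^ 3 * 3 ^ (min D K - 2)) := by
  unfold WBD_H
  rw [if_neg (by omega), if_neg (by omega)]

theorem WBD_Hpos {g : ℝ} (hg : 0 < g) (K D : ℕ) : 0 ≤ WBD_H g K D := by
  unfold WBD_H
  split_ifs <;> positivity

/-- one step of the envelope -/
theorem WBD_step {g : ℝ} (hg : 100 ≤ g) {K : ℕ} (hK : 20 ≤ K) (hKg : (K : ℝ) ≤ g / 5) (D : ℕ) :
    WBD_H g K (D + 1) + min 1 ((D : ℝ) / g) * max 0 (WBD_H g K (D - 1) - WBD_H g K (D + 1)) ≤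
      WBD_H g K D + 65 / (3 ^ K * g ^ 3) := by
  have hg0 : 0 < g := by linarith
  have hη : (0 : ℝ) ≤ 65 / (3 ^ K * g ^ 3) := by positivity
  have hmin0 : 0 ≤ min 1 ((D : ℝ) / g) := le_min zero_le_one (by positivity)
  have hcr : WBD_H g K (D + 1) +
      min 1 ((D : ℝ) / g) * max 0 (WBD_H g K (D - 1) - WBD_H g K (D + 1)) ≤
      WBD_H g K (D + 1) + (D / g) * WBD_H g K (D - 1) := by
    have h3 : max 0 (WBD_H g K (D - 1) - WBD_H g K (D + 1)) ≤ WBD_H g K (D - 1) := by
      refine max_le (WBD_Hpos hg0 _ _) ?_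
      have := WBD_Hpos hg0 K (D + 1)
      linarith
    have h4 : min 1 ((D : ℝ) / g) ≤ D / g := min_le_right _ _
    have h6 := mul_le_mul h4 h3 (le_max_left _ _) (by positivity : (0 : ℝ) ≤ D / g)
    linarith
  rcases lt_or_ge K D with hKD | hKD
  · rw [WBD_H2 g K (D + 1) (by omega), WBD_H2 g K (D - 1) (by omega), WBD_H2 g K D (by omega),
      min_eq_right (by omega : K ≤ D + 1), min_eq_right (by omega : K ≤ D - 1),
      min_eq_right (by omega : K ≤ D), sub_self, max_self, mul_zero, add_zero]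
    linarith
  · refine hcr.trans ?_
    have hDg : (D : ℝ) / g ≤ 1 / 5 := by
      rw [div_le_iff₀ hg0]
      have : (D : ℝ) ≤ K := by exact_mod_cast hKD
      linarith
    rcases Nat.lt_or_ge D 3 with h3 | h3
    · interval_cases D
      · rw [WBD_H1, WBD_H0, Nat.cast_zero, zero_div, zero_mul, add_zero]
        have : 15 / g ^ 3 ≤ 3 / g ^ 2 := by
          rw [div_le_div_iff₀ (by positivity) (by positivity)]
          nlinarith [pow_pos hg0 2]
        linarith
      · rw [WBD_H2 g K 2 le_rfl, WBD_H1, WBD_H0, min_eq_left (by omega : 2 ≤ K), Nat.sub_self,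
          pow_zero, mul_one, Nat.cast_one]
        have : 12 / g ^ 3 + 1 / g * (3 / g ^ 2) = 15 / g ^ 3 := by
          field_simp
          norm_num
        rw [this]
        linarith
      · rw [WBD_H2 g K 3 (by omega), WBD_H2 g K 2 le_rfl, WBD_H1, min_eq_left (by omega : 2 ≤ K),
          min_eq_left (by omega : 3 ≤ K)]
        have h5 : (12 : ℝ) / (g ^ 3 * 3 ^ (3 - 2)) + (2 : ℕ) / g * (15 / g ^ 3) ≤
            12 / (g ^ 3 * 3 ^ (2 - 2)) := by
          have e : (12 : ℝ) / (g ^ 3 * 3 ^ (2 - 2)) -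
              (12 / (g ^ 3 * 3 ^ (3 - 2)) + (2 : ℕ) / g * (15 / g ^ 3)) =
              (8 * g - 30) / g ^ 4 := by
            norm_num
            field_simp
            ring
          have : 0 ≤ (8 * g - 30) / g ^ 4 := div_nonneg (by linarith) (by positivity)
          linarith
        linarith
    · obtain ⟨d, rfl⟩ : ∃ d, D = d + 3 := ⟨D - 3, by omega⟩
      rcases Nat.lt_or_ge (d + 3) K with hlt | hge
      · rw [WBD_H2 g K (d + 3 + 1) (by omega), WBD_H2 g K (d + 3 - 1) (by omega),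
          WBD_H2 g K (d + 3) (by omega), min_eq_left (by omega : d + 3 + 1 ≤ K),
          min_eq_left (by omega : d + 3 - 1 ≤ K), min_eq_left (by omega : d + 3 ≤ K),
          show d + 3 + 1 - 2 = d + 2 by omega, show d + 3 - 1 - 2 = d by omega,
          show d + 3 - 2 = d + 1 by omega]
        have ht : 0 < 12 / (g ^ 3 * (3 : ℝ) ^ (d + 2)) := by positivity
        have e1 : 12 / (g ^ 3 * (3 : ℝ) ^ d) = 9 * (12 / (g ^ 3 * (3 : ℝ) ^ (d + 2))) := by
          rw [pow_add]
          field_simp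
          norm_num
        have e2 : 12 / (g ^ 3 * (3 : ℝ) ^ (d + 1)) = 3 * (12 / (g ^ 3 * (3 : ℝ) ^ (d + 2))) := by
          rw [show d + 2 = d + 1 + 1 by ring, pow_succ (3 : ℝ) (d + 1)]
          field_simp
        rw [e1, e2]
        generalize 12 / (g ^ 3 * (3 : ℝ) ^ (d + 2)) = t at ht
        have h7 : ((d + 3 : ℕ) : ℝ) / g * (9 * t) ≤ 1 / 5 * (9 * t) :=
          mul_le_mul_of_nonneg_right hDg (by positivity)
        linarith
      · have hK3 : K = d + 3 := by omega
        subst hK3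
        rw [WBD_H2 g _ (d + 3 + 1) (by omega), WBD_H2 g _ (d + 3 - 1) (by omega),
          WBD_H2 g _ (d + 3) (by omega), min_eq_right (by omega : d + 3 ≤ d + 3 + 1),
          min_eq_left (by omega : d + 3 - 1 ≤ d + 3), min_self,
          show d + 3 - 1 - 2 = d by omega, show d + 3 - 2 = d + 1 by omega]
        have h8 : ((d + 3 : ℕ) : ℝ) / g * (12 / (g ^ 3 * (3 : ℝ) ^ d)) ≤
            1 / 5 * (12 / (g ^ 3 * (3 : ℝ) ^ d)) :=
          mul_le_mul_of_nonneg_right hDg (by positivity)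
        have h9 : 1 / 5 * (12 / (g ^ 3 * (3 : ℝ) ^ d)) ≤ 65 / (3 ^ (d + 3) * g ^ 3) := by
          have e : 65 / ((3 : ℝ) ^ (d + 3) * g ^ 3) - 1 / 5 * (12 / (g ^ 3 * (3 : ℝ) ^ d)) =
              (1 / 5) / ((3 : ℝ) ^ (d + 3) * g ^ 3) := by
            rw [pow_add]
            field_simp
            norm_num
          have : 0 ≤ (1 / 5) / ((3 : ℝ) ^ (d + 3) * g ^ 3) := by positivity
          linarith
        linarith

theorem P_WBD : S_WBD := by
  intro g hg
  have hg0 : 0 < g := by linarith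
  have hnn := WBD_nonneg hg0
  have w00 : Wf g 0 0 ≤ 1 := by
    change (if (0 : ℕ) = 0 then (1 : ℝ) else 0) ≤ 1
    simp
  have w11 : Wf g 1 1 ≤ 1 / g := by
    have := WBD_crude hg0 0 1 (a := 0) (b := 1) zero_le_one (WBD_supp g 0 2 (by omega)).le w00
    refine this.trans (le_of_eq ?_)
    push_cast
    ring
  have w20 : Wf g 2 0 ≤ 1 / g := by
    have := WBD_crude hg0 1 0 (a := 1 / g) (b := 0) le_rfl w11
      (WBD_odd g 1 0 (by decide)).le
    refine this.trans (le_of_eq ?_)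
    ring
  have w22 : Wf g 2 2 ≤ 2 / g ^ 2 := by
    have := WBD_crude hg0 1 2 (a := 0) (b := 1 / g) (by positivity)
      (WBD_supp g 1 3 (by omega)).le w11
    refine this.trans (le_of_eq ?_)
    push_cast
    field_simp
    ring
  have w31 : Wf g 3 1 ≤ 3 / g ^ 2 := by
    have := WBD_crude hg0 2 1 (a := 2 / g ^ 2) (b := 1 / g) (by positivity) w22 w20
    refine this.trans (le_of_eq ?_)
    push_cast
    field_simp
    norm_num
  have w33 : Wf g 3 3 ≤ 6 / g ^ 3 := by
    have := WBD_crude hg0 2 3 (a := 0) (b := 2 / g ^ 2) (by positivity)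
      (WBD_supp g 2 4 (by omega)).le w22
    refine this.trans (le_of_eq ?_)
    push_cast
    field_simp
    norm_num
  have w40 : Wf g 4 0 ≤ 3 / g ^ 2 := by
    have := WBD_crude hg0 3 0 (a := 3 / g ^ 2) (b := 0) le_rfl w31
      (WBD_odd g 3 0 (by decide)).le
    refine this.trans (le_of_eq ?_)
    ring
  have w42 : Wf g 4 2 ≤ 12 / g ^ 3 := by
    have := WBD_crude hg0 3 2 (a := 6 / g ^ 3) (b := 3 / g ^ 2) (by positivity) w33 w31
    refine this.trans (le_of_eq ?_)
    push_cast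
    field_simp
    norm_num
  have w44 : Wf g 4 4 ≤ 24 / g ^ 4 := by
    have := WBD_crude hg0 3 4 (a := 0) (b := 6 / g ^ 3) (by positivity)
      (WBD_supp g 3 5 (by omega)).le w33
    refine this.trans (le_of_eq ?_)
    push_cast
    field_simp
    norm_num
  -- the envelope
  set K : ℕ := ⌊g / 5⌋₊ with hKdef
  have hK1 : (K : ℝ) ≤ g / 5 := Nat.floor_le (by positivity)
  have hK2 : g / 5 < K + 1 := Nat.lt_floor_add_one _
  have hK : 20 ≤ K := by
    rw [hKdef]
    apply Nat.le_floor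
    push_cast
    linarith
  have hbase : ∀ D, Wf g 4 D ≤ WBD_H g K D := by
    intro D
    rcases Nat.lt_or_ge D 5 with h | h
    · interval_cases D
      · rw [WBD_H0]
        exact w40
      · rw [WBD_odd g 4 1 (by decide)]
        exact WBD_Hpos hg0 _ _
      · rw [WBD_H2 g K 2 le_rfl, min_eq_left (by omega : 2 ≤ K)]
        simpa using w42
      · rw [WBD_odd g 4 3 (by decide)]
        exact WBD_Hpos hg0 _ _
      · rw [WBD_H2 g K 4 (by omega), min_eq_left (by omega : 4 ≤ K)]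
        refine w44.trans ?_
        rw [div_le_div_iff₀ (by positivity) (by positivity)]
        norm_num
        nlinarith [pow_pos hg0 3]
    · rw [WBD_supp g 4 D (by omega)]
      exact WBD_Hpos hg0 _ _
  have hind : ∀ s : ℕ, ∀ D, Wf g (s + 4) D ≤ WBD_H g K D + s * (65 / (3 ^ K * g ^ 3)) := by
    intro s
    induction s with
    | zero =>
      intro D
      rw [Nat.zero_add, Nat.cast_zero, zero_mul, add_zero]
      exact hbase D
    | succ s ih =>
      intro D
      rw [show s + 1 + 4 = (s + 4) + 1 by ring, WBD_succ]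
      have h1 := WBD_op (m := min 1 ((D : ℝ) / g)) (le_min zero_le_one (by positivity))
        (min_le_left _ _) (ih (D + 1)) (ih (D - 1))
      have h2 := WBD_step hg hK hK1 D
      push_cast
      linarith
  refine ⟨hnn, WBD_odd g 0 1 (by decide), WBD_odd g 2 1 (by decide), w31, ?_⟩
  intro s hs
  obtain ⟨r, rfl⟩ : ∃ r, s = r + 4 := ⟨s - 4, by omega⟩
  have h1 := hind r 1
  rw [WBD_H1] at h1
  have hexp : Real.exp (g / 5) ≤ 3 ^ (K + 1) := by
    have h2 : Real.exp (g / 5) ≤ Real.exp ((K + 1 : ℕ) * 1) := by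
      apply Real.exp_le_exp.2
      push_cast
      linarith
    rw [Real.exp_nat_mul] at h2
    refine h2.trans (pow_le_pow_left₀ (Real.exp_pos _).le ?_ _)
    have := Real.exp_one_lt_d9
    linarith
  have h3 : 1 / (3 : ℝ) ^ K ≤ 3 * Real.exp (-g / 5) := by
    rw [neg_div, Real.exp_neg, ← div_eq_mul_inv, div_le_div_iff₀ (by positivity) (Real.exp_pos _),
      one_mul]
    rw [pow_succ] at hexp
    linarith
  have h4 : (r : ℝ) * (65 / (3 ^ K * g ^ 3)) ≤ 200 * ((r + 4 : ℕ) : ℝ) * Real.exp (-g / 5) / g ^ 3 := by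
    have e : (r : ℝ) * (65 / (3 ^ K * g ^ 3)) = (65 * r * (1 / (3 : ℝ) ^ K)) / g ^ 3 := by
      field_simp
    rw [e]
    refine div_le_div_of_nonneg_right ?_ (by positivity)
    have h5 : 65 * (r : ℝ) * (1 / (3 : ℝ) ^ K) ≤ 65 * r * (3 * Real.exp (-g / 5)) :=
      mul_le_mul_of_nonneg_left h3 (by positivity)
    refine h5.trans ?_
    push_cast
    have h6 := Real.exp_pos (-g / 5)
    have h7 : (0 : ℝ) ≤ r := by positivity
    nlinarith [mul_nonneg h7 h6.le]
  refine h1.trans ?_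
  rw [add_div]
  exact add_le_add le_rfl h4

end Pool.Agent.Lib.MP_233400_co.AT
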