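import Pool.Agent.Lib.MP_233400_co.AT.P_WDS
import Pool.Agent.Lib.MP_233400_co.AT.P_SCH
import Pool.Agent.Lib.MP_233400_co.AT.P_EXL
import Pool.Agent.Lib.MP_233400_co.AT.P_DET
import Pool.Agent.Lib.MP_233400_co.AT.P_LOC
import Pool.Agent.Lib.MP_233400_co.AT.P_RUN
import Pool.Agent.Lib.MP_233400_co.AT.P_WAIT
import Pool.Agent.Lib.MP_233400_co.AT.P_MEM
import Pool.Agent.Lib.MP_233400_co.AT.P_CNT
import Pool.Agent.Lib.MP_233400_co.AT.P_TRA
import Pool.Agent.Lib.MP_233400_co.AT.P_HOM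
import Pool.Agent.Lib.MP_233400_co.AT.P_THA
import Pool.Agent.Lib.MP_233400_co.AT.P_SYG
import Pool.Agent.Lib.MP_233400_co.AT.P_LAB
import Pool.Agent.Lib.MP_233400_co.AT.P_THF
import Pool.Agent.Lib.MP_233400_co.AT.P_SUP
import Pool.Agent.Lib.MP_233400_co.AT.P_DWN
import Pool.Agent.Lib.MP_233400_co.AT.P_WBD
import Pool.Agent.Lib.MP_233400_co.AT.P_ANC
import Pool.Agent.Lib.MP_233400_co.AT.P_COL
import Pool.Agent.Lib.MP_233400_co.AT.P_CRO
import Pool.Agent.Lib.MP_233400_co.AT.P_EXM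
import Pool.Agent.Lib.MP_233400_co.AT.P_BSM
import Pool.Agent.Lib.MP_233400_co.AT.P_BWT
import Pool.Agent.Lib.MP_233400_co.AT.P_BAD
import Pool.Agent.Lib.MP_233400_co.AT.P_CSU
import Pool.Agent.Lib.MP_233400_co.AT.P_EOF
import Pool.Agent.Lib.MP_233400_co.AT.P_CLS
import Pool.Agent.Lib.MP_233400_co.AT.P_CBE
import Pool.Agent.Lib.MP_233400_co.AT.P_COD
import Pool.Agent.Lib.MP_233400_co.AT.P_REP
import Pool.Agent.Lib.MP_233400_co.AT.P_MAIN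
import Pool.Agent.Lib.MP_233400_co.AT.P_NUM
import Pool.Agent.Lib.MP_233400_co.AT.P_FIN

set_option autoImplicit false

/-!
# MP_233400_co, project AT: assembly (helper78)
-/

namespace Pool.Agent.Lib.MP_233400_co.AT

theorem a_WDS : S_WDS := P_WDS

theorem a_SCH : S_SCH := P_SCH

theorem a_EXL : S_EXL := P_EXL

theorem a_DET : S_DET := P_DET a_SCH a_EXL

theorem a_LOC : S_LOC := P_LOC a_SCH a_EXL a_DET

theorem a_RUN : S_RUN := P_RUN

theorem a_WAIT : S_WAIT := P_WAIT a_SCH a_EXL a_RUN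

theorem a_MEM : S_MEM := P_MEM a_SCH

theorem a_CNT : S_CNT := P_CNT a_WDS a_EXL a_DET a_LOC a_WAIT a_MEM

theorem a_TRA : S_TRA := P_TRA a_WDS a_SCH a_DET a_LOC a_RUN a_MEM

theorem a_HOM : S_HOM := P_HOM a_SCH

theorem a_THA : S_THA := P_THA a_WDS a_CNT

theorem a_SYG : S_SYG := P_SYG

theorem a_LAB : S_LAB := P_LAB

theorem a_THF : S_THF := P_THF a_SYG a_LAB a_THA a_HOM

theorem a_SUP : S_SUP := P_SUP a_WDS a_RUN

theorem a_DWN : S_DWN := P_DWN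

theorem a_WBD : S_WBD := P_WBD

theorem a_ANC : S_ANC := P_ANC a_SCH

theorem a_COL : S_COL := P_COL a_WDS a_SCH a_RUN a_SUP a_DWN a_ANC

theorem a_CRO : S_CRO := P_CRO a_WDS a_SCH a_RUN a_SUP a_DWN

theorem a_EXM : S_EXM := P_EXM a_WDS

theorem a_BSM : S_BSM := P_BSM a_WDS

theorem a_BWT : S_BWT := P_BWT

theorem a_BAD : S_BAD := P_BAD a_WDS a_SCH a_RUN a_TRA a_BSM a_BWT a_EXM

theorem a_CSU : S_CSU := P_CSU a_ANC

theorem a_EOF : S_EOF := P_EOF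

theorem a_CLS : S_CLS := P_CLS a_WDS a_TRA a_HOM a_ANC a_COL a_WBD a_CSU a_EOF

theorem a_CBE : S_CBE := P_CBE a_SCH a_EOF

theorem a_COD : S_COD := P_COD

theorem a_REP : S_REP := P_REP a_BWT a_COD

theorem a_MAIN : S_MAIN := P_MAIN a_WDS a_SCH a_RUN a_MEM a_CNT a_TRA a_HOM a_CRO a_BAD a_EOF a_CLS a_CBE a_BWT a_REP

theorem a_NUM : S_NUM := P_NUM

theorem a_FIN : S_FIN := P_FIN a_SYG a_LAB a_MAIN a_NUM

end Pool.Agent.Lib.MP_233400_co.AT
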