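import Mathlib
import Pool.Agent.Lib.MP_233400_co.Basic

set_option autoImplicit false

/-!
# MP_233400_co, project AT (all trees): definitions (helper78)

A tree with `k` edges has the vertices (labels) `0, …, k`; the parent of the label `v ≥ 1` is
`p v < v`. The colours are natural numbers, `f a u` is the neighbour of the vertex `u` via the
colour `a` (`u` itself if there is none). A word is a list of different colours; they fire one after
the other. A run has a current edge `(w, v)` of the tree with `w` already embedded; it waits until a
colour that is present at the image of `w` fires, and then `v` is embedded via this colour.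
-/

namespace Pool.Agent.Lib.MP_233400_co.AT

open Finset

section gen

variable {X : Type} [DecidableEq X]

/-- parents: `p 0 = 0` and `p v < v` for `v ≥ 1` -/
structure Par (p : ℕ → ℕ) : Prop where
  zero : p 0 = 0
  lt : ∀ v, 1 ≤ v → p v < v

/-- A system of partial matchings on `S`. -/
structure Sy (S : Finset X) (f : ℕ → X → X) : Prop where
  mem : ∀ a u, u ∈ S → f a u ∈ S
  invol : ∀ a u, f a (f a u) = u

/-- the colours of `U` that are present at `w` -/
def act (f : ℕ → X → X) (w : X) (U : Finset ℕ) : Finset ℕ := U.filter (fun a => f a w ≠ w)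

/-- the words of length `h` in different letters of `C` -/
def wds : ℕ → Finset ℕ → Finset (List ℕ)
  | 0, _ => {[]}
  | h + 1, C => C.biUnion (fun c => (wds h (C.erase c)).image (fun π => c :: π))

/-- The schedule with the root `y ≤ J`: all edges of the tree with the labels `0, …, J`, directed
away from `y`. It is `(y, p y), (p y, p (p y)), …`, down to the label `0`, followed by the edges
`(p i, i)` for the other `i = 1, …, J` in increasing order. -/
def sch (p : ℕ → ℕ) : ℕ → ℕ → List (ℕ × ℕ)
  | 0, _ => []
  | J + 1, y => if y ≤ J then sch p J y ++ [(p (J + 1), J + 1)]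
      else (J + 1, p (J + 1)) :: sch p J (p (J + 1))

/-- The word `W` embeds the edges of `O` one after the other and is used up; `φ` is the final map:
a letter which is a colour at the image of the first end of the current edge is the colour of the
image of this edge, and then the next edge becomes the current one; the other letters are skipped. -/
def Ex (f : ℕ → X → X) (φ : ℕ → X) : List (ℕ × ℕ) → List ℕ → Prop
  | [], [] => True
  | [], _ :: _ => False
  | _ :: _, [] => False
  | e :: O, b :: W => (f b (φ e.1) = φ e.1 ∧ Ex f φ (e :: O) W) ∨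
      (f b (φ e.1) ≠ φ e.1 ∧ f b (φ e.1) = φ e.2 ∧ Ex f φ O W)

/-- the first letter of `W` is a colour at `u` -/
def Hd (f : ℕ → X → X) (u : X) (W : List ℕ) : Prop := ∃ c W', W = c :: W' ∧ f c u ≠ u

/-- the word embeds the tree with the labels `0, …, J` from the root `y`, with the first letter
accepted at once -/
def ER (f : ℕ → X → X) (φ : ℕ → X) (p : ℕ → ℕ) (J y : ℕ) (W : List ℕ) : Prop :=
  Ex f φ (sch p J y) W ∧ Hd f (φ y) W

/-- the run: the final map, if the word is long enough -/
def run (f : ℕ → X → X) : List (ℕ × ℕ) → (ℕ → X) → List ℕ → Option (ℕ → X)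
  | [], φ, _ => some φ
  | _ :: _, _, [] => none
  | e :: O, φ, a :: π => if f a (φ e.1) = φ e.1 then run f (e :: O) φ π
      else run f O (Function.update φ e.2 (f a (φ e.1))) π

/-- the run for the tree with the labels `0, …, k` with the root `y` at `u`, the first letter
accepted at once, ends with the map `φ` -/
def Fi (f : ℕ → X → X) (p : ℕ → ℕ) (k y : ℕ) (u : X) (π : List ℕ) (φ : ℕ → X) : Prop :=
  Hd f u π ∧ run f (sch p k y) (fun _ => u) π = some φ

/-- the number of pairs of a start in `S` and a word of length `h` with the property `P` -/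
noncomputable def num (S : Finset X) (h : ℕ) (C : Finset ℕ) (P : X → List ℕ → Prop) : ℕ :=
  open Classical in ((S ×ˢ wds h C).filter (fun x => P x.1 x.2)).card

/-- the schedule `O` can be run when the labels of `K` are embedded -/
def Lin : List (ℕ × ℕ) → Finset ℕ → Prop
  | [], _ => True
  | e :: O, K => e.1 ∈ K ∧ e.2 ∉ K ∧ Lin O (insert e.2 K)

/-- the value of the word `π` for the run with the schedule `O` from `φ`: the reward of the final
map if, at the end, all vertices at which the run has waited have at least `g` colours among the
colours of `U` that have not fired -/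
noncomputable def gv (f : ℕ → X → X) (g : ℝ) (rew : (ℕ → X) → ℝ) (O : List (ℕ × ℕ))
    (U : Finset ℕ) (φ : ℕ → X) (π : List ℕ) : ℝ :=
  open Classical in
  match run f O φ π with
  | none => 0
  | some φ' => if ∀ e ∈ O, g ≤ ((act f (φ' e.1) (U \ π.toFinset)).card : ℝ) then rew φ' else 0

/-- Trace back from the label `y`: `(x, s)` with `x` the last label on the way to `y` that is
embedded when the edges of `O` are still to be embedded, and `s` the number of steps from `x` to
`y`. -/
def anc : List (ℕ × ℕ) → ℕ → ℕ × ℕ
  | [], y => (y, 0)
  | e :: O, y => if (anc O y).1 = e.2 then (e.1, (anc O y).2 + 1) else anc O y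

/-- the distance of `q` and `y` in the tree with the labels `0, …, k` (`q, y ≤ k`) -/
def dT (p : ℕ → ℕ) (k q y : ℕ) : ℕ := (anc (sch p k q) y).2

/-- the labels without a collided label among themselves and their ancestors -/
noncomputable def Eo (p : ℕ → ℕ) (k : ℕ) (φ : ℕ → X) : Finset ℕ :=
  open Classical in
  (range (k + 1)).filter (fun x => ∀ i ∈ range (k + 1), ∀ y ∈ range (p^[i] x), φ y ≠ φ (p^[i] x))

end gen

/-- An upper bound for the probability that a walk at distance `D` from a vertex `z` of the cube is
at `z` after `s` steps, if every step is a random one among at least `g` directions. -/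
noncomputable def Wf (g : ℝ) : ℕ → ℕ → ℝ
  | 0, D => if D = 0 then 1 else 0
  | s + 1, D => Wf g s (D + 1) + min 1 (D / g) * max 0 (Wf g s (D - 1) - Wf g s (D + 1))

section cube

variable {n : ℕ}

/-- a system of partial matchings of the cube: different colours lead to different vertices -/
structure Cu (S : Finset (Fin n → Bool)) (f : ℕ → (Fin n → Bool) → (Fin n → Bool)) : Prop
    extends Sy S f where
  one : ∀ a u, f a u ≠ u → hammingDist u (f a u) = 1
  inj : ∀ a b u, f a u ≠ u → f a u = f b u → a = b

/-- all vertices of the tree are mapped to vertices with at least `g` colours in `ρ` -/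
def Gd (f : ℕ → (Fin n → Bool) → (Fin n → Bool)) (g : ℝ) (k : ℕ) (φ : ℕ → (Fin n → Bool))
    (ρ : Finset ℕ) : Prop := ∀ i ≤ k, g ≤ ((act f (φ i) ρ).card : ℝ)

/-- the number of the edges `(w, v)` of the schedule with the root `y`, `w ≠ y`, such that `v` is
mapped to a neighbour of the image of `y` and `w` is not mapped to the image of `y` -/
noncomputable def cb (p : ℕ → ℕ) (k y : ℕ) (φ : ℕ → (Fin n → Bool)) : ℕ :=
  ((sch p k y).filter (fun e => decide (e.1 ≠ y ∧ hammingDist (φ e.2) (φ y) = 1 ∧
    φ e.1 ≠ φ y))).length

/-- the labels `i` of `E`, not adjacent to `y` in the tree, that are mapped to neighbours of the image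
of `y` in the cube -/
def nE (p : ℕ → ℕ) (E : Finset ℕ) (φ : ℕ → (Fin n → Bool)) (y : ℕ) : Finset ℕ :=
  E.filter (fun i => hammingDist (φ i) (φ y) = 1 ∧ ¬ (1 ≤ i ∧ p i = y) ∧ ¬ (1 ≤ y ∧ p y = i))

/-- The bad vertices: at first those with less than `δ` times their colours in `ρ`, then also those
for which at least half of their colours in `ρ` lead to bad vertices. -/
noncomputable def Bs (S : Finset (Fin n → Bool)) (f : ℕ → (Fin n → Bool) → (Fin n → Bool))
    (C : Finset ℕ) (δ : ℝ) (ρ : Finset ℕ) : ℕ → Finset (Fin n → Bool)
  | 0 => S.filter (fun v => ((act f v ρ).card : ℝ) < δ * ((act f v C).card : ℝ))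
  | s + 1 => S.filter (fun v => v ∈ Bs S f C δ ρ s ∨
      (act f v ρ).card ≤ 2 * ((act f v ρ).filter (fun a => f a v ∈ Bs S f C δ ρ s)).card)

end cube

end Pool.Agent.Lib.MP_233400_co.AT
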