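import Pool.Agent.Lib.MP_233400_co.AT.Stm

set_option autoImplicit false

namespace Pool.Agent.Lib.MP_233400_co.AT

open Finset

theorem EXM_bern (y h : ℝ) (hy : 0 ≤ y) (hh : 0 ≤ h) : ∀ k : ℕ,
    y ^ (k + 1) + ((k : ℝ) + 1) * h * y ^ k ≤ (y + h) ^ (k + 1)
  | 0 => by simp
  | k + 1 => by
    have ih := EXM_bern y h hy hh k
    have h1 : (y + h) * (y ^ (k + 1) + ((k : ℝ) + 1) * h * y ^ k) ≤ (y + h) * (y + h) ^ (k + 1) :=
      mul_le_mul_of_nonneg_left ih (by positivity)
    have h2 : (y + h) ^ (k + 1 + 1) = (y + h) * (y + h) ^ (k + 1) := by ring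
    rw [h2]
    refine le_trans ?_ h1
    have h3 : (y + h) * (y ^ (k + 1) + ((k : ℝ) + 1) * h * y ^ k) =
        y ^ (k + 1 + 1) + (((k : ℝ) + 1) + 1) * h * y ^ (k + 1) + ((k : ℝ) + 1) * h ^ 2 * y ^ k := by
      ring
    rw [h3]
    push_cast
    have h4 : 0 ≤ ((k : ℝ) + 1) * h ^ 2 * y ^ k := by positivity
    linarith

theorem EXM_sum (A C : Finset ℕ) (y h : ℝ) (hAC : A ⊆ C) (hy : 0 ≤ y) (hh : 0 ≤ h)
    (hyh : (C.card : ℝ) * h = 1 - y) :
    ∑ c ∈ C, y ^ (A.erase c).card ≤ (C.card : ℝ) * (y + h) ^ A.card := by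
  rcases Nat.eq_zero_or_pos A.card with h0 | h0
  · have h1 : ∀ c ∈ C, y ^ (A.erase c).card = 1 := by
      intro c _
      rw [Finset.card_eq_zero] at h0
      rw [h0]
      simp
    rw [Finset.sum_congr rfl h1, h0]
    simp
  · obtain ⟨k, hk⟩ := Nat.exists_eq_add_of_le' h0
    have h1 : ∀ c ∈ C, y ^ (A.erase c).card = y ^ (k + 1) + (if c ∈ A then y ^ k - y ^ (k + 1) else 0) := by
      intro c _
      by_cases hc : c ∈ A
      · rw [if_pos hc, Finset.card_erase_of_mem hc, hk]
        simp
      · rw [if_neg hc, Finset.erase_eq_of_notMem hc, hk]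
        simp
    rw [Finset.sum_congr rfl h1, Finset.sum_add_distrib, Finset.sum_const, nsmul_eq_mul,
      ← Finset.sum_filter, Finset.sum_const, nsmul_eq_mul, Finset.filter_mem_eq_inter,
      Finset.inter_eq_right.2 hAC, hk]
    have h2 := mul_le_mul_of_nonneg_left (EXM_bern y h hy hh k) (Nat.cast_nonneg (α := ℝ) C.card)
    refine le_trans (le_of_eq ?_) h2
    have h3 : (C.card : ℝ) * (y ^ (k + 1) + ((k : ℝ) + 1) * h * y ^ k) =
        (C.card : ℝ) * y ^ (k + 1) + ((k : ℝ) + 1) * ((C.card : ℝ) * h) * y ^ k := by ring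
    rw [h3, hyh]
    push_cast
    ring

theorem P_EXM : S_WDS → S_EXM := by
  rintro ⟨_, hW2, hW3, _⟩ h
  induction h with
  | zero =>
    intro C A hAC _
    have e1 : wds 0 C = {[]} := rfl
    rw [e1]
    simp only [Finset.sum_singleton, List.toFinset_nil, Finset.sdiff_empty, Finset.card_singleton,
      Nat.cast_one, one_mul, Nat.cast_zero, sub_zero]
    rcases Finset.eq_empty_or_nonempty C with hC | hC
    · subst hC
      rw [Finset.subset_empty.1 hAC]
      simp
    · have hm : (C.card : ℝ) ≠ 0 := by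
        exact_mod_cast (Finset.card_pos.2 hC).ne'
      have e2 : 1 - (C.card : ℝ) / (2 * C.card) = 1 / 2 := by
        field_simp
        norm_num
      rw [e2]
  | succ h ih =>
    intro C A hAC hle
    have hcard : 1 ≤ C.card := by omega
    rw [hW3, hW2]
    set m : ℝ := (C.card : ℝ) with hmdef
    have hm0 : (0 : ℝ) < m := by
      rw [hmdef]
      exact_mod_cast hcard
    have hmh : (h : ℝ) + 1 ≤ m := by
      rw [hmdef]
      exact_mod_cast hle
    have hh0 : (0 : ℝ) ≤ h := Nat.cast_nonneg h
    set y : ℝ := 1 - (m - 1 - h) / (2 * (m - 1)) with hy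
    set t : ℝ := (1 - y) / m with ht
    have hm1 : 0 ≤ m - 1 := by linarith
    have hq0 : 0 ≤ (m - 1 - h) / (2 * (m - 1)) :=
      div_nonneg (by linarith) (by linarith)
    have hq1 : (m - 1 - h) / (2 * (m - 1)) ≤ 1 := by
      rcases eq_or_lt_of_le hm1 with h1 | h1
      · rw [← h1]
        norm_num
      · rw [div_le_one (by linarith)]
        linarith
    have hy0 : 0 ≤ y := by linarith
    have ht0 : 0 ≤ t := div_nonneg (by linarith) hm0.le
    have hyt : (C.card : ℝ) * t = 1 - y := by
      rw [← hmdef, ht]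
      field_simp
    have hw : ∀ c ∈ C, ((wds h (C.erase c)).card : ℝ) = ((C.card - 1).descFactorial h : ℝ) := by
      intro c hc
      rw [hW2, Finset.card_erase_of_mem hc]
    have hIH : ∀ c ∈ C, ∑ π ∈ wds h (C.erase c), (1 / 2 : ℝ) ^ (A \ (c :: π).toFinset).card ≤
        ((C.card - 1).descFactorial h : ℝ) * y ^ (A.erase c).card := by
      intro c hc
      have h1 := ih (C.erase c) (A.erase c) (Finset.erase_subset_erase c hAC)
        (by rw [Finset.card_erase_of_mem hc]; omega)
      rw [hw c hc] at h1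
      have h2 : ((C.erase c).card : ℝ) = m - 1 := by
        rw [Finset.card_erase_of_mem hc, Nat.cast_sub hcard, Nat.cast_one, hmdef]
      rw [h2] at h1
      refine le_trans (le_of_eq ?_) h1
      refine Finset.sum_congr rfl fun π _ => ?_
      congr 2
      ext a
      simp only [Finset.mem_sdiff, List.mem_toFinset, List.mem_cons, Finset.mem_erase, not_or]
      tauto
    have hw0 : (0 : ℝ) ≤ ((C.card - 1).descFactorial h : ℝ) := Nat.cast_nonneg _
    calc ∑ c ∈ C, ∑ π ∈ wds h (C.erase c), (1 / 2 : ℝ) ^ (A \ (c :: π).toFinset).card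
        ≤ ∑ c ∈ C, ((C.card - 1).descFactorial h : ℝ) * y ^ (A.erase c).card :=
          Finset.sum_le_sum hIH
      _ = ((C.card - 1).descFactorial h : ℝ) * ∑ c ∈ C, y ^ (A.erase c).card := by
          rw [Finset.mul_sum]
      _ ≤ ((C.card - 1).descFactorial h : ℝ) * ((C.card : ℝ) * (y + t) ^ A.card) :=
          mul_le_mul_of_nonneg_left (EXM_sum A C y t hAC hy0 ht0 hyt) hw0
      _ = _ := by
          have h3 : C.card.descFactorial (h + 1) = C.card * (C.card - 1).descFactorial h := by
            obtain ⟨n, hn⟩ := Nat.exists_eq_add_of_le' hcard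
            rw [hn, Nat.succ_descFactorial_succ, Nat.add_sub_cancel]
          have h4 : y + t = 1 - (m - ((h + 1 : ℕ) : ℝ)) / (2 * m) := by
            rw [ht]
            rcases eq_or_lt_of_le hm1 with h1 | h1
            · have h5 : m = 1 := by linarith
              have h6 : (h : ℝ) = 0 := by linarith
              rw [hy, h5, h6]
              push_cast
              rw [h6]
              norm_num
            · rw [hy]
              push_cast
              have h5 : m - 1 ≠ 0 := h1.ne'
              have h6 : m ≠ 0 := hm0.ne'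
              field_simp
              ring
          rw [h3, h4]
          push_cast
          ring

end Pool.Agent.Lib.MP_233400_co.AT
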