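import Pool.Agent.Lib.MP_233400_co.AT.Stm

set_option autoImplicit false

/-!
# [AT MAIN] the main theorem for systems with given numbers (helper78)
-/

namespace Pool.Agent.Lib.MP_233400_co.AT

open Finset

theorem MAIN_union {X : Type} [DecidableEq X] (S : Finset X) (h : ℕ) (C : Finset ℕ) (k : ℕ)
    (P B : X → List ℕ → Prop) (A A' : ℕ → X → List ℕ → Prop)
    (hyp : ∀ u ∈ S, ∀ π ∈ wds h C, P u π →
      (∃ j ∈ range (k + 1), A j u π) ∨ B u π ∨ ∃ j ∈ range (k + 1), A' j u π) :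
    num S h C P ≤ ∑ j ∈ range (k + 1), num S h C (A j) + num S h C B +
      ∑ j ∈ range (k + 1), num S h C (A' j) := by
  classical
  unfold num
  have h1 : ((S ×ˢ wds h C).filter (fun x => P x.1 x.2)) ⊆
      (((range (k + 1)).biUnion (fun j => (S ×ˢ wds h C).filter (fun x => A j x.1 x.2))) ∪
        (S ×ˢ wds h C).filter (fun x => B x.1 x.2)) ∪
      (range (k + 1)).biUnion (fun j => (S ×ˢ wds h C).filter (fun x => A' j x.1 x.2)) := by
    intro x hx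
    rw [mem_filter, mem_product] at hx
    rcases hyp x.1 hx.1.1 x.2 hx.1.2 hx.2 with ⟨j, hj, hA⟩ | hB | ⟨j, hj, hA⟩
    · refine mem_union_left _ (mem_union_left _ (mem_biUnion.2 ⟨j, hj, ?_⟩))
      rw [mem_filter, mem_product]
      exact ⟨hx.1, hA⟩
    · refine mem_union_left _ (mem_union_right _ ?_)
      rw [mem_filter, mem_product]
      exact ⟨hx.1, hB⟩
    · refine mem_union_right _ (mem_biUnion.2 ⟨j, hj, ?_⟩)
      rw [mem_filter, mem_product]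
      exact ⟨hx.1, hA⟩
  refine (card_le_card h1).trans ((card_union_le _ _).trans ?_)
  refine Nat.add_le_add ((card_union_le _ _).trans (Nat.add_le_add ?_ ?_)) ?_
  · refine card_biUnion_le.trans (le_of_eq ?_)
    apply sum_congr rfl
    intro j _
    congr!
  · apply le_of_eq
    congr!
  · refine card_biUnion_le.trans (le_of_eq ?_)
    apply sum_congr rfl
    intro j _
    congr!

theorem MAIN_arith (k h R m N : ℕ) (Sd w A B g3 θ D : ℝ) (e1 e2 e3 NF : ℝ) (hR : 1 ≤ R)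
    (hk : 1 ≤ k) (hD : 0 < D) (hw : 0 < w) (hm : 0 ≤ (m : ℝ))
    (hSd : D * N < Sd)
    (hCNT : ((h : ℝ) + 1) * (Sd * w) ≤ ((h : ℝ) + 1) * NF + ((k : ℝ) - 1) * (N * (m * w)))
    (hNF : NF ≤ e1 + e2 + e3)
    (h1 : ((h : ℝ) + 1) * e1 ≤ ((k : ℝ) + 1) * (m * w * g3 * (θ * Sd)))
    (h2 : (R : ℝ) * e2 ≤ A * (Sd * w))
    (h3 : e3 ≤ ((k : ℝ) + 1) * (B * (Sd * w)))
    (hsum : ((k : ℝ) - 1) * (m / ((h : ℝ) + 1)) / D +
      ((k : ℝ) + 1) * (m / ((h : ℝ) + 1)) * g3 * θ + A / R + ((k : ℝ) + 1) * B < 1) : False := by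
  have hh : (0 : ℝ) < (h : ℝ) + 1 := by positivity
  have hRpos : (0 : ℝ) < R := by exact_mod_cast hR
  have hk1 : (0 : ℝ) ≤ (k : ℝ) - 1 := by
    have : (1 : ℝ) ≤ k := by exact_mod_cast hk
    linarith
  have hN : (0 : ℝ) ≤ N := Nat.cast_nonneg N
  have hSpos : 0 < Sd := lt_of_le_of_lt (mul_nonneg hD.le hN) hSd
  have hSw : 0 < Sd * w := mul_pos hSpos hw
  have h2' : e2 ≤ A / R * (Sd * w) := by
    rw [div_mul_eq_mul_div, le_div_iff₀ hRpos]
    linarith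
  have h1' : e1 ≤ ((k : ℝ) + 1) * (m / ((h : ℝ) + 1)) * g3 * θ * (Sd * w) := by
    have : ((k : ℝ) + 1) * (m / ((h : ℝ) + 1)) * g3 * θ * (Sd * w) =
        ((k : ℝ) + 1) * (m * w * g3 * (θ * Sd)) / ((h : ℝ) + 1) := by
      field_simp
    rw [this, le_div_iff₀ hh]
    linarith
  have h4 : ((k : ℝ) - 1) * (N * (m * w)) ≤
      ((h : ℝ) + 1) * (((k : ℝ) - 1) * (m / ((h : ℝ) + 1)) / D * (Sd * w)) := by
    have : ((h : ℝ) + 1) * (((k : ℝ) - 1) * (m / ((h : ℝ) + 1)) / D * (Sd * w)) =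
        ((k : ℝ) - 1) * (m * w) * (Sd / D) := by
      field_simp
    rw [this]
    have h5 : (N : ℝ) ≤ Sd / D := by
      rw [le_div_iff₀ hD]
      linarith
    have h6 : (0 : ℝ) ≤ ((k : ℝ) - 1) * (m * w) := mul_nonneg hk1 (mul_nonneg hm hw.le)
    calc ((k : ℝ) - 1) * (N * (m * w)) = ((k : ℝ) - 1) * (m * w) * N := by ring
      _ ≤ _ := mul_le_mul_of_nonneg_left h5 h6
  have h7 : ((h : ℝ) + 1) * (Sd * w) ≤ ((h : ℝ) + 1) * ((((k : ℝ) - 1) * (m / ((h : ℝ) + 1)) / D +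
      ((k : ℝ) + 1) * (m / ((h : ℝ) + 1)) * g3 * θ + A / R + ((k : ℝ) + 1) * B) * (Sd * w)) := by
    have h8 : NF ≤ ((k : ℝ) + 1) * (m / ((h : ℝ) + 1)) * g3 * θ * (Sd * w) +
        A / R * (Sd * w) + ((k : ℝ) + 1) * (B * (Sd * w)) := by linarith
    have h9 := mul_le_mul_of_nonneg_left h8 hh.le
    calc ((h : ℝ) + 1) * (Sd * w) ≤ ((h : ℝ) + 1) * NF + ((k : ℝ) - 1) * (N * (m * w)) := hCNT
      _ ≤ ((h : ℝ) + 1) * (((k : ℝ) + 1) * (m / ((h : ℝ) + 1)) * g3 * θ * (Sd * w) +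
        A / R * (Sd * w) + ((k : ℝ) + 1) * (B * (Sd * w))) +
        ((h : ℝ) + 1) * (((k : ℝ) - 1) * (m / ((h : ℝ) + 1)) / D * (Sd * w)) :=
          add_le_add h9 h4
      _ = _ := by ring
  have h10 : ((h : ℝ) + 1) * ((((k : ℝ) - 1) * (m / ((h : ℝ) + 1)) / D +
      ((k : ℝ) + 1) * (m / ((h : ℝ) + 1)) * g3 * θ + A / R + ((k : ℝ) + 1) * B) * (Sd * w)) <
      ((h : ℝ) + 1) * (1 * (Sd * w)) :=
    mul_lt_mul_of_pos_left (mul_lt_mul_of_pos_right hsum hSw) hh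
  rw [one_mul] at h10
  linarith

theorem P_MAIN (hWDS : S_WDS) (hSCH : S_SCH) (hRUN : S_RUN) (hMEM : S_MEM) (hCNT : S_CNT)
    (hTRA : S_TRA) (hHOM : S_HOM) (hCRO : S_CRO) (hBAD : S_BAD) (hEOF : S_EOF) (hCLS : S_CLS)
    (hCBE : S_CBE) (hBWT : S_BWT) (hREP : S_REP) : S_MAIN := by
  intro n S f hCu C p hp k h R δ g θ D hk hR hδ hD hg hg100 hθ hhC hdeg havg hnum htheta hsum
  by_contra hno
  obtain ⟨hW1, hW2, hW3, hW4⟩ := hWDS
  have hSy : Sy S f := hCu.toSy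
  have hgd : ∀ v ∈ S, g ≤ δ * ((act f v C).card : ℝ) := by
    intro v hv
    have := hdeg v hv
    rw [hg]
    nlinarith
  -- the union
  have hmono : ∀ (ρ : Finset ℕ), ρ ⊆ C → ∀ s, Bs S f C δ ρ 0 ⊆ Bs S f C δ ρ s := by
    intro ρ hρ s
    induction s with
    | zero => exact subset_rfl
    | succ s ih => exact ih.trans (hBWT n S f hCu C ρ δ hρ hδ s).1
  have hunion := MAIN_union S (h + 1) C k (fun u π => ∃ φ, Fi f p k 0 u π φ)
    (fun u π => ∃ φ, Fi f p k 0 u π φ ∧ Gd f g k φ (C \ π.toFinset) ∧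
      R < (range (k + 1) \ Eo p k φ).card)
    (fun j u π => ∃ φ, Fi f p k 0 u π φ ∧ φ j ∈ Bs S f C δ (C \ π.toFinset) R)
    (fun y u π => ∃ φ, Fi f p k 0 u π φ ∧ (Gd f g k φ (C \ π.toFinset) ∧
      g / 8 < (cb p k y φ : ℝ))) (by
    intro u hu π hπ ⟨φ, hφ⟩
    by_contra hcon
    push Not at hcon
    obtain ⟨hc1, hc2, hc3⟩ := hcon
    obtain ⟨hnd, hlen, hsub⟩ := (hW1 (h + 1) C π).1 hπ
    obtain ⟨hφ0, col, hcol, hcolinj⟩ := hHOM (Fin n → Bool) f p hp k u π φ hnd hφ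
    obtain ⟨_, W, σ, hWσ, hEx⟩ := (hRUN (Fin n → Bool) f (sch p k 0) {0} (fun _ => u)
      (hSCH p hp k 0 (Nat.zero_le k)).1).1 π φ hφ.2
    have hmem : ∀ i ≤ k, φ i ∈ S := (hMEM (Fin n → Bool) f S hSy).2 p hp k 0 (Nat.zero_le k) φ W
      (by rw [hφ0]; exact hu) hEx
    have hρ : C \ π.toFinset ⊆ C := sdiff_subset
    have hnb : ∀ i ≤ k, φ i ∉ Bs S f C δ (C \ π.toFinset) R := fun i hi =>
      hc1 i (mem_range.2 (Nat.lt_succ_of_le hi)) φ hφ
    have hGd : Gd f g k φ (C \ π.toFinset) := by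
      intro i hi
      have h1 : φ i ∉ Bs S f C δ (C \ π.toFinset) 0 := fun hm => hnb i hi (hmono _ hρ R hm)
      have h2 : ¬ ((act f (φ i) (C \ π.toFinset)).card : ℝ) <
          δ * ((act f (φ i) C).card : ℝ) := by
        intro hlt
        apply h1
        unfold Bs
        exact mem_filter.2 ⟨hmem i hi, hlt⟩
      push Not at h2
      exact (hgd (φ i) (hmem i hi)).trans h2
    have hcard : (range (k + 1) \ Eo p k φ).card ≤ R := hc2 φ hφ hGd
    obtain ⟨hE1, hE2, hE3, hE4, _⟩ := hEOF (Fin n → Bool) p hp k φ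
    apply hno
    refine hREP n S f hCu C (C \ π.toFinset) p hp k R δ g φ col (Eo p k φ) hρ hδ (by linarith)
      hnum hgd ?_ hcolinj hE1 hE2 hE3 hE4 ?_ hcard ?_
    · intro v hv1 hvk
      obtain ⟨h1, h2, h3⟩ := hcol v hv1 hvk
      refine ⟨?_, h2, h3⟩
      intro hm
      exact (mem_sdiff.1 hm).2 (List.mem_toFinset.2 h1)
    · intro v hv
      have hvk : v ≤ k := Nat.lt_succ_iff.1 (mem_range.1 (hE1 hv))
      exact ⟨hmem v hvk, hnb v hvk⟩
    · intro y hy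
      have hyk : y ≤ k := Nat.lt_succ_iff.1 (mem_range.1 (hE1 hy))
      have h1 := hCBE n p hp k y φ hy
      have h2 := hc3 y (mem_range.2 (Nat.lt_succ_of_le hyk)) φ hφ hGd
      have h3 : ((nE p (Eo p k φ) φ y).card : ℝ) ≤ (cb p k y φ : ℝ) := by exact_mod_cast h1
      linarith)
  -- numbers
  have hm1 : 1 ≤ C.card := le_trans (Nat.le_add_left 1 h) hhC
  set w : ℕ := (C.card - 1).descFactorial h with hw
  have hwpos : 0 < w := by
    apply Nat.pos_of_ne_zero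
    rw [hw, Ne, Nat.descFactorial_eq_zero_iff_lt]
    omega
  have hcardW : (wds (h + 1) C).card = C.card * w := by
    rw [hW2, hw]
    obtain ⟨m', hm'⟩ : ∃ m', C.card = m' + 1 := ⟨C.card - 1, by omega⟩
    rw [hm', Nat.add_sub_cancel, Nat.succ_descFactorial_succ]
  have hHd := hW4 (Fin n → Bool) f S h C
  set Sd : ℕ := ∑ u ∈ S, (act f u C).card with hSd
  have hSdR : (Sd : ℝ) = ∑ u ∈ S, ((act f u C).card : ℝ) := by
    rw [hSd]; push_cast; rfl
  have hHdR : (num S (h + 1) C (fun u π => Hd f u π) : ℝ) = (Sd : ℝ) * w := by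
    rw [hHd, ← hw]; push_cast; rfl
  have hcnt := hCNT (Fin n → Bool) f S hSy p hp k (h + 1) C hk
  rw [hHd, ← hw, hcardW] at hcnt
  refine MAIN_arith k h R C.card S.card (Sd : ℝ) (w : ℝ)
    (((k : ℝ) + 1) ^ 2 * (3 / g ^ 2) +
      ((k : ℝ) + 1) ^ 3 * ((15 + 200 * k * Real.exp (-g / 5)) / g ^ 3))
    ((2 : ℝ) ^ (-(g / 8)) * (1 + 2 / g) ^ k) (1 + 3 ^ R) θ D
    (∑ j ∈ range (k + 1), (num S (h + 1) C (fun u π => ∃ φ, Fi f p k 0 u π φ ∧
      φ j ∈ Bs S f C δ (C \ π.toFinset) R) : ℝ))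
    (num S (h + 1) C (fun u π => ∃ φ, Fi f p k 0 u π φ ∧ Gd f g k φ (C \ π.toFinset) ∧
      R < (range (k + 1) \ Eo p k φ).card) : ℝ)
    (∑ y ∈ range (k + 1), (num S (h + 1) C (fun u π => ∃ φ, Fi f p k 0 u π φ ∧
      (Gd f g k φ (C \ π.toFinset) ∧ g / 8 < (cb p k y φ : ℝ))) : ℝ))
    (num S (h + 1) C (fun u π => ∃ φ, Fi f p k 0 u π φ) : ℝ)
    hR hk hD (by exact_mod_cast hwpos) (Nat.cast_nonneg _) (by rw [hSdR]; exact havg) ?_ ?_ ?_ ?_
    ?_ hsum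
  · have h1 : (((h + 1) * (Sd * w) : ℕ) : ℝ) ≤ (((h + 1) *
        num S (h + 1) C (fun u π => ∃ φ, Fi f p k 0 u π φ) +
        (k - 1) * (S.card * (C.card * w)) : ℕ) : ℝ) := by exact_mod_cast hcnt
    push_cast [Nat.cast_sub hk] at h1
    linarith
  · exact_mod_cast hunion
  · rw [mul_sum]
    have h1 : ∀ j ∈ range (k + 1), ((h : ℝ) + 1) * (num S (h + 1) C (fun u π =>
        ∃ φ, Fi f p k 0 u π φ ∧ φ j ∈ Bs S f C δ (C \ π.toFinset) R) : ℝ) ≤
        (C.card : ℝ) * w * (1 + 3 ^ R) * (θ * Sd) := by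
      intro j hj
      have hjk : j ≤ k := Nat.lt_succ_iff.1 (mem_range.1 hj)
      refine (hBAD n S f hCu C p hp k j h R δ hk hjk hδ hhC).trans ?_
      rw [hcardW]
      push_cast
      refine mul_le_mul_of_nonneg_left ?_ (by positivity)
      rw [hSdR, mul_sum]
      apply sum_le_sum
      intro u hu
      rw [mul_comm θ]
      exact mul_le_mul_of_nonneg_left (htheta _ (hdeg u hu)) (Nat.cast_nonneg _)
    refine (sum_le_sum h1).trans (le_of_eq ?_)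
    rw [sum_const, card_range, nsmul_eq_mul]
    push_cast
    ring
  · have h1 := hCLS n S f hCu C p hp k (h + 1) R g hk hg100
    rw [hHdR] at h1
    exact h1
  · have h1 : ∀ y ∈ range (k + 1), (num S (h + 1) C (fun u π => ∃ φ, Fi f p k 0 u π φ ∧
      (Gd f g k φ (C \ π.toFinset) ∧ g / 8 < (cb p k y φ : ℝ))) : ℝ) ≤
        (2 : ℝ) ^ (-(g / 8)) * (1 + 2 / g) ^ k * ((Sd : ℝ) * w) := by
      intro y hy
      have hyk : y ≤ k := Nat.lt_succ_iff.1 (mem_range.1 hy)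
      have hT := hTRA (Fin n → Bool) f S hSy p hp k y (h + 1) C
        (fun φ ρ => Gd f g k φ ρ ∧ g / 8 < (cb p k y φ : ℝ)) hk hyk (by
          intro φ ψ ρ hφψ ⟨hG, hc⟩
          refine ⟨fun i hi => by rw [← hφψ i hi]; exact hG i hi, ?_⟩
          have hcb : cb p k y φ = cb p k y ψ := by
            unfold cb
            congr 1
            apply List.filter_congr
            intro e he
            obtain ⟨he1, he2, _⟩ := (hSCH p hp k y hyk).2.2.1 e he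
            rw [hφψ e.1 he1, hφψ e.2 he2, hφψ y hyk]
          rw [← hcb]
          exact hc)
      have hC := hCRO n S f hCu C p hp k y (h + 1) g (g / 8) hk hyk (by linarith)
      rw [hHdR] at hC
      refine le_trans ?_ hC
      exact_mod_cast hT
    refine (sum_le_sum h1).trans (le_of_eq ?_)
    rw [sum_const, card_range, nsmul_eq_mul]
    push_cast
    ring

end Pool.Agent.Lib.MP_233400_co.AT
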