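import Pool.Agent.Lib.MP_233400_co.AT.Stm

set_option autoImplicit false

/-!
# MP_233400_co, project AT, piece WDS: words of different letters
-/

namespace Pool.Agent.Lib.MP_233400_co.AT

open Finset

theorem WDS_mem (h : ℕ) : ∀ (C : Finset ℕ) (π : List ℕ),
    π ∈ wds h C ↔ π.Nodup ∧ π.length = h ∧ ∀ a ∈ π, a ∈ C := by
  induction h with
  | zero =>
    intro C π
    rw [wds, mem_singleton]
    constructor
    · rintro rfl
      exact ⟨List.nodup_nil, rfl, fun a ha => absurd ha List.not_mem_nil⟩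
    · rintro ⟨-, h, -⟩
      exact List.length_eq_zero_iff.mp h
  | succ h ih =>
    intro C π
    rw [wds, mem_biUnion]
    constructor
    · rintro ⟨c, hc, hπ⟩
      obtain ⟨σ, hσ, rfl⟩ := mem_image.mp hπ
      obtain ⟨h1, h2, h3⟩ := (ih _ _).mp hσ
      refine ⟨List.nodup_cons.mpr ⟨fun h => (mem_erase.mp (h3 c h)).1 rfl, h1⟩, ?_, ?_⟩
      · rw [List.length_cons, h2]
      · intro a ha
        rcases List.mem_cons.mp ha with rfl | ha
        · exact hc
        · exact (mem_erase.mp (h3 a ha)).2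
    · rintro ⟨h1, h2, h3⟩
      cases π with
      | nil => simp at h2
      | cons c σ =>
        rw [List.nodup_cons] at h1
        rw [List.length_cons, Nat.add_right_cancel_iff] at h2
        refine ⟨c, h3 c List.mem_cons_self, mem_image.mpr ⟨σ, (ih _ _).mpr ⟨h1.2, h2, ?_⟩, rfl⟩⟩
        intro a ha
        refine mem_erase.mpr ⟨?_, h3 a (List.mem_cons_of_mem _ ha)⟩
        rintro rfl
        exact h1.1 ha

theorem WDS_sum {M : Type} [AddCommMonoid M] (h : ℕ) (C : Finset ℕ) (F : List ℕ → M) :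
    ∑ π ∈ wds (h + 1) C, F π = ∑ c ∈ C, ∑ π ∈ wds h (C.erase c), F (c :: π) := by
  rw [wds, sum_biUnion]
  · refine sum_congr rfl fun c _ => ?_
    rw [sum_image]
    intro π _ σ _ h
    exact (List.cons.inj h).2
  · intro a _ b _ hab
    rw [Function.onFun, disjoint_left]
    intro π h1 h2
    obtain ⟨σ, -, rfl⟩ := mem_image.mp h1
    obtain ⟨τ, -, h⟩ := mem_image.mp h2
    exact hab (List.cons.inj h).1.symm

theorem WDS_card (h : ℕ) : ∀ C : Finset ℕ, (wds h C).card = C.card.descFactorial h := by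
  induction h with
  | zero =>
    intro C
    rw [wds, card_singleton, Nat.descFactorial_zero]
  | succ h ih =>
    intro C
    rw [card_eq_sum_ones, WDS_sum]
    have h1 : ∀ c ∈ C, ∑ _π ∈ wds h (C.erase c), 1 = (C.card - 1).descFactorial h := by
      intro c hc
      rw [← card_eq_sum_ones, ih, card_erase_of_mem hc]
    rw [sum_congr rfl h1, sum_const, smul_eq_mul]
    rcases Nat.eq_zero_or_pos C.card with h0 | h0
    · rw [h0, zero_mul, Nat.zero_descFactorial_succ]
    · obtain ⟨m, hm⟩ := Nat.exists_eq_succ_of_ne_zero h0.ne'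
      rw [hm, Nat.succ_sub_one, Nat.succ_descFactorial_succ]

theorem WDS_Hd {X : Type} [DecidableEq X] (f : ℕ → X → X) (u : X) (c : ℕ) (π : List ℕ) :
    Hd f u (c :: π) ↔ f c u ≠ u := by
  constructor
  · rintro ⟨c', W', h, h'⟩
    rw [(List.cons.inj h).1]
    exact h'
  · intro h
    exact ⟨c, π, rfl, h⟩

theorem P_WDS : S_WDS := by
  refine ⟨fun h C π => WDS_mem h C π, fun h C => WDS_card h C, fun h C F => WDS_sum h C F, ?_⟩
  intro X _ f S h C
  unfold num
  rw [card_filter, sum_product, sum_mul]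
  refine sum_congr rfl fun u _ => ?_
  rw [WDS_sum]
  refine (sum_congr rfl (g := fun c =>
    if f c u ≠ u then (C.card - 1).descFactorial h else 0) fun c hc => ?_).trans ?_
  · by_cases hcu : f c u ≠ u
    · rw [if_pos hcu, ← card_erase_of_mem hc, ← WDS_card h (C.erase c), card_eq_sum_ones]
      exact sum_congr rfl fun π _ => if_pos ((WDS_Hd f u c π).mpr hcu)
    · rw [if_neg hcu]
      exact sum_eq_zero fun π _ => if_neg fun h => hcu ((WDS_Hd f u c π).mp h)
  · rw [← sum_filter, sum_const, smul_eq_mul]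
    rfl

end Pool.Agent.Lib.MP_233400_co.AT
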